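import Mathlib
import Pool.Agent.Lib.MP_89bcae_ag.Bra.Defs
import Pool.Agent.Lib.MP_89bcae_ag.Bra.DefsA

/-!
# The cyclic coverings of the Hirzebruch surfaces branched along a smooth curve
-/

open Polynomial

open scoped Classical

namespace Pool.Agent.Lib.MP_89bcae_ag.Zs

open Pool.Agent.Lib.MP_89bcae_ag.Bra

/-- The curve `φ(t, x) = 0` is smooth at its points on the line `t = s`. Here `φ` is a polynomial in `x` with
coefficients in `F[t]`. -/
def IsSmoothAt {F : Type} [Field F] (φ : F[X][X]) (s : F) : Prop :=
  ∀ r : F, (φ.map (evalRingHom s)).eval r = 0 →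
    (derivative (φ.map (evalRingHom s))).eval r ≠ 0 ∨ (derivative (φ.eval (C r))).eval s ≠ 0

/-- The polynomial `t ^ (e n) φ(1 / t, x / t ^ e)`, where `n` is the degree of `φ` in `x`. -/
noncomputable def atInfinity {F : Type} [Field F] (e : ℕ) (φ : F[X][X]) : F[X][X] :=
  ∑ i ∈ Finset.range (φ.natDegree + 1), C ((φ.coeff i).reflect (e * (φ.natDegree - i))) * X ^ i

/-- The polynomial `f`, in `x` with coefficients in `k[t]`, with its coefficients in `F[t]`. -/
noncomputable def ext {k : Type} (F : Type) [Field k] [Field F] [Algebra k F] (f : k[X][X]) : F[X][X] :=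
  f.map (mapRingHom (algebraMap k F))

/-- The value `f(t, x)` of the polynomial `f` in an extension `A` of `F`. -/
noncomputable def val {k : Type} (F : Type) [Field k] [Field F] [Algebra k F] {A : Type} [Field A]
    [Algebra F A] (f : k[X][X]) (t x : A) : A :=
  (ext F f).eval₂ ((aeval t : F[X] →ₐ[F] A) : F[X] →+* A) x

/-- `F` is an algebraically closed field containing `k`. The polynomial `f` is monic of degree `n` prime to `ℓ`
in `x`, irreducible over `F(t)`, separable in `x`, and defines a smooth curve in the Hirzebruch surface `F_e`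
over `F`: the coefficient of `x ^ i` has degree at most `e (n - i)`, and the curve is smooth in the affine
plane with coordinates `t`, `x` and also at infinity, in the affine plane with coordinates `1 / t`,
`x / t ^ e`. Moreover `ℓ` divides `e`, so that the cyclic covering of degree `ℓ` of `F_e` branched along this curve and along the
section at infinity is not branched along the line at infinity. -/
structure IsBranchCurve (ℓ e : ℕ) {k : Type} (F : Type) [Field k] [Field F] [Algebra k F]
    (f : k[X][X]) : Prop where
  monic : f.Monic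
  coprime : f.natDegree.Coprime ℓ
  separable : derivative f ≠ 0
  irreducible : Irreducible (ext F f)
  dvd : ℓ ∣ e
  degree : ∀ i, (f.coeff i).natDegree ≤ e * (f.natDegree - i)
  smooth : ∀ s : F, IsSmoothAt (ext F f) s
  infinity : IsSmoothAt (atInfinity e (ext F f)) 0

/-- `E` is generated over `F` by `t` and `x`, where `t` is transcendental and `f(t, x) = 0`: it is the function
field of the curve defined by `f`. -/
structure IsCurveField {k : Type} (F : Type) {E : Type} [Field k] [Field F] [Algebra k F] [Field E]
    [Algebra F E] (f : k[X][X]) (t x : E) : Prop where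
  transcendental : Transcendental F t
  equation : val F f t x = 0
  generate : IntermediateField.adjoin F {t, x} = ⊤

/-- `K` is generated over `F` by `t`, `x`, `y`, where `t` and `x` are algebraically independent and
`y ^ ℓ = f(t, x)`. -/
structure IsCoverField (ℓ : ℕ) {k : Type} (F : Type) {K : Type} [Field k] [Field F] [Algebra k F]
    [Field K] [Algebra F K] (f : k[X][X]) (t x y : K) : Prop where
  independent : AlgebraicIndependent F ![t, x]
  equation : y ^ ℓ = val F f t x
  generate : IntermediateField.adjoin F {t, x, y} = ⊤

/-- The group of the `ℓ`-th powers. -/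
def powers (ℓ : ℕ) (E : Type) [Field E] : Subgroup Eˣ := (powMonoidHom ℓ : Eˣ →* Eˣ).range

/-- The group of the elements of `E` whose value is divisible by `ℓ` for all the valuation rings of `E` which
contain `F`. If `E` is the function field of a smooth projective curve `B` over the algebraically closed field
`F`, in which `ℓ ≠ 0`, then its quotient by the group of the `ℓ`-th powers is the group `J(B)[ℓ]`: the class of `u` corresponds
to the class of the divisor `D` with `div u = ℓ D`. -/
def unramified (ℓ : ℕ) (F E : Type) [Field F] [Field E] [Algebra F E] : Subgroup Eˣ where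
  carrier := {u | ∀ O : ValuationSubring E, (∀ c : F, algebraMap F E c ∈ O) →
    ∃ w : Eˣ, O.valuation (u : E) = O.valuation (w : E) ^ ℓ}
  one_mem' := fun O _ => ⟨1, by simp⟩
  mul_mem' := by
    intro a b ha hb O hO
    obtain ⟨w, hw⟩ := ha O hO
    obtain ⟨w', hw'⟩ := hb O hO
    exact ⟨w * w', by rw [Units.val_mul, Units.val_mul, map_mul, map_mul, mul_pow, hw, hw']⟩
  inv_mem' := by
    intro a ha O hO
    obtain ⟨w, hw⟩ := ha O hO
    exact ⟨w⁻¹, by rw [Units.val_inv_eq_inv_val, Units.val_inv_eq_inv_val, map_inv₀, map_inv₀, inv_pow, hw]⟩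

/-- The group of the automorphisms of `E` over `k(t, x)` which fix the `ℓ`-th roots of unity. If `F` is an
algebraic closure of `k` and `E` is the function field of a curve over `F` as in `IsCurveField`, it is the
Galois group of `F` over the field generated by `k` and the `ℓ`-th roots of unity. -/
def galois (ℓ : ℕ) (k F : Type) {E : Type} [Field k] [Field F] [Algebra k F] [Field E] [Algebra F E]
    (t x : E) : Subgroup (E ≃+* E) where
  carrier := {γ | (∀ c : k, γ (algebraMap F E (algebraMap k F c)) = algebraMap F E (algebraMap k F c)) ∧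
    (∀ ζ : E, ζ ^ ℓ = 1 → γ ζ = ζ) ∧ γ t = t ∧ γ x = x}
  one_mem' := ⟨fun _ => rfl, fun _ _ => rfl, rfl, rfl⟩
  mul_mem' := by
    rintro a b ⟨h1, h2, h3, h4⟩ ⟨h1', h2', h3', h4'⟩
    refine ⟨fun c => ?_, fun ζ hζ => ?_, ?_, ?_⟩
    · rw [RingAut.mul_apply, h1', h1]
    · rw [RingAut.mul_apply, h2' ζ hζ, h2 ζ hζ]
    · rw [RingAut.mul_apply, h3', h3]
    · rw [RingAut.mul_apply, h4', h4]
  inv_mem' := by
    rintro a ⟨h1, h2, h3, h4⟩
    refine ⟨fun c => ?_, fun ζ hζ => ?_, ?_, ?_⟩
    · exact a.injective ((a.apply_symm_apply _).trans (h1 c).symm)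
    · exact a.injective ((a.apply_symm_apply _).trans (h2 ζ hζ).symm)
    · exact a.injective ((a.apply_symm_apply _).trans h3.symm)
    · exact a.injective ((a.apply_symm_apply _).trans h4.symm)

/-- The criterion: for each subgroup `N` of `J(B)[ℓ]` (see `unramified`) which is nonzero, stable under the
Galois group `G` (see `galois`) and has `ℓ ^ r` elements, the order of the image of `G` in the group of the
automorphisms of `N` is divisible by a higher power of `ℓ` than `ℓ ^ r r!`. The subgroups of `J(B)[ℓ]` are given
by the subgroups of `Eˣ` containing the `ℓ`-th powers. -/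
def IsCritical (ℓ : ℕ) (k F : Type) {E : Type} [Field k] [Field F] [Algebra k F] [Field E] [Algebra F E]
    (t x : E) : Prop :=
  ∀ N : Subgroup Eˣ, powers ℓ E < N → N ≤ unramified ℓ F E →
    (∀ γ ∈ galois ℓ k F t x, ∀ u ∈ N, Units.map (γ : E →* E) u ∈ N) →
    ∀ r : ℕ, (powers ℓ E).relIndex N = ℓ ^ r →
      r + padicValNat ℓ r.factorial < padicValNat ℓ (Nat.card (Set.range fun (γ : galois ℓ k F t x) (u : N) =>
        (Units.map ((γ : E ≃+* E) : E →* E) u : Eˣ ⧸ powers ℓ E)))

/-- The surface `y ^ ℓ = f(t, x)` over the algebraically closed field `F` containing `k`. For all finite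
extensions `k'` of `k` in `F`, the elements of the `ℓ`-adic Tate module of the Brauer group of a smooth projective
model which are fixed by the automorphisms over `k'(t, x, y)` are trivial. Let `A` be the integral closure
of `F(t)[x]` in the function field; if the degree of `f` in `x` is prime to `ℓ`, then the Picard group of `A` is
the group of the points over `F(t)` of the Jacobian of the curve `y ^ ℓ = f(t, x)`. For all `n`, the elements of the Picard group of
`A` are `ℓ ^ n`-th powers. -/
structure CoverTate (ℓ : ℕ) {k : Type} (F : Type) [Field k] [Field F] [Algebra k F] (f : k[X][X]) :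
    Prop where
  brauer : ∀ (K S : Type) [Field K] [Algebra F K] [Field S] [Algebra K S] [IsAlgClosure K S]
    (t x y : K), IsCoverField ℓ F f t x y →
    ∀ k' : IntermediateField k F, FiniteDimensional k k' → BrauerInvariantsTrivial ℓ S k' t x y
  picard : ∀ (K : Type) [Field K] [Algebra F K] (t x y : K), IsCoverField ℓ F f t x y →
    ∀ (n : ℕ) (P : CommRing.Pic (affineRing F {t} x)),
      ∃ Q : CommRing.Pic (affineRing F {t} x), P = Q ^ ℓ ^ n

end Pool.Agent.Lib.MP_89bcae_ag.Zs
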