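import Mathlib
import Pool.Agent.Lib.MP_89bcae_ag.Tk.K054


/-!
The kernel of `π = 1 - Z`: parts (B) and (C) of the explanations in R17.
-/

open Polynomial IsDedekindDomain

open scoped Classical

namespace Pool.Agent.Lib.MP_89bcae_ag.Wt

universe u

variable {N : ℕ} {E : Type u} [Field E] {f : E[X]} [hG : IsGood N f]

lemma zJ_ram (ζ : E) (hζ : ζ ^ N = 1) (e : E → ℤ) : zJ ζ hζ (ram e : Jac N f) = ram e := by
  rw [ram, zJ_cl, mapDomain_rot_ramDiv]

lemma smul_ram (e : E → ℤ) : N • (ram e : Jac N f) = 0 := by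
  have h1 : (ram (fun θ => (N : ℤ) * e θ) : Jac N f) = ram fun _ => 0 :=
    ram_congr _ _ fun θ _ => ⟨e θ, by ring⟩
  have h2 : (ram (fun _ => 0) : Jac N f) = 0 := by
    have h3 : (ramDiv (fun _ => 0) : Pt N f →₀ ℤ) = 0 := by
      ext P
      simp
    rw [ram, h3, map_zero]
  rw [h2, ram, ramDiv_smul, map_zsmul, ← ram, natCast_zsmul] at h1
  exact h1

lemma symU_xprod (σ : Sym f) (D : Pt N f →₀ ℤ) :
    symU σ (xprod D) = xprod (D.mapDomain (Pt.sym σ)) := by
  unfold xprod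
  rw [Finsupp.prod_mapDomain_index (fun _ => zpow_zero _) (fun _ _ _ => zpow_add _ _ _)]
  unfold Finsupp.prod
  rw [map_prod]
  apply Finset.prod_congr rfl
  intro P _
  rw [map_zpow, symU_xs]
  rfl

end Pool.Agent.Lib.MP_89bcae_ag.Wt
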