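import Mathlib
import Pool.Agent.Lib.MP_89bcae_ag.Z.X1


/-!
# The ramified classes, with exponents normalized by the multiplicities
-/

open Polynomial

open scoped Classical

namespace Pool.Agent.Lib.MP_89bcae_ag.Wt

universe u

variable {N : ℕ} {E : Type u} [Field E] {f : E[X]}

section

variable [hG : IsGood N f]

lemma rm_zero : (rm (fun _ => 0) : Jac N f) = 0 := by
  have h := rm_sub (N := N) (f := f) (fun _ => 0) (fun _ => 0)
  simpa only [sub_self] using h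

lemma rm_neg (n : E → ℤ) : (rm (fun θ => -n θ) : Jac N f) = -rm n := by
  have h := rm_sub (N := N) (f := f) (fun _ => 0) n
  rw [rm_zero, zero_sub] at h
  rw [← h]
  congr 1
  funext θ
  ring

lemma zJ_rm (ζ : E) (hζ : ζ ^ N = 1) (n : E → ℤ) : zJ ζ hζ (rm n : Jac N f) = rm n :=
  zJ_ram ζ hζ _

lemma smul_rm (n : E → ℤ) : N • (rm n : Jac N f) = 0 := smul_ram _

/-- `kummer_formula` with `rm`. -/
theorem kummer_rm (ζ : E) (hζ : IsPrimitiveRoot ζ N) (Q : Jac N f) (D : Pt N f →₀ ℤ)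
    (hQ : Q - zJ ζ hζ.pow_eq_one Q = cl D) :
    ∃ z : E → E, (∀ θ, f.eval θ = 0 → z θ ≠ 0 ∧
      z θ ^ N = ((-1) ^ (N + 1)) ^ atR D θ * uval D θ) ∧
      ∀ (σ : Sym f), (σ : E ≃+* E) ζ = ζ → D.mapDomain (Pt.sym σ) = D → ∀ n : E → ℤ,
        (∀ θ, f.eval θ = 0 →
          (σ : E ≃+* E) (z θ) = ζ ^ n ((σ : E ≃+* E) θ) * z ((σ : E ≃+* E) θ)) →
        symJ σ Q - Q = rm n :=
  kummer_formula ζ hζ Q D hQ

/-- Image of a ramified class under a homomorphism of fields. -/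
lemma jacMap_rm {E' : Type u} [Field E'] {f' : E'[X]} [hG' : IsGood N f'] (σ : E →+* E')
    (h : f.map σ = f') (e : E → ℤ) (e' : E' → ℤ) (he : ∀ θ, f.eval θ = 0 → e' (σ θ) = e θ) :
    jacMap N σ h (rm e) = rm e' := by
  unfold rm
  refine jacMap_ram σ h _ _ fun θ hθ => ?_
  rw [he θ hθ, wt_map σ h]

end

end Pool.Agent.Lib.MP_89bcae_ag.Wt
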