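import Mathlib
import Pool.Agent.Lib.MP_89bcae_ag.Z.X2


/-!
# The normalised exponents of the classes of ramified divisors
-/

open Polynomial IsDedekindDomain

open scoped Classical

set_option linter.style.haveILetI false

namespace Pool.Agent.Lib.MP_89bcae_ag.Wt

universe u

variable {ℓ : ℕ} {E : Type u} [Field E] {f : E[X]} [hG : IsGood ℓ f]

omit hG in
lemma rm14_sum_wt (hG : IsGood ℓ f) : ∑ θ ∈ f.roots.toFinset, wt f θ = f.natDegree := by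
  have hE : IsAlgClosed E := hG.alg
  have h1 : ∀ θ ∈ f.roots.toFinset, wt f θ = f.roots.count θ := fun θ _ => (count_roots f).symm
  rw [Finset.sum_congr rfl h1, Multiset.toFinset_sum_count_eq]
  exact (IsAlgClosed.splits f).natDegree_eq_card_roots.symm

omit hG in
lemma rm14_deg_ne (hp : ℓ.Prime) (hG : IsGood ℓ f) : (f.natDegree : ZMod ℓ) ≠ 0 := by
  intro h
  rw [ZMod.natCast_eq_zero_iff] at h
  exact hp.one_lt.ne' (Nat.Coprime.eq_one_of_dvd hG.coprime.symm h)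

omit hG in
lemma rm14_wt_ne (hp : ℓ.Prime) (hG : IsGood ℓ f) {θ : E} (hθ : f.eval θ = 0) :
    (wt f θ : ZMod ℓ) ≠ 0 := by
  intro h
  rw [ZMod.natCast_eq_zero_iff] at h
  exact hp.one_lt.ne' (Nat.Coprime.eq_one_of_dvd (hG.mult θ hθ).symm h)

omit hG in
lemma rm14_mem (hG : IsGood ℓ f) {θ : E} : θ ∈ f.roots.toFinset ↔ f.eval θ = 0 := by
  rw [Multiset.mem_toFinset, mem_roots (f_ne_zero ℓ f), IsRoot.def]

/-- The exponents normalised by their weighted sum are unique modulo `ℓ`. -/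
lemma rm14_unique (hp : ℓ.Prime) {ζ : E} (hζ : IsPrimitiveRoot ζ ℓ) (n n' : E → ℤ)
    (h : (ram (fun θ => (wt f θ : ℤ) * n θ) : Jac ℓ f) = ram (fun θ => (wt f θ : ℤ) * n' θ))
    (hs : ∑ θ ∈ f.roots.toFinset, (wt f θ : ZMod ℓ) * (n θ : ZMod ℓ) =
      ∑ θ ∈ f.roots.toFinset, (wt f θ : ZMod ℓ) * (n' θ : ZMod ℓ)) :
    ∀ θ ∈ f.roots.toFinset, (n θ : ZMod ℓ) = n' θ := by
  haveI : Fact ℓ.Prime := ⟨hp⟩
  have h1 : (ram (fun θ => (wt f θ : ℤ) * n θ - (wt f θ : ℤ) * n' θ) : Jac ℓ f) = 0 := by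
    rw [ram_sub, h, sub_self]
  obtain ⟨c, hc⟩ := (ram_eq_zero_iff ζ hζ _).1 h1
  have h2 : ∀ θ ∈ f.roots.toFinset, (n θ : ZMod ℓ) - n' θ = c := by
    intro θ hθ
    have h0 := (rm14_mem hG).1 hθ
    have h3 := (ZMod.intCast_zmod_eq_zero_iff_dvd _ ℓ).2 (hc θ h0)
    push_cast at h3
    have h4 : (wt f θ : ZMod ℓ) * ((n θ : ZMod ℓ) - n' θ - c) = 0 := by
      linear_combination h3
    have h5 := (mul_eq_zero.1 h4).resolve_left (rm14_wt_ne hp hG h0)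
    exact sub_eq_zero.1 h5
  have h4 : (f.natDegree : ZMod ℓ) * c = 0 := by
    rw [← rm14_sum_wt hG]
    push_cast
    rw [Finset.sum_mul]
    have h5 : ∀ θ ∈ f.roots.toFinset, (wt f θ : ZMod ℓ) * (c : ZMod ℓ) =
        (wt f θ : ZMod ℓ) * (n θ : ZMod ℓ) - (wt f θ : ZMod ℓ) * (n' θ : ZMod ℓ) := by
      intro θ hθ
      rw [← h2 θ hθ, mul_sub]
    rw [Finset.sum_congr rfl h5, Finset.sum_sub_distrib, hs, sub_self]
  have h5 : (c : ZMod ℓ) = 0 := (mul_eq_zero.1 h4).resolve_left (rm14_deg_ne hp hG)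
  intro θ hθ
  rw [← sub_eq_zero, h2 θ hθ, h5]

/-- Normalised exponents exist. -/
lemma rm14_exists (hp : ℓ.Prime) {ζ : E} (hζ : IsPrimitiveRoot ζ ℓ) (Q : Jac ℓ f)
    (hQ : zJ ζ hζ.pow_eq_one Q = Q) :
    ∃ n : E → ℤ, Q = ram (fun θ => (wt f θ : ℤ) * n θ) ∧
      ∑ θ ∈ f.roots.toFinset, (wt f θ : ZMod ℓ) * (n θ : ZMod ℓ) = 0 := by
  haveI : Fact ℓ.Prime := ⟨hp⟩
  obtain ⟨e, he⟩ := exists_ram_of_zJ_eq ζ hζ Q hQ
  set n₀ : E → ℤ := fun θ => al ℓ (wt f θ) * e θ with hn₀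
  have h0 : Q = ram (fun θ => (wt f θ : ℤ) * n₀ θ) := by
    rw [he]
    apply ram_congr
    intro θ hθ
    have hw : ((al ℓ (wt f θ) * wt f θ : ℕ) : ℤ) = ((be ℓ (wt f θ) * ℓ + 1 : ℕ) : ℤ) := by
      rw [al_wt (N := ℓ) hθ]
    push_cast at hw
    refine ⟨-(be ℓ (wt f θ) * e θ), ?_⟩
    rw [hn₀]
    linear_combination (-e θ) * hw
  set a : ZMod ℓ := (∑ θ ∈ f.roots.toFinset, (wt f θ : ZMod ℓ) * (n₀ θ : ZMod ℓ)) /
    (f.natDegree : ZMod ℓ) with ha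
  refine ⟨fun θ => n₀ θ - (a.val : ℤ), ?_, ?_⟩
  · have h1 : (ram (fun θ => (a.val : ℤ) * wt f θ) : Jac ℓ f) = 0 :=
      (ram_eq_zero_iff ζ hζ _).2 ⟨a.val, fun _ _ => by simp⟩
    have h2 := ram_sub (N := ℓ) (f := f) (fun θ => (wt f θ : ℤ) * n₀ θ)
      (fun θ => (a.val : ℤ) * wt f θ)
    rw [h1, sub_zero] at h2
    rw [h0, ← h2]
    congr 1
    funext θ
    ring
  · have h3 : ∀ θ ∈ f.roots.toFinset,
        (wt f θ : ZMod ℓ) * (((n₀ θ - (a.val : ℤ) : ℤ)) : ZMod ℓ) =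
        (wt f θ : ZMod ℓ) * (n₀ θ : ZMod ℓ) - (wt f θ : ZMod ℓ) * a := by
      intro θ _
      rw [Int.cast_sub, Int.cast_natCast, ZMod.natCast_zmod_val, mul_sub]
    have h4 : ∑ θ ∈ f.roots.toFinset, (wt f θ : ZMod ℓ) = (f.natDegree : ZMod ℓ) := by
      rw [← rm14_sum_wt hG]
      push_cast
      rfl
    rw [Finset.sum_congr rfl h3, Finset.sum_sub_distrib, ← Finset.sum_mul, h4, ha,
      mul_div_cancel₀ _ (rm14_deg_ne hp hG), sub_self]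

end Pool.Agent.Lib.MP_89bcae_ag.Wt
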