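import Mathlib
import Pool.Agent.Lib.MP_89bcae_ag.Tk.K054
import Pool.Agent.Lib.MP_89bcae_ag.Z.Defs

/-!
# The places of `L = F(t)` and the local triviality of the cochains at all places
-/

attribute [local instance 100000] Pool.Agent.Lib.MP_89bcae_ag.Brt.tffFields
attribute [local instance 100000] Pool.Agent.Lib.MP_89bcae_ag.Wt.ifrNF Pool.Agent.Lib.MP_89bcae_ag.Wt.iddNF

open Polynomial IsDedekindDomain

open scoped Classical

namespace Pool.Agent.Lib.MP_89bcae_ag.Zs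

open Pool.Agent.Lib.MP_89bcae_ag.Wt Pool.Agent.Lib.MP_89bcae_ag.Wt.Lns Pool.Agent.Lib.MP_89bcae_ag.Bra
  Pool.Agent.Lib.MP_89bcae_ag.Brt

/-- `K` is an extension of `L = F(t)`, `M` an algebraic closure of `K`, `v` an absolute value of `M`, invariant under the
automorphisms over `K`, trivial on `F`, with residue field `F`, such that the values of `K` are the powers of the
value of an element of `L`: there is a place of `F(t)` (finite or not) such that `K` is contained in the completion of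
`L` at this place. -/
structure IsPlace (F : Type) {L K M : Type} [Field F] [Field L] [Algebra F[X] L] [Field K] [Field M]
    [Algebra K M] (i : L →+* K) (v : AbsoluteValue M ℝ) : Prop where
  nonarch : ∀ x y, v (x + y) ≤ max (v x) (v y)
  const : ∀ a : F, a ≠ 0 → v (algebraMap K M (i (algebraMap F[X] L (C a)))) = 1
  residue : ∀ x, v x ≤ 1 → ∃ a : F, v (x - algebraMap K M (i (algebraMap F[X] L (C a)))) < 1
  inv : ∀ (σ : M ≃ₐ[K] M) (x : M), v (σ x) = v x
  disc : ∃ τ : L, τ ≠ 0 ∧ v (algebraMap K M (i τ)) < 1 ∧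
    ∀ x : K, x ≠ 0 → ∃ n : ℤ, v (algebraMap K M x) = v (algebraMap K M (i τ)) ^ n

section

variable {F L Ω : Type} [Field F] [Field L] [Algebra F[X] L] [Field Ω] [Algebra L Ω] {ℓ : ℕ} {f : L[X]}

variable (F ℓ f) in

/-- The cochain `c` is locally trivial at all the places of `L = F(t)`. -/
def LTa (c : (Ω ≃ₐ[L] Ω) → JacOver ℓ f Ω) : Prop :=
  ∀ (K M : Type) [Field K] [Field M] [Algebra K M] [IsAlgClosure K M] (i : L →+* K) (j : Ω →+* M),
    (∀ z, j (algebraMap L Ω z) = algebraMap K M (i z)) →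
    ∀ v : AbsoluteValue M ℝ, IsPlace F i v → LTj (Lv := K) ℓ f j c

lemma lta_zero : LTa F ℓ f (Ω := Ω) fun _ => 0 := by
  intro K M _ _ _ _ i j _ v _
  exact ⟨0, fun g g' hg _ => by rw [map_zero, map_zero, sub_zero]⟩

lemma lta_add {c c' : (Ω ≃ₐ[L] Ω) → JacOver ℓ f Ω} (h : LTa F ℓ f c) (h' : LTa F ℓ f c') :
    LTa F ℓ f fun g => c g + c' g := by
  intro K M _ _ _ _ i j hij v hv
  obtain ⟨Q, hQ⟩ := h K M i j hij v hv
  obtain ⟨Q', hQ'⟩ := h' K M i j hij v hv
  refine ⟨Q + Q', fun g g' hg hgg => ?_⟩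
  rw [map_add, hQ g g' hg hgg, hQ' g g' hg hgg, map_add]
  abel

lemma lta_neg {c : (Ω ≃ₐ[L] Ω) → JacOver ℓ f Ω} (h : LTa F ℓ f c) : LTa F ℓ f fun g => -c g := by
  intro K M _ _ _ _ i j hij v hv
  obtain ⟨Q, hQ⟩ := h K M i j hij v hv
  refine ⟨-Q, fun g g' hg hgg => ?_⟩
  rw [map_neg, hQ g g' hg hgg, map_neg]
  abel

lemma lta_sub {c c' : (Ω ≃ₐ[L] Ω) → JacOver ℓ f Ω} (h : LTa F ℓ f c) (h' : LTa F ℓ f c') :
    LTa F ℓ f fun g => c g - c' g := by
  have h1 := lta_add h (lta_neg h')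
  refine Eq.mp (congrArg (LTa F ℓ f) ?_) h1
  funext g
  exact (sub_eq_add_neg _ _).symm

lemma lta_nsmul {c : (Ω ≃ₐ[L] Ω) → JacOver ℓ f Ω} (n : ℕ) (h : LTa F ℓ f c) :
    LTa F ℓ f fun g => n • c g := by
  intro K M _ _ _ _ i j hij v hv
  obtain ⟨Q, hQ⟩ := h K M i j hij v hv
  refine ⟨n • Q, fun g g' hg hgg => ?_⟩
  rw [map_nsmul, hQ g g' hg hgg, map_nsmul, smul_sub]

lemma lta_zsmul {c : (Ω ≃ₐ[L] Ω) → JacOver ℓ f Ω} (n : ℤ) (h : LTa F ℓ f c) :
    LTa F ℓ f fun g => n • c g := by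
  intro K M _ _ _ _ i j hij v hv
  obtain ⟨Q, hQ⟩ := h K M i j hij v hv
  refine ⟨n • Q, fun g g' hg hgg => ?_⟩
  rw [map_zsmul, hQ g g' hg hgg, map_zsmul, smul_sub]

section

variable [hG : IsGood ℓ (f.map (algebraMap L Ω))]

lemma lta_cob (Q : JacOver ℓ f Ω) : LTa F ℓ f fun σ => symJ (gs f σ) Q - Q := by
  intro K M _ _ _ _ i j _ v _
  exact ltj_cob Q

lemma lta_zJ {c : (Ω ≃ₐ[L] Ω) → JacOver ℓ f Ω} (z : L) (hz : (algebraMap L Ω z) ^ ℓ = 1) (h : LTa F ℓ f c) :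
    LTa F ℓ f fun g => zJ (algebraMap L Ω z) hz (c g) := by
  intro K M _ _ _ _ i j hij v hv
  obtain ⟨Q, hQ⟩ := h K M i j hij v hv
  have hM : IsAlgClosed M := IsAlgClosure.isAlgClosed K
  have hpol : (f.map (algebraMap L Ω)).map j = f.map (j.comp (algebraMap L Ω)) := Polynomial.map_map _ _ _
  have hG' : IsGood ℓ (f.map (j.comp (algebraMap L Ω))) := by
    rw [← hpol]
    exact isGood_map j (f.map (algebraMap L Ω))
  have hz' : (j (algebraMap L Ω z)) ^ ℓ = 1 := by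
    rw [← map_pow, hz, map_one]
  refine ⟨zJ (j (algebraMap L Ω z)) hz' Q, fun g g' hg hgg => ?_⟩
  have hgz : g (j (algebraMap L Ω z)) = j (algebraMap L Ω z) := by
    rw [hij, g.commutes]
  have h1 := congrArg (zJ (j (algebraMap L Ω z)) hz') (hQ g g' hg hgg)
  rw [zJ_jacMap j _ (algebraMap L Ω z) hz hz', map_sub] at h1
  refine h1.trans ?_
  congr 1
  have h2 : (((g : M ≃+* M) : M →+* M) (j (algebraMap L Ω z))) ^ ℓ = 1 := by
    rw [← map_pow, hz', map_one]
  rw [← zJ_jacMap ((g : M ≃+* M) : M →+* M) hg (j (algebraMap L Ω z)) hz' h2]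
  exact G04_zJ_congr hgz.symm hz' h2 _

end

/-- The action of an automorphism `γ` of `Ω` which induces an automorphism `s` of `L` with `s(F) = F`. -/
lemma lta_act {γ : Ω ≃+* Ω} {s : L ≃+* L} (hs : ∀ z, γ (algebraMap L Ω z) = algebraMap L Ω (s z))
    (hF : ∀ a : F, ∃ b : F, s (algebraMap F[X] L (C a)) = algebraMap F[X] L (C b))
    (hF' : ∀ b : F, ∃ a : F, s (algebraMap F[X] L (C a)) = algebraMap F[X] L (C b))
    (hγ : (f.map (algebraMap L Ω)).map ((γ : Ω ≃+* Ω) : Ω →+* Ω) = f.map (algebraMap L Ω))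
    {c c' : (Ω ≃ₐ[L] Ω) → JacOver ℓ f Ω} (h : LTa F ℓ f c)
    (hc : ∀ g h : Ω ≃ₐ[L] Ω, (∀ x, γ (g x) = h (γ x)) → c' h = jacMap ℓ ((γ : Ω ≃+* Ω) : Ω →+* Ω) hγ (c g)) :
    LTa F ℓ f c' := by
  intro K M _ _ _ _ i j hij v hv
  let i' : L →+* K := i.comp (s : L →+* L)
  let j' : Ω →+* M := j.comp (γ : Ω →+* Ω)
  have hij' : ∀ z, j' (algebraMap L Ω z) = algebraMap K M (i' z) := by
    intro z
    show j (γ (algebraMap L Ω z)) = algebraMap K M (i (s z))
    rw [hs, hij]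
  have hv' : IsPlace F i' v := by
    refine ⟨hv.nonarch, fun a ha => ?_, fun x hx => ?_, hv.inv, ?_⟩
    · obtain ⟨b, hb⟩ := hF a
      show v (algebraMap K M (i (s (algebraMap F[X] L (C a))))) = 1
      rw [hb]
      apply hv.const
      rintro rfl
      rw [map_zero, map_zero] at hb
      have h1 : algebraMap F[X] L (C a) = 0 := s.injective (hb.trans (map_zero s).symm)
      have h2 : ((algebraMap F[X] L).comp C) a = 0 := h1
      exact ha ((map_eq_zero _).1 h2)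
    · obtain ⟨b, hb⟩ := hv.residue x hx
      obtain ⟨a, ha⟩ := hF' b
      refine ⟨a, ?_⟩
      show v (x - algebraMap K M (i (s (algebraMap F[X] L (C a))))) < 1
      rw [ha]
      exact hb
    · obtain ⟨τ, h1, h2, h3⟩ := hv.disc
      refine ⟨s.symm τ, ?_, ?_, fun x hx => ?_⟩
      · exact (map_ne_zero_iff s.symm s.symm.injective).2 h1
      · show v (algebraMap K M (i (s (s.symm τ)))) < 1
        rw [s.apply_symm_apply]
        exact h2
      · obtain ⟨n, hn⟩ := h3 x hx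
        refine ⟨n, ?_⟩
        show _ = v (algebraMap K M (i (s (s.symm τ)))) ^ n
        rw [s.apply_symm_apply]
        exact hn
  obtain ⟨Q, hQ⟩ := h K M i' j' hij' v hv'
  have hpol : (f.map (j'.comp (algebraMap L Ω))).map (RingHom.id M) = f.map (j.comp (algebraMap L Ω)) := by
    rw [Polynomial.map_id]
    have h1 := congrArg (fun p => p.map j) hγ
    simp only [Polynomial.map_map] at h1
    exact h1
  refine ⟨jacMap ℓ (RingHom.id M) hpol Q, fun g h' hg hgg => ?_⟩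
  let g₁ : Ω ≃+* Ω := (γ.trans (h' : Ω ≃+* Ω)).trans γ.symm
  have hg₁ : ∀ x, g₁ x = γ.symm (h' (γ x)) := fun _ => rfl
  let g' : Ω ≃ₐ[L] Ω := AlgEquiv.ofRingEquiv (f := g₁) (fun z => by
    rw [hg₁, hs, h'.commutes, ← hs, γ.symm_apply_apply])
  have hg' : ∀ x, γ (g' x) = h' (γ x) := by
    intro x
    show γ (γ.symm (h' (γ x))) = h' (γ x)
    rw [γ.apply_symm_apply]
  rw [hc g' h' hg']
  have hpol2 : (f.map (j'.comp (algebraMap L Ω))) = f.map (j.comp (algebraMap L Ω)) := by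
    rw [← hpol, Polynomial.map_id]
  have hg2 : (f.map (j'.comp (algebraMap L Ω))).map ((g : M ≃+* M) : M →+* M) =
      f.map (j'.comp (algebraMap L Ω)) := by
    rw [hpol2]
    exact hg
  have h1 := hQ g g' hg2 (fun x => by
    show j (γ (g' x)) = g (j (γ x))
    rw [hg', hgg])
  have h2 := congrArg (jacMap ℓ (RingHom.id M) hpol) h1
  rw [map_sub] at h2
  refine Eq.trans ?_ (h2.trans ?_)
  · rw [jacMap_jacMap ℓ _ _ _ _ (by rw [← Polynomial.map_map, hγ, Polynomial.map_map]),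
      jacMap_jacMap ℓ _ _ _ _ (by rw [RingHom.id_comp, Polynomial.map_map, ← hpol2])]
    apply G13_jacMap_congr
    rfl
  · congr 1
    rw [jacMap_jacMap ℓ _ _ _ _ (by rw [RingHom.id_comp, hg2, hpol2]),
      jacMap_jacMap ℓ _ _ _ _ (by rw [RingHom.comp_id, hg2, hpol2])]
    apply G13_jacMap_congr
    rfl

end

end Pool.Agent.Lib.MP_89bcae_ag.Zs
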