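import Mathlib

set_option autoImplicit false

/-!
# The Tate module of an abelian group
-/

namespace MP89bZ

/-- the `l`-adic Tate module: sequences `c` with `c 0 = 0`, `l c (n+1) = c n` -/
def Tm (l : ℕ) (A : Type*) [AddCommGroup A] : AddSubgroup (ℕ → A) where
  carrier := {c | c 0 = 0 ∧ ∀ n, l • c (n + 1) = c n}
  zero_mem' := ⟨rfl, fun n => smul_zero _⟩
  add_mem' := by
    rintro a b ⟨h1, h2⟩ ⟨h3, h4⟩
    exact ⟨by rw [Pi.add_apply, h1, h3, add_zero], fun n => by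
      rw [Pi.add_apply, Pi.add_apply, smul_add, h2, h4]⟩
  neg_mem' := by
    rintro a ⟨h1, h2⟩
    exact ⟨by rw [Pi.neg_apply, h1, neg_zero], fun n => by rw [Pi.neg_apply, Pi.neg_apply, smul_neg, h2]⟩

section

variable {l : ℕ} {A : Type*} [AddCommGroup A]

theorem mem_Tm {c : ℕ → A} : c ∈ Tm l A ↔ c 0 = 0 ∧ ∀ n, l • c (n + 1) = c n := Iff.rfl

theorem Tm.zero (c : Tm l A) : (c : ℕ → A) 0 = 0 := c.2.1

theorem Tm.succ (c : Tm l A) (n : ℕ) : l • (c : ℕ → A) (n + 1) = (c : ℕ → A) n := c.2.2 n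

theorem Tm.pow_smul_add (c : Tm l A) (m n : ℕ) : (l ^ m) • (c : ℕ → A) (n + m) = (c : ℕ → A) n := by
  induction m generalizing n with
  | zero => simp
  | succ m ih =>
    rw [pow_succ, mul_smul, show n + (m + 1) = n + m + 1 by ring, (Tm.succ c), ih]

theorem Tm.pow_smul (c : Tm l A) (n : ℕ) : (l ^ n) • (c : ℕ → A) n = 0 := by
  have := (Tm.pow_smul_add c) n 0
  rwa [zero_add, (Tm.zero c)] at this

theorem Tm.ext {c d : Tm l A} (h : ∀ n, (c : ℕ → A) n = (d : ℕ → A) n) : c = d :=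
  Subtype.ext (funext h)

theorem Tm.add_apply (c d : Tm l A) (n : ℕ) : ((c + d : Tm l A) : ℕ → A) n =
    (c : ℕ → A) n + (d : ℕ → A) n := rfl

theorem Tm.sub_apply (c d : Tm l A) (n : ℕ) : ((c - d : Tm l A) : ℕ → A) n =
    (c : ℕ → A) n - (d : ℕ → A) n := rfl

theorem Tm.neg_apply (c : Tm l A) (n : ℕ) : ((-c : Tm l A) : ℕ → A) n = -(c : ℕ → A) n := rfl

theorem Tm.zero_apply (n : ℕ) : ((0 : Tm l A) : ℕ → A) n = 0 := rfl

theorem Tm.nsmul_apply (k : ℕ) (c : Tm l A) (n : ℕ) : ((k • c : Tm l A) : ℕ → A) n =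
    k • (c : ℕ → A) n := rfl

end

section module

variable {l : ℕ} [hl : Fact l.Prime] {A : Type*} [AddCommGroup A]

theorem appr_smul {n : ℕ} {x : A} (hx : (l ^ n) • x = 0) (a : ℤ_[l]) (k : ℕ)
    (hk : a - k ∈ Ideal.span {(l : ℤ_[l]) ^ n}) : (a.appr n) • x = k • x := by
  have h1 := PadicInt.zmod_congr_of_sub_mem_span n a (a.appr n) k (PadicInt.appr_spec n a) hk
  have h2 : ((l ^ n : ℕ) : ℤ) ∣ (k : ℤ) - (a.appr n : ℕ) :=
    Nat.modEq_iff_dvd.1 ((ZMod.natCast_eq_natCast_iff _ _ _).1 h1)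
  obtain ⟨d, hd⟩ := h2
  have h3 : (k : ℤ) • x - ((a.appr n : ℕ) : ℤ) • x = 0 := by
    rw [← sub_smul, hd, mul_comm, mul_smul, natCast_zsmul, hx, smul_zero]
  rw [natCast_zsmul, natCast_zsmul, sub_eq_zero] at h3
  exact h3.symm

noncomputable instance Tm.instSMul : SMul ℤ_[l] (Tm l A) where
  smul a c := ⟨fun n => (a.appr n) • (c : ℕ → A) n, by
    refine ⟨?_, fun n => ?_⟩
    · show (a.appr 0) • (c : ℕ → A) 0 = 0
      rw [(Tm.zero c), smul_zero]
    · show l • ((a.appr (n + 1)) • (c : ℕ → A) (n + 1)) = (a.appr n) • (c : ℕ → A) n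
      rw [smul_comm, (Tm.succ c)]
      refine (appr_smul ((Tm.pow_smul c) n) a (a.appr (n + 1)) ?_).symm
      have h1 := PadicInt.appr_spec (n + 1) a
      rw [Ideal.mem_span_singleton] at h1 ⊢
      exact (pow_dvd_pow _ n.le_succ).trans h1⟩

theorem Tm.smul_apply (a : ℤ_[l]) (c : Tm l A) (n : ℕ) :
    ((a • c : Tm l A) : ℕ → A) n = (a.appr n) • (c : ℕ → A) n := rfl

/-- the value of `a • c` at `n` from any approximation of `a` modulo `l^n` -/
theorem Tm.smul_apply' (a : ℤ_[l]) (c : Tm l A) (n k : ℕ)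
    (hk : a - k ∈ Ideal.span {(l : ℤ_[l]) ^ n}) :
    ((a • c : Tm l A) : ℕ → A) n = k • (c : ℕ → A) n :=
  appr_smul ((Tm.pow_smul c) n) a k hk

noncomputable instance Tm.instModule : Module ℤ_[l] (Tm l A) where
  one_smul c := Tm.ext fun n => by
    rw [Tm.smul_apply' 1 c n 1 (by simp), one_smul]
  mul_smul a b c := Tm.ext fun n => by
    rw [Tm.smul_apply' (a * b) c n (a.appr n * b.appr n) ?_, Tm.smul_apply, Tm.smul_apply, mul_smul]
    have h1 := PadicInt.appr_spec n a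
    have h2 := PadicInt.appr_spec n b
    push_cast
    have e : a * b - (a.appr n : ℤ_[l]) * (b.appr n : ℤ_[l]) =
        (a - a.appr n) * b + (a.appr n : ℤ_[l]) * (b - b.appr n) := by ring
    rw [e]
    exact Ideal.add_mem _ (Ideal.mul_mem_right _ _ h1) (Ideal.mul_mem_left _ _ h2)
  smul_zero a := Tm.ext fun n => by rw [Tm.smul_apply, Tm.zero_apply, smul_zero]
  smul_add a c d := Tm.ext fun n => by
    rw [Tm.smul_apply, Tm.add_apply, Tm.add_apply, Tm.smul_apply, Tm.smul_apply, smul_add]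
  add_smul a b c := Tm.ext fun n => by
    rw [Tm.smul_apply' (a + b) c n (a.appr n + b.appr n) ?_, Tm.add_apply, Tm.smul_apply,
      Tm.smul_apply, add_smul]
    have h1 := PadicInt.appr_spec n a
    have h2 := PadicInt.appr_spec n b
    push_cast
    have e : a + b - ((a.appr n : ℤ_[l]) + (b.appr n : ℤ_[l])) = (a - a.appr n) + (b - b.appr n) := by
      ring
    rw [e]
    exact Ideal.add_mem _ h1 h2
  zero_smul c := Tm.ext fun n => by
    rw [Tm.smul_apply' 0 c n 0 (by simp), zero_smul, Tm.zero_apply]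

theorem Tm.natCast_smul (k : ℕ) (c : Tm l A) : (k : ℤ_[l]) • c = k • c :=
  Nat.cast_smul_eq_nsmul ℤ_[l] k c

theorem Tm.pow_smul_apply (m : ℕ) (c : Tm l A) (n : ℕ) :
    ((((l : ℤ_[l]) ^ m) • c : Tm l A) : ℕ → A) n = (l ^ m) • (c : ℕ → A) n := by
  rw [← Nat.cast_pow, Tm.natCast_smul, Tm.nsmul_apply]

/-- the shift: `l^m` divides `c` exactly when `c m = 0` -/
theorem Tm.exists_pow_smul (m : ℕ) (c : Tm l A) (h : (c : ℕ → A) m = 0) :
    ∃ d : Tm l A, c = ((l : ℤ_[l]) ^ m) • d := by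
  refine ⟨⟨fun n => (c : ℕ → A) (n + m), ?_, fun n => ?_⟩, Tm.ext fun n => ?_⟩
  · simpa using h
  · show l • (c : ℕ → A) (n + 1 + m) = (c : ℕ → A) (n + m)
    rw [show n + 1 + m = n + m + 1 by ring, (Tm.succ c)]
  · rw [Tm.pow_smul_apply]
    exact ((Tm.pow_smul_add c) m n).symm

/-- the Tate module is separated -/
theorem Tm.separated (c : Tm l A) (h : ∀ n : ℕ, ∃ y, c = ((l : ℤ_[l]) ^ n) • y) : c = 0 :=
  Tm.ext fun n => by
    obtain ⟨y, hy⟩ := h n
    rw [hy, Tm.pow_smul_apply, (Tm.pow_smul y), Tm.zero_apply]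

theorem Tm.eq_zero_of_smul (c : Tm l A) (h : (l : ℤ_[l]) • c = 0) : c = 0 := by
  refine Tm.ext fun n => ?_
  have h1 : (((l : ℤ_[l]) • c : Tm l A) : ℕ → A) (n + 1) = ((0 : Tm l A) : ℕ → A) (n + 1) := by rw [h]
  rw [Tm.natCast_smul, Tm.nsmul_apply, (Tm.succ c), Tm.zero_apply] at h1
  rw [h1, Tm.zero_apply]

/-- the Tate module is torsion free -/
theorem Tm.torsion_free (a : ℤ_[l]) (c : Tm l A) (h : a • c = 0) : a = 0 ∨ c = 0 := by
  by_cases ha : a = 0
  · exact Or.inl ha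
  · right
    have hln : ∀ (n : ℕ) (q : Tm l A), ((l : ℤ_[l]) ^ n) • q = 0 → q = 0 := by
      intro n
      induction n with
      | zero => intro q hq; simpa using hq
      | succ n ih =>
        intro q hq
        rw [pow_succ, mul_smul] at hq
        exact (Tm.eq_zero_of_smul q) (ih _ hq)
    have h1 := PadicInt.unitCoeff_spec ha
    rw [h1, mul_smul] at h
    have h2 : ((l : ℤ_[l]) ^ a.valuation) • c = 0 := by
      have h3 := congrArg (fun x => ((PadicInt.unitCoeff ha)⁻¹ : ℤ_[l]ˣ) • x) h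
      simp only [smul_zero] at h3
      rw [Units.smul_def, ← mul_smul, Units.inv_mul, one_smul] at h3
      exact h3
    exact hln _ _ h2

/-- functoriality -/
noncomputable def Tm.map {B : Type*} [AddCommGroup B] (f : A →+ B) : Tm l A →ₗ[ℤ_[l]] Tm l B where
  toFun c := ⟨fun n => f ((c : ℕ → A) n), by
    show f ((c : ℕ → A) 0) = 0
    rw [(Tm.zero c), map_zero], fun n => by
    show l • f ((c : ℕ → A) (n + 1)) = f ((c : ℕ → A) n)
    rw [← map_nsmul, (Tm.succ c)]⟩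
  map_add' c d := Tm.ext fun n => map_add f _ _
  map_smul' a c := Tm.ext fun n => map_nsmul f _ _

theorem Tm.map_apply {B : Type*} [AddCommGroup B] (f : A →+ B) (c : Tm l A) (n : ℕ) :
    ((Tm.map f c : Tm l B) : ℕ → B) n = f ((c : ℕ → A) n) := rfl

end module

section action

variable {l : ℕ} {A : Type*} [AddCommGroup A] {G : Type*} [Monoid G] [DistribMulAction G A]

instance Tm.instAct : DistribMulAction G (Tm l A) where
  smul g c := ⟨fun n => g • (c : ℕ → A) n, by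
    show g • (c : ℕ → A) 0 = 0
    rw [(Tm.zero c), smul_zero], fun n => by
    show l • (g • (c : ℕ → A) (n + 1)) = g • (c : ℕ → A) n
    rw [smul_comm, (Tm.succ c)]⟩
  one_smul c := Tm.ext fun n => one_smul G _
  mul_smul g g' c := Tm.ext fun n => mul_smul g g' _
  smul_zero g := Tm.ext fun n => smul_zero g
  smul_add g c d := Tm.ext fun n => smul_add g _ _

theorem Tm.act_apply (g : G) (c : Tm l A) (n : ℕ) :
    ((g • c : Tm l A) : ℕ → A) n = g • (c : ℕ → A) n := rfl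

theorem Tm.act_smul [hl : Fact l.Prime] (g : G) (a : ℤ_[l]) (c : Tm l A) :
    g • (a • c) = a • (g • c) :=
  Tm.ext fun n => by
    rw [Tm.act_apply, Tm.smul_apply, Tm.smul_apply, Tm.act_apply, smul_comm]

end action

end MP89bZ
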