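import Mathlib
import Pool.Agent.Lib.MP_89bcae_ag.Z.WDefs

/-!
ROW G04 (100-200 lines). Local triviality: sums, `Z`, coboundaries.

PROOFS. Unfold: for every algebraic closure `M` of `K`, every `j : Ω → M` over `L`, there is `Q` with
`j (c g') = g Q - Q`. Sum: add the `Q`s. `Z`: apply `Z` (of `M`, with `ζ_M = j ζ_Ω`; `zJ_jacMap`,
`push ℓ f σ = jacMap ..`; `M` is algebraically closed so `cOver k F L M P` is good, which is
obtained from the hypothesis `H : GlobHyp` by `isGood_cOver`). Coboundaries: if `c n σ = σ A - A` take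
`Q = j A` (`j ∘ g' = g ∘ j`; functoriality of `jacMap`: `CommRing.Pic.mapRingHom_comp_mapRingHom`).
`push_comp` : functoriality of `push`.
-/

open Polynomial IsDedekindDomain

open scoped Classical

namespace Pool.Agent.Lib.MP_89bcae_ag.Wt.Lns

open Pool.Agent.Lib.MP_89bcae_ag.Sup

universe u

variable {k F L Ω : Type u} [Field k] [Field F] [Algebra k F] [Field L] [Algebra F[X] L]
  [Field Ω] [Algebra L Ω] [IsAlgClosure k F] [IsFractionRing F[X] L] [IsAlgClosure L Ω]
  {ℓ : ℕ} {P : k[X][X]} [hG : IsGood ℓ (cOver k F L Ω P)]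

omit hG in
/-- A torsion cocycle is at every level a coboundary. -/
lemma TTc.exists_coboundary {c : Coch ℓ k F L Ω P} (hc : TTc c) (n : ℕ) :
    ∃ (s : ℕ) (A : JacOver ℓ (curveL k F L P) Ω), ℓ ^ (n + s) • A = 0 ∧
      ∀ σ : Ω ≃ₐ[L] Ω, c n σ = push ℓ (curveL k F L P) (σ : Ω →ₐ[L] Ω) A - A := by
  obtain ⟨h1, s, h2⟩ := hc
  obtain ⟨A, hA, hcA⟩ := h2.2 (n + s)
  have h3 : ∀ (t j : ℕ) (σ : Ω ≃ₐ[L] Ω), ℓ ^ t • c (j + t) σ = c j σ := by
    intro t
    induction t with
    | zero =>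
      intro j σ
      rw [pow_zero, one_smul, add_zero]
    | succ t ih =>
      intro j σ
      rw [pow_succ, mul_smul, ← add_assoc, h1.smul, ih]
  refine ⟨s, A, hA, fun σ => ?_⟩
  rw [← h3 s n σ]
  exact hcA σ

end Pool.Agent.Lib.MP_89bcae_ag.Wt.Lns
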