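import Mathlib
import Pool.Agent.Lib.MP_89bcae_ag.Z.W08
import Pool.Agent.Lib.MP_89bcae_ag.Z.Ctx
import Pool.Agent.Lib.MP_89bcae_ag.Z.Tm
import Pool.Agent.Lib.MP_89bcae_ag.Zr.Sq

/-!
# The module of the locally trivial Tate classes
-/

attribute [local instance 100000] Pool.Agent.Lib.MP_89bcae_ag.Brt.tffFields
attribute [local instance 100000] Pool.Agent.Lib.MP_89bcae_ag.Wt.ifrNF Pool.Agent.Lib.MP_89bcae_ag.Wt.iddNF

open Polynomial IsDedekindDomain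

open scoped Classical

namespace Pool.Agent.Lib.MP_89bcae_ag.Zs

open Pool.Agent.Lib.MP_89bcae_ag.Wt Pool.Agent.Lib.MP_89bcae_ag.Wt.Lns

set_option linter.unusedSectionVars false

section

variable {k F L Ω : Type} [Field k] [Field F] [Algebra k F] [Field L] [Algebra F[X] L]
  [Field Ω] [Algebra L Ω] [IsAlgClosure k F] [IsFractionRing F[X] L] [IsAlgClosure L Ω]
  {ℓ : ℕ} {P : k[X][X]} {ζ : k} [hG : IsGood ℓ (cOver k F L Ω P)]

/-- the Galois group is transitive on the roots -/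
lemma h1_trans (hirr : Irreducible (curveL k F L P)) {θ θ' : Ω} (h : (cOver k F L Ω P).eval θ = 0)
    (h' : (cOver k F L Ω P).eval θ' = 0) : ∃ σ : Ω ≃ₐ[L] Ω, σ θ = θ' := by
  have hn : Normal L Ω := IsAlgClosure.normal L Ω
  have hm : ∀ θ : Ω, (cOver k F L Ω P).eval θ = 0 →
      minpoly L θ = curveL k F L P * C (curveL k F L P).leadingCoeff⁻¹ := by
    intro θ h
    exact (minpoly.eq_of_irreducible hirr (by
      rw [← eval_map_algebraMap]
      exact h)).symm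
  have h1 : IsConjRoot L θ' θ := by
    show minpoly L θ' = minpoly L θ
    rw [hm θ h, hm θ' h']
  obtain ⟨σ, hσ⟩ := isConjRoot_iff_exists_algEquiv.1 h1
  exact ⟨σ, hσ⟩

/-- No point of order `ℓ` over `L` is killed by `1 - Z`. -/
lemma h1_base (H : LHyp ℓ k F L P ζ) (hirr : Irreducible (curveL k F L P))
    (Q : JacOver ℓ (curveL k F L P) Ω)
    (hinv : ∀ σ : Ω ≃ₐ[L] Ω, symJ (toSym P (galA k F σ)) Q = Q)
    (hQ : zJ (zA F L Ω ζ) (zA_prim H).pow_eq_one Q = Q) : Q = 0 := by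
  have hp : ℓ.Prime := H.prime
  have : Fact ℓ.Prime := ⟨hp⟩
  have hz : IsPrimitiveRoot (zA F L Ω ζ) ℓ := zA_prim H
  obtain ⟨n, hn, hsum⟩ := rm14_exists hp hz Q hQ
  have hrm : Q = rm n := hn
  -- the exponents are invariant
  have hconst : ∀ θ θ' : Ω, (cOver k F L Ω P).eval θ = 0 → (cOver k F L Ω P).eval θ' = 0 →
      (n θ : ZMod ℓ) = n θ' := by
    intro θ θ' hθ hθ'
    obtain ⟨σ, hσ⟩ := h1_trans hirr hθ' hθ
    set s : Sym (cOver k F L Ω P) := toSym P (galA k F σ) with hs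
    have h1 : (rm n : JacOver ℓ (curveL k F L P) Ω) = rm fun θ => n (((s⁻¹ : Sym _) : Ω ≃+* Ω) θ) := by
      rw [← symJ_rm, ← hrm, hinv σ]
    have hroot : ∀ θ : Ω, (cOver k F L Ω P).eval (((s⁻¹ : Sym _) : Ω ≃+* Ω) θ) = 0 ↔
        (cOver k F L Ω P).eval θ = 0 := by
      intro θ
      rw [U01_eval_sym s⁻¹ _ s⁻¹.2]
      exact map_eq_zero_iff _ ((s⁻¹ : Sym _) : Ω ≃+* Ω).injective
    have h2 := rm14_unique (f := cOver k F L Ω P) hp hz n (fun θ => n (((s⁻¹ : Sym _) : Ω ≃+* Ω) θ)) h1 (by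
      symm
      refine Finset.sum_bij (fun θ _ => ((s⁻¹ : Sym _) : Ω ≃+* Ω) θ) ?_ ?_ ?_ ?_
      · intro θ h
        rw [rm14_mem hG] at h ⊢
        exact (hroot θ).2 h
      · intro a _ b _ h
        exact ((s⁻¹ : Sym _) : Ω ≃+* Ω).injective h
      · intro b hb
        refine ⟨((s : Sym _) : Ω ≃+* Ω) b, ?_, ?_⟩
        · rw [rm14_mem hG] at hb ⊢
          rw [← hroot]
          have : ((s⁻¹ : Sym _) : Ω ≃+* Ω) (((s : Sym _) : Ω ≃+* Ω) b) = b :=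
            ((s : Sym _) : Ω ≃+* Ω).symm_apply_apply b
          rw [this]
          exact hb
        · exact ((s : Sym _) : Ω ≃+* Ω).symm_apply_apply b
      · intro θ _
        rw [wt_sym])
    have h3 := h2 θ ((rm14_mem hG).2 hθ)
    rw [h3]
    congr 2
    rw [← hσ]
    exact σ.symm_apply_apply θ'
  obtain ⟨θ₀, hθ₀⟩ := exists_root ℓ (cOver k F L Ω P)
  have h4 : (((cOver k F L Ω P).natDegree : ℕ) : ZMod ℓ) * (n θ₀ : ZMod ℓ) = 0 := by
    rw [← rm14_sum_wt hG, ← hsum]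
    push_cast
    rw [Finset.sum_mul]
    refine Finset.sum_congr rfl fun θ hθ => ?_
    rw [hconst θ₀ θ hθ₀ ((rm14_mem hG).1 hθ)]
  have h5 : (n θ₀ : ZMod ℓ) = 0 := (mul_eq_zero.1 h4).resolve_left (rm14_deg_ne hp hG)
  rw [hrm, ← rm_zero]
  refine rm_congr _ _ fun θ hθ => ?_
  rw [sub_zero, ← ZMod.intCast_zmod_eq_zero_iff_dvd, hconst θ θ₀ hθ hθ₀, h5]

/-- No point of order a power of `ℓ` over `L`. -/
theorem h1_tors (H : LHyp ℓ k F L P ζ) (hirr : Irreducible (curveL k F L P))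
    (Q : JacOver ℓ (curveL k F L P) Ω)
    (hinv : ∀ σ : Ω ≃ₐ[L] Ω, symJ (toSym P (galA k F σ)) Q = Q) (n : ℕ) (hn : ℓ ^ n • Q = 0) :
    Q = 0 := by
  have hz : IsPrimitiveRoot (zA F L Ω ζ) ℓ := zA_prim H
  have key : ∀ (m : ℕ) (Q : JacOver ℓ (curveL k F L P) Ω),
      (∀ σ : Ω ≃ₐ[L] Ω, symJ (toSym P (galA k F σ)) Q = Q) →
      (fun x => x - zJ (zA F L Ω ζ) hz.pow_eq_one x)^[m] Q = 0 → Q = 0 := by
    intro m
    induction m with
    | zero => intro Q _ h; exact h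
    | succ m ih =>
      intro Q hinv h
      rw [Function.iterate_succ_apply] at h
      have h1 := ih (Q - zJ (zA F L Ω ζ) hz.pow_eq_one Q) (fun σ => by
        rw [map_sub, hinv, ← zJ_symJ _ _ _ (zA_fixed ζ (galA k F σ)), hinv]) h
      exact h1_base H hirr Q hinv (sub_eq_zero.1 h1).symm
  exact key ((ℓ - 1) * n) Q hinv (iterate_eq_zero_of_smul H.prime _ hz n Q hn)

/-- Torsion classes are trivial. -/
theorem h1_trc (H : LHyp ℓ k F L P ζ) (hirr : Irreducible (curveL k F L P))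
    {c : Coch ℓ k F L Ω P} (hc : TTc c) : Trc c := by
  refine ⟨hc.1, fun n => ?_⟩
  obtain ⟨s, A, hA, hcA⟩ := hc.exists_coboundary n
  have hA0 : ℓ ^ n • A = 0 := by
    refine h1_tors H hirr (ℓ ^ n • A) (fun σ => ?_) s (by
      rw [← mul_smul, ← pow_add, add_comm s n, hA])
    have h5 := tc_pow_smul hc.1 n σ
    rw [hcA σ, push_eq, nsmul_sub, sub_eq_zero] at h5
    rw [map_nsmul, h5]
  exact ⟨A, hA0, hcA⟩

/-! ### the Tate module of the cochains -/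

variable (k F L) in
/-- The stabilizer of the root `θ₀` in `Aut(Ω/k(t))`. -/
def Gst (θ₀ : Ω) : Subgroup (AutO k F L Ω) where
  carrier := {γ | (γ : Ω ≃+* Ω) θ₀ = θ₀}
  mul_mem' {a b} ha hb := by
    show ((a * b : AutO k F L Ω) : Ω ≃+* Ω) θ₀ = θ₀
    rw [Subgroup.coe_mul, RingAut.mul_apply, hb, ha]
  one_mem' := rfl
  inv_mem' {a} ha := by
    show ((a⁻¹ : AutO k F L Ω) : Ω ≃+* Ω) θ₀ = θ₀
    have h1 : (a : Ω ≃+* Ω) θ₀ = θ₀ := ha
    have h2 : ((a⁻¹ : AutO k F L Ω) : Ω ≃+* Ω) ((a : Ω ≃+* Ω) θ₀) = θ₀ :=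
      (a : Ω ≃+* Ω).symm_apply_apply θ₀
    rwa [h1] at h2

/-- The cochains of one level. -/
abbrev Co1 (ℓ : ℕ) (k F L Ω : Type) [Field k] [Field F] [Algebra k F] [Field L]
    [Algebra F[X] L] [Field Ω] [Algebra L Ω] (P : k[X][X]) : Type :=
  (Ω ≃ₐ[L] Ω) → JacOver ℓ (curveL k F L P) Ω

/-- The action of `Aut(Ω/k(t))` on the cochains of one level. -/
@[instance_reducible]
noncomputable def actA : DistribMulAction (AutO k F L Ω) (Co1 ℓ k F L Ω P) where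
  smul γ a := fun σ => symJ (toSym P γ) (a (conjG γ⁻¹ σ))
  one_smul a := by
    have h := act_one (k := k) (F := F) (P := P) (ℓ := ℓ) (L := L) (Ω := Ω) (fun _ => a)
    exact congrFun h 0
  mul_smul γ γ' a := by
    have h := act_mul (P := P) (ℓ := ℓ) γ γ' (fun _ => a)
    exact congrFun h 0
  smul_zero γ := by
    have h := act_zero (P := P) (ℓ := ℓ) γ
    exact congrFun h 0
  smul_add γ a b := by
    have h := act_add (P := P) (ℓ := ℓ) γ (fun _ => a) (fun _ => b)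
    exact congrFun h 0

attribute [local instance] actA

/-- The properties of the local condition. -/
structure LTprop (ζ : k) (LT : Co1 ℓ k F L Ω P → Prop) : Prop where
  add : ∀ {a b}, LT a → LT b → LT (a + b)
  neg : ∀ {a}, LT a → LT (-a)
  cob : ∀ Q, LT fun σ => symJ (toSym P (galA k F σ)) Q - Q
  zJ : ∀ (hζ : (zA F L Ω ζ) ^ ℓ = 1) {a}, LT a → LT fun σ => Wt.zJ (zA F L Ω ζ) hζ (a σ)
  act : ∀ (γ : AutO k F L Ω) {a}, LT a → LT fun σ => symJ (toSym P γ) (a (conjG γ⁻¹ σ))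

variable {LT : Co1 ℓ k F L Ω P → Prop}

lemma LTprop.zero (h : LTprop ζ LT) : LT 0 := by
  have h1 := h.cob 0
  have h2 : (fun σ : Ω ≃ₐ[L] Ω => symJ (toSym P (galA k F σ)) (0 : JacOver ℓ (curveL k F L P) Ω) - 0) = 0 := by
    funext σ
    rw [map_zero, sub_zero]
    rfl
  rwa [h2] at h1

lemma LTprop.sub (h : LTprop ζ LT) {a b : Co1 ℓ k F L Ω P} (ha : LT a) (hb : LT b) : LT (a - b) := by
  rw [sub_eq_add_neg]
  exact h.add ha (h.neg hb)

lemma LTprop.nsmul (h : LTprop ζ LT) {a : Co1 ℓ k F L Ω P} (ha : LT a) (n : ℕ) : LT (n • a) := by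
  induction n with
  | zero => rw [zero_smul]; exact h.zero
  | succ n ih => rw [succ_nsmul]; exact h.add ih ha

lemma LTprop.sum (h : LTprop ζ LT) {c : ℕ → Co1 ℓ k F L Ω P} (s : Finset ℕ)
    (hc : ∀ i ∈ s, LT (c i)) : LT (∑ i ∈ s, c i) := by
  induction s using Finset.induction_on with
  | empty => rw [Finset.sum_empty]; exact h.zero
  | insert a T ha ih =>
    rw [Finset.sum_insert ha]
    exact h.add (hc a (Finset.mem_insert_self a T))
      (ih fun i hi => hc i (Finset.mem_insert_of_mem hi))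

lemma LTprop.vJ (h : LTprop ζ LT) (hζ : (zA F L Ω ζ) ^ ℓ = 1) {a : Co1 ℓ k F L Ω P} (ha : LT a) :
    LT fun σ => Wt.vJ (zA F L Ω ζ) hζ (a σ) := by
  have hit : ∀ i : ℕ, LT fun σ => (Wt.zJ (zA F L Ω ζ) hζ)^[i] (a σ) := by
    intro i
    induction i with
    | zero => exact ha
    | succ i ih =>
      have h1 := h.zJ hζ ih
      have h2 : (fun σ => (Wt.zJ (zA F L Ω ζ) hζ)^[i + 1] (a σ)) =
          fun σ => Wt.zJ (zA F L Ω ζ) hζ ((Wt.zJ (zA F L Ω ζ) hζ)^[i] (a σ)) := by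
        funext σ
        rw [Function.iterate_succ_apply']
      rw [h2]
      exact h1
  have h1 : (fun σ => Wt.vJ (zA F L Ω ζ) hζ (a σ)) =
      ∑ j ∈ Finset.range ℓ, ∑ i ∈ Finset.range j, fun σ => (Wt.zJ (zA F L Ω ζ) hζ)^[i] (a σ) := by
    funext σ
    rw [Finset.sum_apply]
    unfold Wt.vJ
    refine Finset.sum_congr rfl fun j _ => ?_
    rw [Finset.sum_apply]
  rw [h1]
  exact h.sum _ fun j _ => h.sum _ fun i _ => hit i

/-- A Tate cocycle with the local property whose class is fixed by a subgroup of finite index of the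
stabilizer of `θ₀`. -/
def IsW (LT : Co1 ℓ k F L Ω P → Prop) (θ₀ : Ω) (c : Coch ℓ k F L Ω P) : Prop :=
  Wt.IsTateCocycle ℓ (curveL k F L P) c ∧ (∀ n, LT (c n)) ∧
    ∃ U : Subgroup (Gst k F L θ₀), U.FiniteIndex ∧
      ∀ γ ∈ U, Trc (act ((γ : Gst k F L θ₀) : AutO k F L Ω) c - c)

lemma tc_sub {c c' : Coch ℓ k F L Ω P} (hc : Wt.IsTateCocycle ℓ (curveL k F L P) c)
    (hc' : Wt.IsTateCocycle ℓ (curveL k F L P) c') : Wt.IsTateCocycle ℓ (curveL k F L P) (c - c') := by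
  rw [sub_eq_add_neg]
  exact tc_add hc (tc_neg hc')

lemma act_neg' (γ : AutO k F L Ω) (c : Coch ℓ k F L Ω P) : act γ (-c) = -act γ c := by
  have h1 := act_sub γ (0 : Coch ℓ k F L Ω P) c
  rwa [act_zero, zero_sub, zero_sub] at h1

lemma Trc.lt (hLT : LTprop ζ LT) {c : Coch ℓ k F L Ω P} (hc : Trc c) (n : ℕ) : LT (c n) := by
  obtain ⟨A, _, hA⟩ := hc.2 n
  have h : c n = fun σ => symJ (toSym P (galA k F σ)) A - A := by
    funext σ
    rw [hA σ, push_eq]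
  rw [h]
  exact hLT.cob A

lemma IsW.of_trc (hLT : LTprop ζ LT) (θ₀ : Ω) {c : Coch ℓ k F L Ω P} (hc : Trc c) :
    IsW LT θ₀ c :=
  ⟨hc.1, fun n => Trc.lt hLT hc n, ⊤, inferInstance, fun _ _ => (hc.act _).sub hc⟩

lemma IsW.add (hLT : LTprop ζ LT) {θ₀ : Ω} {c c' : Coch ℓ k F L Ω P} (hc : IsW LT θ₀ c)
    (hc' : IsW LT θ₀ c') : IsW LT θ₀ (c + c') := by
  obtain ⟨h1, h2, U, hU, h3⟩ := hc
  obtain ⟨h1', h2', U', hU', h3'⟩ := hc'
  refine ⟨tc_add h1 h1', fun n => hLT.add (h2 n) (h2' n), U ⊓ U', inferInstance, fun γ hγ => ?_⟩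
  have e : act ((γ : Gst k F L θ₀) : AutO k F L Ω) (c + c') - (c + c') =
      (act ((γ : Gst k F L θ₀) : AutO k F L Ω) c - c) +
        (act ((γ : Gst k F L θ₀) : AutO k F L Ω) c' - c') := by
    rw [act_add]
    abel
  rw [e]
  exact (h3 γ hγ.1).add (h3' γ hγ.2)

lemma IsW.neg (hLT : LTprop ζ LT) {θ₀ : Ω} {c : Coch ℓ k F L Ω P} (hc : IsW LT θ₀ c) :
    IsW LT θ₀ (-c) := by
  obtain ⟨h1, h2, U, hU, h3⟩ := hc
  refine ⟨tc_neg h1, fun n => hLT.neg (h2 n), U, hU, fun γ hγ => ?_⟩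
  have e : act ((γ : Gst k F L θ₀) : AutO k F L Ω) (-c) - -c =
      -(act ((γ : Gst k F L θ₀) : AutO k F L Ω) c - c) := by
    rw [act_neg']
    abel
  rw [e]
  exact (h3 γ hγ).neg

lemma IsW.sub (hLT : LTprop ζ LT) {θ₀ : Ω} {c c' : Coch ℓ k F L Ω P} (hc : IsW LT θ₀ c)
    (hc' : IsW LT θ₀ c') : IsW LT θ₀ (c - c') := by
  rw [sub_eq_add_neg]
  exact hc.add hLT (hc'.neg hLT)

lemma IsW.zC (hLT : LTprop ζ LT) {θ₀ : Ω} {c : Coch ℓ k F L Ω P} (hc : IsW LT θ₀ c)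
    (hζ : (zA F L Ω ζ) ^ ℓ = 1) : IsW LT θ₀ (Lns.zC ζ hζ c) := by
  obtain ⟨h1, h2, U, hU, h3⟩ := hc
  refine ⟨tc_zC h1 ζ hζ, fun n => hLT.zJ hζ (h2 n), U, hU, fun γ hγ => ?_⟩
  rw [act_zC, ← map_sub]
  exact (h3 γ hγ).zC ζ hζ

lemma IsW.act (hLT : LTprop ζ LT) {θ₀ : Ω} {c : Coch ℓ k F L Ω P} (hc : IsW LT θ₀ c)
    (g : Gst k F L θ₀) : IsW LT θ₀ (Lns.act ((g : Gst k F L θ₀) : AutO k F L Ω) c) := by
  obtain ⟨h1, h2, U, hU, h3⟩ := hc
  refine ⟨tc_act h1 _, fun n => hLT.act _ (h2 n),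
    U.comap (MulAut.conj g⁻¹).toMonoidHom, ?_, fun γ hγ => ?_⟩
  · refine ⟨?_⟩
    rw [Subgroup.index_comap_of_surjective U (MulAut.conj g⁻¹).surjective]
    exact hU.index_ne_zero
  · have hu : g⁻¹ * γ * g ∈ U := by
      have := hγ
      rw [Subgroup.mem_comap] at this
      simpa using this
    have e : Lns.act ((γ : Gst k F L θ₀) : AutO k F L Ω) (Lns.act (g : AutO k F L Ω) c) -
        Lns.act (g : AutO k F L Ω) c =
        Lns.act (g : AutO k F L Ω) (Lns.act ((g⁻¹ * γ * g : Gst k F L θ₀) : AutO k F L Ω) c - c) := by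
      rw [act_sub, ← act_mul, ← act_mul]
      congr 2
      rw [← Subgroup.coe_mul, ← Subgroup.coe_mul]
      congr 1
      group
    rw [e]
    exact (h3 _ hu).act _

/-! ### division by `1 - Z` -/

lemma h1_locConst (Q : JacOver ℓ (curveL k F L P) Ω) :
    IsLocallyConstant fun σ : Ω ≃ₐ[L] Ω => symJ (toSym P (galA k F σ)) Q := by
  obtain ⟨E, rfl⟩ := cl_surjective Q
  rw [IsLocallyConstant.iff_exists_open]
  intro σ₀
  let S : Set Ω := (fun P : Pt ℓ (cOver k F L Ω P) => P.x) '' (E.support : Set _) ∪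
    (fun P : Pt ℓ (cOver k F L Ω P) => P.y) '' (E.support : Set _)
  have hSf : S.Finite := (E.support.finite_toSet.image _).union (E.support.finite_toSet.image _)
  let K : IntermediateField L Ω := IntermediateField.adjoin L S
  have halg : Algebra.IsAlgebraic L Ω := IsAlgClosure.isAlgebraic
  have : FiniteDimensional L K :=
    IntermediateField.finiteDimensional_adjoin fun x _ => Algebra.IsIntegral.isIntegral x
  have hopen : IsOpen (K.fixingSubgroup : Set (Ω ≃ₐ[L] Ω)) := K.fixingSubgroup_isOpen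
  refine ⟨(fun σ => σ₀⁻¹ * σ) ⁻¹' (K.fixingSubgroup : Set (Ω ≃ₐ[L] Ω)),
    hopen.preimage (continuous_const_mul σ₀⁻¹), ?_, ?_⟩
  · show σ₀⁻¹ * σ₀ ∈ K.fixingSubgroup
    rw [inv_mul_cancel]
    exact one_mem _
  · intro σ hσ
    have hσ' : σ₀⁻¹ * σ ∈ K.fixingSubgroup := hσ
    have hS : ∀ x ∈ S, σ x = σ₀ x := by
      intro x hx
      have h1 := (IntermediateField.mem_fixingSubgroup_iff K _).mp hσ' x
        (IntermediateField.subset_adjoin L S hx)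
      have h2 : σ₀ ((σ₀⁻¹ * σ) x) = σ x := σ₀.apply_symm_apply (σ x)
      rw [← h2, h1]
    show symJ (toSym P (galA k F σ)) (cl E) = symJ (toSym P (galA k F σ₀)) (cl E)
    rw [symJ_cl, symJ_cl]
    congr 1
    refine Finsupp.mapDomain_congr fun P hP => ?_
    refine Pt.ext ?_ ?_
    · exact hS P.x (Or.inl ⟨P, hP, rfl⟩)
    · exact hS P.y (Or.inr ⟨P, hP, rfl⟩)

/-- A class in the image of the ramification points is divisible by `1 - Z`. -/
theorem h1_div (H : LHyp ℓ k F L P ζ) (hirr : Irreducible (curveL k F L P)) (hLT : LTprop ζ LT)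
    {θ₀ : Ω} (hζ : (zA F L Ω ζ) ^ ℓ = 1) {c : Coch ℓ k F L Ω P} (hc : IsW LT θ₀ c) (q : Ω → ℤ)
    (hq : ∀ σ : Ω ≃ₐ[L] Ω, vJ (zA F L Ω ζ) hζ (c 1 σ) =
      symJ (toSym P (galA k F σ)) (rm q) - rm q) :
    ∃ y : Coch ℓ k F L Ω P, IsW LT θ₀ y ∧ Trc (c - (y - Lns.zC ζ hζ y)) := by
  have Hζ : IsPrimitiveRoot (zA F L Ω ζ) ℓ := zA_prim H
  have hfix' : ∀ σ : Ω ≃ₐ[L] Ω, ((toSym P (galA k F σ) :
      Sym (cOver k F L Ω P)) : Ω ≃+* Ω) (zA F L Ω ζ) = zA F L Ω ζ :=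
    fun σ => zA_fixed ζ (galA k F σ)
  -- the divisions
  choose dv hdv using fun Q : JacOver ℓ (curveL k F L P) Ω =>
    exists_smul_eq H.prime (zA F L Ω ζ) Hζ Q
  set B1 : JacOver ℓ (curveL k F L P) Ω := dv (rm q) with hB1
  set B : JacOver ℓ (curveL k F L P) Ω := B1 - zJ (zA F L Ω ζ) hζ B1 with hB
  have hvB : vJ (zA F L Ω ζ) hζ B = rm q := by
    rw [hB, vJ_sub, vJ_zJ]
    exact (vJ_sub_zJ (zA F L Ω ζ) Hζ B1).trans (hdv _)
  have hlB : ℓ • B = 0 := by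
    rw [← vJ_sub_zJ (zA F L Ω ζ) Hζ B, hvB, zJ_rm, sub_self]
  set Q : ℕ → JacOver ℓ (curveL k F L P) Ω := fun n => Nat.rec 0 (fun m _ => dv^[m] B) n with hQ
  have hQ0 : Q 0 = 0 := rfl
  have hQ1 : Q 1 = B := rfl
  have hQs : ∀ n, ℓ • Q (n + 1) = Q n := by
    intro n
    cases n with
    | zero => rw [hQ0]; exact hlB
    | succ n =>
      show ℓ • dv^[n + 1] B = dv^[n] B
      rw [Function.iterate_succ_apply']
      exact hdv _
  have hQn : ∀ n, ℓ ^ n • Q n = 0 := by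
    intro n
    induction n with
    | zero => rw [pow_zero, one_smul, hQ0]
    | succ n ih => rw [pow_succ, mul_smul, hQs, ih]
  -- the coboundary
  set d : Coch ℓ k F L Ω P := fun n σ => symJ (toSym P (galA k F σ)) (Q n) - Q n with hd
  have hdTC : Wt.IsTateCocycle ℓ (curveL k F L P) d := by
    refine ⟨fun σ => ?_, fun n σ => ?_, fun n σ τ => ?_, fun n => ?_⟩
    · show symJ (toSym P (galA k F σ)) (Q 0) - Q 0 = 0
      rw [hQ0, map_zero, sub_zero]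
    · show ℓ • (symJ (toSym P (galA k F σ)) (Q (n + 1)) - Q (n + 1)) =
        symJ (toSym P (galA k F σ)) (Q n) - Q n
      rw [smul_sub, ← map_nsmul, hQs]
    · show symJ (toSym P (galA k F (σ * τ))) (Q n) - Q n = (symJ (toSym P (galA k F σ)) (Q n) - Q n) +
        push ℓ (curveL k F L P) (σ : Ω →ₐ[L] Ω) (symJ (toSym P (galA k F τ)) (Q n) - Q n)
      rw [push_eq, map_mul, map_mul, symJ_mul, map_sub]
      abel
    · exact (h1_locConst (Q n)).comp fun a => a - Q n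
  have hdTrc : Trc d := ⟨hdTC, fun n => ⟨Q n, hQn n, fun σ => by rw [push_eq]⟩⟩
  set c' : Coch ℓ k F L Ω P := c - d with hc'
  have hW' : IsW LT θ₀ c' := hc.sub hLT (IsW.of_trc hLT θ₀ hdTrc)
  have hv1 : ∀ σ : Ω ≃ₐ[L] Ω, vJ (zA F L Ω ζ) hζ (c' 1 σ) = 0 := by
    intro σ
    show vJ (zA F L Ω ζ) hζ (c 1 σ - (symJ (toSym P (galA k F σ)) (Q 1) - Q 1)) = 0
    rw [vJ_sub, vJ_sub, vJ_symJ _ _ _ (hfix' σ), hQ1, hvB, hq σ, sub_self]
  set y : Coch ℓ k F L Ω P := fun n σ => vJ (zA F L Ω ζ) hζ (c' (n + 1) σ) with hy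
  have hyTC : Wt.IsTateCocycle ℓ (curveL k F L P) y := by
    refine ⟨fun σ => hv1 σ, fun n σ => ?_, fun n σ τ => ?_, fun n => ?_⟩
    · show ℓ • vJ (zA F L Ω ζ) hζ (c' (n + 1 + 1) σ) = vJ (zA F L Ω ζ) hζ (c' (n + 1) σ)
      rw [← vJ_smul, hW'.1.smul]
    · show vJ (zA F L Ω ζ) hζ (c' (n + 1) (σ * τ)) = vJ (zA F L Ω ζ) hζ (c' (n + 1) σ) +
        push ℓ (curveL k F L P) (σ : Ω →ₐ[L] Ω) (vJ (zA F L Ω ζ) hζ (c' (n + 1) τ))
      rw [hW'.1.cocycle, vJ_add, push_eq, push_eq, vJ_symJ _ _ _ (hfix' σ)]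
    · exact (hW'.1.locallyConstant (n + 1)).comp (fun Q => vJ (zA F L Ω ζ) hζ Q)
  have hπy : y - Lns.zC ζ hζ y = c' := by
    funext n σ
    show vJ (zA F L Ω ζ) hζ (c' (n + 1) σ) - zJ (zA F L Ω ζ) hζ (vJ (zA F L Ω ζ) hζ (c' (n + 1) σ)) =
      c' n σ
    exact (vJ_sub_zJ (zA F L Ω ζ) Hζ (c' (n + 1) σ)).trans (hW'.1.smul n σ)
  refine ⟨y, ⟨hyTC, fun n => hLT.vJ hζ (hW'.2.1 (n + 1)), ?_⟩, ?_⟩
  · obtain ⟨U, hU, hUc⟩ := hW'.2.2
    refine ⟨U, hU, fun γ hγ => ?_⟩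
    have hx : Wt.IsTateCocycle ℓ (curveL k F L P)
        (Lns.act ((γ : Gst k F L θ₀) : AutO k F L Ω) y - y) := tc_sub (tc_act hyTC _) hyTC
    refine h1_trc H hirr (TTc.of_sub_zC H hζ hx ?_)
    have h1 : Lns.act ((γ : Gst k F L θ₀) : AutO k F L Ω) y - y -
        Lns.zC ζ hζ (Lns.act ((γ : Gst k F L θ₀) : AutO k F L Ω) y - y) =
        Lns.act ((γ : Gst k F L θ₀) : AutO k F L Ω) c' - c' := by
      rw [← hπy, act_sub, act_zC, map_sub]
      abel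
    rw [h1]
    exact (hUc γ hγ).tt
  · rw [hπy, hc', sub_sub_cancel]
    exact hdTrc

/-! ### the entry -/

variable (L) in
/-- The elements of the stabilizer of `θ₀` whose restriction fixes `k'`. -/
noncomputable def Ufix (θ₀ : Ω) (k' : IntermediateField k F) : Subgroup (Gst k F L θ₀) :=
  (k'.fixingSubgroup.comap (resF : AutO k F L Ω →* (F ≃ₐ[k] F))).comap (Gst k F L θ₀).subtype

lemma Ufix_finiteIndex (θ₀ : Ω) (k' : IntermediateField k F) [FiniteDimensional k k'] :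
    (Ufix L θ₀ k').FiniteIndex := by
  have h0 : k'.fixingSubgroup.FiniteIndex := by
    have hfin : Finite (k' →ₐ[k] F) := inferInstance
    have h1 : Finite ((F ≃ₐ[k] F) ⧸ k'.fixingSubgroup) := by
      refine Finite.of_injective (β := k' →ₐ[k] F)
        (fun a => ((a.out : F ≃ₐ[k] F) : F →ₐ[k] F).comp k'.val) ?_
      intro a b hab
      rw [← QuotientGroup.out_eq' a, ← QuotientGroup.out_eq' b, QuotientGroup.eq]
      rw [IntermediateField.mem_fixingSubgroup_iff]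
      intro x hx
      have h2 := DFunLike.congr_fun hab ⟨x, hx⟩
      have h3 : (a.out : F ≃ₐ[k] F) x = (b.out : F ≃ₐ[k] F) x := h2
      show (a.out : F ≃ₐ[k] F)⁻¹ ((b.out : F ≃ₐ[k] F) x) = x
      rw [← h3]
      exact (a.out : F ≃ₐ[k] F).symm_apply_apply x
    exact Subgroup.finiteIndex_of_finite_quotient
  have h1 : (k'.fixingSubgroup.comap (resF : AutO k F L Ω →* (F ≃ₐ[k] F))).FiniteIndex := by
    refine ⟨?_⟩
    rw [Subgroup.index_comap_of_surjective _ resF_surjective]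
    exact h0.index_ne_zero
  exact Subgroup.instFiniteIndex_subgroupOf _ _

lemma mem_autK_of_Ufix {θ₀ : Ω} {k' : IntermediateField k F} {γ : Gst k F L θ₀}
    (hγ : γ ∈ Ufix L θ₀ k') : (((γ : Gst k F L θ₀) : AutO k F L Ω) : Ω ≃+* Ω) ∈ Bra.AutK k F L Ω k' := by
  intro p
  have h1 : ∀ x ∈ k', (resF (γ : AutO k F L Ω) : F ≃ₐ[k] F) x = x := by
    have h2 : (resF (γ : AutO k F L Ω) : F ≃ₐ[k] F) ∈ k'.fixingSubgroup := hγ
    exact fun x hx => (IntermediateField.mem_fixingSubgroup_iff _ _).1 h2 x hx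
  have h3 := resF_spec (γ : AutO k F L Ω) (p.map (algebraMap k' F))
  have h4 : (p.map (algebraMap k' F)).map (resF (γ : AutO k F L Ω) : F →+* F) =
      p.map (algebraMap k' F) := by
    ext n
    rw [coeff_map, coeff_map]
    exact h1 _ (p.coeff n).2
  rw [h4] at h3
  exact h3

/-- A class fixed by the automorphisms over `k'(t)`. -/
theorem isW_of_fixed (H : LHyp ℓ k F L P ζ) (hirr : Irreducible (curveL k F L P))
    (θ₀ : Ω) {c : Coch ℓ k F L Ω P} (hc : Wt.IsTateCocycle ℓ (curveL k F L P) c)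
    (hcLT : ∀ n, LT (c n)) (k' : IntermediateField k F) [FiniteDimensional k k']
    (hfix : ∀ (γ : Ω ≃+* Ω) hγ, γ ∈ Bra.AutK k F L Ω k' → Wt.IsFixedBy ℓ (curveL k F L P) c γ hγ) :
    IsW LT θ₀ c :=
  ⟨hc, hcLT, Ufix L θ₀ k', Ufix_finiteIndex θ₀ k', fun _ hγ =>
    h1_trc H hirr (TTc.of_isFixedBy H hc _ (hfix _ _ (mem_autK_of_Ufix hγ)))⟩

/-! ### the modules -/

/-- A Tate cocycle as an element of the Tate module. -/
def toTm (c : Coch ℓ k F L Ω P) (hc : Wt.IsTateCocycle ℓ (curveL k F L P) c) :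
    MP89bZ.Tm ℓ (Co1 ℓ k F L Ω P) :=
  ⟨c, funext hc.zero, fun n => funext (hc.smul n)⟩

variable [hl : Fact ℓ.Prime]

lemma tc_zl {c : MP89bZ.Tm ℓ (Co1 ℓ k F L Ω P)}
    (hc : Wt.IsTateCocycle ℓ (curveL k F L P) (c : Coch ℓ k F L Ω P)) (a : ℤ_[ℓ]) :
    Wt.IsTateCocycle ℓ (curveL k F L P) ((a • c : MP89bZ.Tm ℓ (Co1 ℓ k F L Ω P)) : Coch ℓ k F L Ω P) := by
  refine ⟨fun σ => ?_, fun n σ => ?_, fun n σ τ => ?_, fun n => ?_⟩
  · exact congrFun (MP89bZ.Tm.zero (a • c)) σ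
  · exact congrFun (MP89bZ.Tm.succ (a • c) n) σ
  · rw [MP89bZ.Tm.smul_apply]
    show (a.appr n) • (c : Coch ℓ k F L Ω P) n (σ * τ) = (a.appr n) • (c : Coch ℓ k F L Ω P) n σ +
      push ℓ (curveL k F L P) (σ : Ω →ₐ[L] Ω) ((a.appr n) • (c : Coch ℓ k F L Ω P) n τ)
    rw [hc.cocycle, smul_add, map_nsmul]
  · rw [MP89bZ.Tm.smul_apply]
    exact (hc.locallyConstant n).comp fun x => (a.appr n) • x

lemma trc_zl {c : MP89bZ.Tm ℓ (Co1 ℓ k F L Ω P)} (hc : Trc (c : Coch ℓ k F L Ω P)) (a : ℤ_[ℓ]) :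
    Trc ((a • c : MP89bZ.Tm ℓ (Co1 ℓ k F L Ω P)) : Coch ℓ k F L Ω P) := by
  refine ⟨tc_zl hc.1 a, fun n => ?_⟩
  obtain ⟨A, hA, hcA⟩ := hc.2 n
  refine ⟨(a.appr n) • A, by rw [smul_comm, hA, smul_zero], fun σ => ?_⟩
  rw [MP89bZ.Tm.smul_apply]
  show (a.appr n) • (c : Coch ℓ k F L Ω P) n σ = _
  rw [hcA σ, map_nsmul, smul_sub]

variable (ℓ k F L Ω P) in
/-- The trivial classes. -/
def TTm : Submodule ℤ_[ℓ] (MP89bZ.Tm ℓ (Co1 ℓ k F L Ω P)) where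
  carrier := {c | Trc (c : Coch ℓ k F L Ω P)}
  zero_mem' := Trc.zero
  add_mem' := fun h h' => Trc.add h h'
  smul_mem' := fun a _ h => trc_zl h a

/-- The locally trivial classes fixed by a subgroup of finite index. -/
def WWm (hLT : LTprop ζ LT) (θ₀ : Ω) : Submodule ℤ_[ℓ] (MP89bZ.Tm ℓ (Co1 ℓ k F L Ω P)) where
  carrier := {c | IsW LT θ₀ (c : Coch ℓ k F L Ω P)}
  zero_mem' := IsW.of_trc hLT θ₀ Trc.zero
  add_mem' := fun h h' => IsW.add hLT h h'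
  smul_mem' := by
    rintro a c ⟨h1, h2, U, hU, h3⟩
    refine ⟨tc_zl h1 a, fun n => ?_, U, hU, fun γ hγ => ?_⟩
    · rw [MP89bZ.Tm.smul_apply]
      exact hLT.nsmul (h2 n) _
    · have e : act ((γ : Gst k F L θ₀) : AutO k F L Ω)
          ((a • c : MP89bZ.Tm ℓ (Co1 ℓ k F L Ω P)) : Coch ℓ k F L Ω P) -
          ((a • c : MP89bZ.Tm ℓ (Co1 ℓ k F L Ω P)) : Coch ℓ k F L Ω P) =
          ((a • (((γ : Gst k F L θ₀) : AutO k F L Ω) • c - c) : MP89bZ.Tm ℓ (Co1 ℓ k F L Ω P)) :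
            Coch ℓ k F L Ω P) := by
        rw [smul_sub, ← MP89bZ.Tm.act_smul]
        rfl
      rw [e]
      exact trc_zl (h3 γ hγ) a

/-- `Z` on the cochains of one level. -/
noncomputable def zA1 (ζ : k) (hζ : (zA F L Ω ζ) ^ ℓ = 1) :
    Co1 ℓ k F L Ω P →+ Co1 ℓ k F L Ω P where
  toFun a := fun σ => zJ (zA F L Ω ζ) hζ (a σ)
  map_zero' := funext fun _ => map_zero _
  map_add' _ _ := funext fun _ => map_add _ _ _

/-- **The classes fixed by the automorphisms over a finite extension are trivial**, if the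
exponents `E` of the classes have values in a module without stable subgroups of the type that
occurs. -/
theorem ntg_of (H : LHyp ℓ k F L P ζ) (hirr : Irreducible (curveL k F L P)) (hLT : LTprop ζ LT)
    (θ₀ : Ω) (hζ : (zA F L Ω ζ) ^ ℓ = 1)
    {M : Type*} [AddCommGroup M] [DistribMulAction (Gst k F L θ₀) M]
    (E : Coch ℓ k F L Ω P → M → Prop)
    (hE : ∀ c, IsW LT θ₀ c → ∃ m, E c m)
    (hadd : ∀ c c', IsW LT θ₀ c → IsW LT θ₀ c' → ∀ m m', E c m → E c' m' → E (c + c') (m + m'))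
    (hET : ∀ c, Trc c → ∀ m, E c m → m = 0)
    (hEZ : ∀ c, IsW LT θ₀ c → ∀ m, E c m → E (Lns.zC ζ hζ c) m)
    (hker : ∀ c, IsW LT θ₀ c → E c 0 → ∃ q : Ω → ℤ, ∀ σ : Ω ≃ₐ[L] Ω,
      vJ (zA F L Ω ζ) hζ (c 1 σ) = symJ (toSym P (galA k F σ)) (rm q) - rm q)
    (hGE : ∀ (g : Gst k F L θ₀) c, IsW LT θ₀ c → ∀ m, E c m → E (act (g : AutO k F L Ω) c) (g • m))
    (hcrit : ∀ N : AddSubgroup M, N ≠ ⊥ → (∀ m ∈ N, ∃ c, IsW LT θ₀ c ∧ E c m) →
      (∀ g : Gst k F L θ₀, ∀ m ∈ N, g • m ∈ N) → ∀ r : ℕ, Nat.card N = ℓ ^ r →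
        r + padicValNat ℓ r.factorial <
          padicValNat ℓ (Nat.card (Set.range fun (g : Gst k F L θ₀) (m : N) => g • (m : M))))
    (k' : IntermediateField k F) [FiniteDimensional k k'] :
    Brt.NTg ℓ 1 (curveL k F L P) LT (Bra.AutK k F L Ω k') := by
  intro c hc hcLT hfix
  have hcW : IsW LT θ₀ c := isW_of_fixed H hirr θ₀ hc hcLT k' hfix
  suffices h : Trc c by
    intro n
    obtain ⟨A, hA, hA2⟩ := h.2 n
    exact ⟨A, hA, fun g => (one_smul ℕ _).trans (hA2 g)⟩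
  by_contra hcT
  have hz : IsPrimitiveRoot (zA F L Ω ζ) ℓ := zA_prim H
  let Z : MP89bZ.Tm ℓ (Co1 ℓ k F L Ω P) →ₗ[ℤ_[ℓ]] MP89bZ.Tm ℓ (Co1 ℓ k F L Ω P) :=
    MP89bZ.Tm.map (zA1 ζ hζ)
  have hZc : ∀ c : MP89bZ.Tm ℓ (Co1 ℓ k F L Ω P), ((Z c : MP89bZ.Tm ℓ (Co1 ℓ k F L Ω P)) :
      Coch ℓ k F L Ω P) = Lns.zC ζ hζ (c : Coch ℓ k F L Ω P) := fun c => rfl
  have hZi : ∀ (i : ℕ) (c : MP89bZ.Tm ℓ (Co1 ℓ k F L Ω P)),
      (((Z ^ i) c : MP89bZ.Tm ℓ (Co1 ℓ k F L Ω P)) : Coch ℓ k F L Ω P) =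
        (Lns.zC ζ hζ)^[i] (c : Coch ℓ k F L Ω P) := by
    intro i
    induction i with
    | zero => intro c; rfl
    | succ i ih =>
      intro c
      rw [pow_succ, Module.End.mul_apply, ih, hZc, Function.iterate_succ_apply]
  obtain ⟨N, hN0, hNE, hNst, r, hr, hle⟩ := MP89bZ.lemma_Z_sub (l := ℓ)
    (C := MP89bZ.Tm ℓ (Co1 ℓ k F L Ω P)) (G := Gst k F L θ₀) (M := M)
    (fun g a c => MP89bZ.Tm.act_smul g a c)
    (WWm hLT θ₀) (TTm k F L Ω ℓ P) Z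
    (fun c hc => by
      show IsW LT θ₀ _
      rw [hZc]
      exact IsW.zC hLT hc hζ)
    (fun c hc => by
      show Trc _
      rw [hZc]
      exact Trc.zC hc ζ hζ)
    (fun g c hc => IsW.act hLT hc g)
    (fun g c hc => Trc.act hc (g : AutO k F L Ω))
    (fun c hc => by
      have h1 : ∑ i ∈ Finset.range ℓ, (Z ^ i) c = 0 := by
        refine Subtype.ext ?_
        rw [AddSubgroup.val_finsetSum]
        simp only [hZi]
        exact sum_zC_mem ζ hz (c : Coch ℓ k F L Ω P)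
      rw [h1]
      exact (TTm k F L Ω ℓ P).zero_mem)
    (fun g c hc => by
      have h1 : Z (g • c) - g • Z c = 0 := by
        rw [sub_eq_zero]
        refine Subtype.ext ?_
        rw [hZc]
        exact (act_zC (g : AutO k F L Ω) ζ hζ (c : Coch ℓ k F L Ω P)).symm
      rw [h1]
      exact (TTm k F L Ω ℓ P).zero_mem)
    (fun c hc h => by
      have hc' : IsW LT θ₀ (c : Coch ℓ k F L Ω P) := hc
      have h' : Trc ((c : Coch ℓ k F L Ω P) - Lns.zC ζ hζ (c : Coch ℓ k F L Ω P)) := h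
      exact h1_trc H hirr (TTc.of_sub_zC H hζ hc'.1 h'.tt))
    (fun c hc h => by
      have hc' : IsW LT θ₀ (c : Coch ℓ k F L Ω P) := hc
      refine ⟨hc'.1, fun n => ?_⟩
      obtain ⟨y, hy, hyT⟩ := h n
      obtain ⟨A, hA, hA2⟩ := hyT.2 n
      refine ⟨A, hA, fun σ => ?_⟩
      rw [← hA2 σ]
      show _ = (c : Coch ℓ k F L Ω P) n σ -
        ((((ℓ : ℤ_[ℓ]) ^ n) • y : MP89bZ.Tm ℓ (Co1 ℓ k F L Ω P)) : Coch ℓ k F L Ω P) n σ
      rw [MP89bZ.Tm.pow_smul_apply, MP89bZ.Tm.pow_smul, Pi.zero_apply, sub_zero])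
    (fun c hc => by
      obtain ⟨U, hU, h3⟩ := hc.2.2
      exact ⟨U, hU, h3⟩)
    (fun c m => E (c : Coch ℓ k F L Ω P) m)
    (fun c hc => hE _ hc)
    (fun c hc c' hc' m m' h h' => hadd _ _ hc hc' m m' h h')
    (fun c hc m h => hET _ hc m h)
    (fun c hc m h => by
      rw [hZc]
      exact hEZ _ hc m h)
    (fun c hc h => by
      obtain ⟨q, hq⟩ := hker _ hc h
      obtain ⟨y, hy, hyT⟩ := h1_div H hirr hLT hζ hc q hq
      exact ⟨toTm y hy.1, hy, hyT⟩)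
    (fun g c hc m h => hGE g _ hc m h)
    (fun h => hcT (h (show toTm c hc ∈ WWm hLT θ₀ from hcW)))
  exact absurd (hcrit N hN0 (fun m hm => by
    obtain ⟨c, hc, h⟩ := hNE m hm
    exact ⟨(c : Coch ℓ k F L Ω P), hc, h⟩) hNst r hr) (not_lt.2 hle)

/-! ### local triviality at all places -/

omit hG hl in
lemma h1_coef (γ : AutO k F L Ω) (x : L) :
    (γ : Ω ≃+* Ω) (algebraMap L Ω x) =
      algebraMap L Ω (Sup.coefL L (resF γ : F ≃+* F) x) := by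
  obtain ⟨p, q, hq, rfl⟩ := IsFractionRing.div_surjective (A := F[X]) x
  rw [map_div₀, map_div₀, map_div₀, map_div₀, Sup.coefL_algebraMap, Sup.coefL_algebraMap, resF_spec,
    resF_spec]
  rfl

omit hl in
theorem ltprop_lta : LTprop (Ω := Ω) ζ (LTa F ℓ (curveL k F L P)) where
  add h h' := lta_add h h'
  neg h := lta_neg h
  cob Q := lta_cob Q
  zJ hζ _ h := lta_zJ (f := curveL k F L P) (base k F L L (C ζ)) hζ h
  act γ a h := by
    refine lta_act (γ := (γ : Ω ≃+* Ω)) (s := Sup.coefL L (resF γ : F ≃+* F)) (h1_coef γ)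
      (fun a => ⟨resF γ a, by rw [Sup.coefL_algebraMap, Polynomial.map_C]; rfl⟩)
      (fun b => ⟨(resF γ).symm b, by
        rw [Sup.coefL_algebraMap, Polynomial.map_C]
        congr 2
        exact (resF γ).apply_symm_apply b⟩) (toSym P γ).2 h ?_
    intro g h' hg
    have h1 : conjG γ⁻¹ h' = g := by
      apply AlgEquiv.ext
      intro y
      have h2 := conjG_spec γ⁻¹ h' ((γ : Ω ≃+* Ω) y)
      have h3 : ∀ z : Ω, ((γ⁻¹ : AutO k F L Ω) : Ω ≃+* Ω) ((γ : Ω ≃+* Ω) z) = z := fun z =>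
        (γ : Ω ≃+* Ω).symm_apply_apply z
      rw [h3, ← hg, h3] at h2
      exact h2
    show symJ (toSym P γ) (a (conjG γ⁻¹ h')) = _
    rw [h1]
    rfl

end

end Pool.Agent.Lib.MP_89bcae_ag.Zs
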