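import Mathlib
import Pool.Agent.Lib.MP_89bcae_ag.Z.W08

/-!
# The elements of `L(θ₀)` attached to the cocycles (rows K1 - K7)
-/

attribute [local instance 100000] Pool.Agent.Lib.MP_89bcae_ag.Brt.tffFields
attribute [local instance 100000] Pool.Agent.Lib.MP_89bcae_ag.Wt.ifrNF Pool.Agent.Lib.MP_89bcae_ag.Wt.iddNF

open Polynomial IsDedekindDomain

open scoped Classical

namespace Pool.Agent.Lib.MP_89bcae_ag.Zs

open Pool.Agent.Lib.MP_89bcae_ag.Wt Pool.Agent.Lib.MP_89bcae_ag.Wt.Lns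

section

variable {k F L Ω : Type} [Field k] [Field F] [Algebra k F] [Field L] [Algebra F[X] L]
  [Field Ω] [Algebra L Ω] [IsAlgClosure k F] [IsFractionRing F[X] L] [IsAlgClosure L Ω]
  {ℓ : ℕ} {P : k[X][X]} [hG : IsGood ℓ (cOver k F L Ω P)] {ζ : k} {θ₀ : Ω}

/-- The element `u` is attached to the cochain `c` with values in the kernel of `1 - Z`: there are `z θ ≠ 0` with
`(z θ₀) ^ ℓ = u` such that, if `σ (z θ) = ζ ^ (n (σ θ)) z (σ θ)`, then `c σ = rm n`. -/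
def IsKum (ζ : k) (θ₀ : Ω) (c : (Ω ≃ₐ[L] Ω) → JacOver ℓ (curveL k F L P) Ω) (u : Ω) : Prop :=
  ∃ z : Ω → Ω, (∀ θ, (cOver k F L Ω P).eval θ = 0 → z θ ≠ 0) ∧ z θ₀ ^ ℓ = u ∧
    ∀ σ : Ω ≃ₐ[L] Ω, ∃ n : Ω → ℤ,
      (∀ θ, (cOver k F L Ω P).eval θ = 0 → σ (z θ) = (zA F L Ω ζ) ^ n (σ θ) * z (σ θ)) ∧
      c σ = (rm n : Jac ℓ (cOver k F L Ω P)) ∧ (ℓ : ℤ) ∣ ∑ θ ∈ (cOver k F L Ω P).roots.toFinset, n θ

/-! ### Auxiliary lemmas -/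

omit [IsAlgClosure k F] [IsFractionRing F[X] L] [IsAlgClosure L Ω] hG in
lemma kum_eval (γ : AutO k F L Ω) {θ : Ω} :
    (cOver k F L Ω P).eval ((γ : Ω ≃+* Ω) θ) = 0 ↔ (cOver k F L Ω P).eval θ = 0 :=
  eval_sym_eq_zero (toSym P γ)

omit [IsAlgClosure k F] [IsFractionRing F[X] L] [IsAlgClosure L Ω] hG in
lemma kum_eval_gal (σ : Ω ≃ₐ[L] Ω) {θ : Ω} :
    (cOver k F L Ω P).eval (σ θ) = 0 ↔ (cOver k F L Ω P).eval θ = 0 :=
  kum_eval (galA k F σ)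

omit [IsAlgClosure k F] [IsFractionRing F[X] L] [IsAlgClosure L Ω] in
include hG in
lemma kum_sum {M : Type*} [AddCommMonoid M] (γ : AutO k F L Ω) (φ : Ω → M) :
    ∑ θ ∈ (cOver k F L Ω P).roots.toFinset, φ ((γ : Ω ≃+* Ω) θ) =
      ∑ θ ∈ (cOver k F L Ω P).roots.toFinset, φ θ :=
  Finset.sum_equiv (γ : Ω ≃+* Ω).toEquiv (fun θ => by
    rw [rm14_mem hG, rm14_mem hG]
    exact (kum_eval γ).symm) (fun _ _ => rfl)

omit [IsAlgClosure k F] [IsFractionRing F[X] L] [IsAlgClosure L Ω] in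
include hG in
lemma kum_wt (hsep : (curveL k F L P).Separable) {θ : Ω} (hθ : (cOver k F L Ω P).eval θ = 0) :
    wt (cOver k F L Ω P) θ = 1 := by
  have h1 : (cOver k F L Ω P).Separable := hsep.map
  apply le_antisymm
  · exact rootMultiplicity_le_one_of_separable h1 θ
  · exact (rootMultiplicity_pos (f_ne_zero ℓ (cOver k F L Ω P))).2 hθ

omit [IsAlgClosure k F] [IsFractionRing F[X] L] [IsAlgClosure L Ω] in
lemma kum_sum_wt (hsep : (curveL k F L P).Separable) (n : Ω → ℤ) :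
    ∑ θ ∈ (cOver k F L Ω P).roots.toFinset,
      (wt (cOver k F L Ω P) θ : ZMod ℓ) * (n θ : ZMod ℓ) =
      ((∑ θ ∈ (cOver k F L Ω P).roots.toFinset, n θ : ℤ) : ZMod ℓ) := by
  rw [Int.cast_sum]
  refine Finset.sum_congr rfl fun θ hθ => ?_
  rw [kum_wt (ℓ := ℓ) hsep ((rm14_mem hG).1 hθ), Nat.cast_one, one_mul]

lemma kum_unique (H : LHyp ℓ k F L P ζ) (hsep : (curveL k F L P).Separable) {n n' : Ω → ℤ}
    (h : (rm n : Jac ℓ (cOver k F L Ω P)) = rm n')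
    (hs : (ℓ : ℤ) ∣ ∑ θ ∈ (cOver k F L Ω P).roots.toFinset, n θ)
    (hs' : (ℓ : ℤ) ∣ ∑ θ ∈ (cOver k F L Ω P).roots.toFinset, n' θ) {θ : Ω}
    (hθ : (cOver k F L Ω P).eval θ = 0) : (ℓ : ℤ) ∣ n θ - n' θ := by
  have h1 := rm14_unique H.prime (zA_prim (A := Ω) H) n n' h (by
    rw [kum_sum_wt hsep, kum_sum_wt hsep, (ZMod.intCast_zmod_eq_zero_iff_dvd _ ℓ).2 hs,
      (ZMod.intCast_zmod_eq_zero_iff_dvd _ ℓ).2 hs']) θ ((rm14_mem hG).2 hθ)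
  rw [← ZMod.intCast_zmod_eq_zero_iff_dvd, Int.cast_sub, h1, sub_self]

lemma kum_exists (H : LHyp ℓ k F L P ζ) (hsep : (curveL k F L P).Separable)
    (hζ : (zA F L Ω ζ) ^ ℓ = 1) (Q : Jac ℓ (cOver k F L Ω P)) (hQ : zJ (zA F L Ω ζ) hζ Q = Q) :
    ∃ n : Ω → ℤ, Q = rm n ∧ (ℓ : ℤ) ∣ ∑ θ ∈ (cOver k F L Ω P).roots.toFinset, n θ := by
  obtain ⟨n, h1, h2⟩ := rm14_exists H.prime (zA_prim (A := Ω) H) Q hQ
  refine ⟨n, h1, ?_⟩
  rwa [kum_sum_wt hsep, ZMod.intCast_zmod_eq_zero_iff_dvd] at h2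

omit [IsAlgClosure k F] [IsFractionRing F[X] L] hG in
lemma kum_trans (hirr : Irreducible (curveL k F L P)) {θ θ' : Ω}
    (hθ : (cOver k F L Ω P).eval θ = 0) (hθ' : (cOver k F L Ω P).eval θ' = 0) :
    ∃ σ : Ω ≃ₐ[L] Ω, σ θ = θ' := by
  have hN : Normal L Ω := IsAlgClosure.normal L Ω
  have h1 : aeval θ (curveL k F L P) = 0 := by
    rw [← eval_map_algebraMap]
    exact hθ
  have h2 : aeval θ' (curveL k F L P) = 0 := by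
    rw [← eval_map_algebraMap]
    exact hθ'
  have h3 : IsConjRoot L θ' θ := by
    rw [isConjRoot_def, ← minpoly.eq_of_irreducible hirr h1, ← minpoly.eq_of_irreducible hirr h2]
  exact isConjRoot_iff_exists_algEquiv.1 h3

omit [IsAlgClosure k F] [IsFractionRing F[X] L] [IsAlgClosure L Ω] hG in
lemma kum_zA (ζ : k) (σ : Ω ≃ₐ[L] Ω) : σ (zA F L Ω ζ) = zA F L Ω ζ :=
  σ.commutes _

lemma kum_zpow {E : Type} [Field E] {z : E} {ℓ : ℕ} (hℓ : ℓ ≠ 0) (hz : IsPrimitiveRoot z ℓ)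
    (a b : ℤ) : z ^ a = z ^ b ↔ (ℓ : ℤ) ∣ a - b := by
  have h0 : z ≠ 0 := hz.ne_zero hℓ
  rw [← hz.zpow_eq_one_iff_dvd, zpow_sub₀ h0, div_eq_one_iff_eq (zpow_ne_zero _ h0)]

/-- Elements fixed by all automorphisms are purely inseparable. -/
lemma kum_pow (K Ω' : Type) [Field K] [Field Ω'] [Algebra K Ω'] [IsAlgClosure K Ω']
    (x : Ω') (hx : ∀ σ : Ω' ≃ₐ[K] Ω', σ x = x) :
    ∃ (s : ℕ) (y : K), x ^ ringExpChar K ^ s = algebraMap K Ω' y := by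
  have h1 : IsAlgClosed Ω' := IsAlgClosure.isAlgClosed K
  have h2 : Algebra.IsAlgebraic K Ω' := IsAlgClosure.isAlgebraic
  have h3 : Normal K Ω' := IsAlgClosure.normal K Ω'
  have hint : IsIntegral K x := (Algebra.IsAlgebraic.isAlgebraic x).isIntegral
  have h4 : (minpoly K x).natSepDegree = 1 := by
    rw [natSepDegree_eq_of_isAlgClosed Ω', Finset.card_eq_one]
    refine ⟨x, ?_⟩
    ext y
    rw [Multiset.mem_toFinset, Finset.mem_singleton, mem_aroots]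
    constructor
    · rintro ⟨-, hy⟩
      have h5 : IsConjRoot K x y := (isConjRoot_iff_aeval_eq_zero hint).mpr hy
      obtain ⟨σ, hσ⟩ := isConjRoot_iff_exists_algEquiv.mp h5
      have h6 := hx σ
      exact σ.injective (hσ.trans h6.symm)
    · rintro rfl
      exact ⟨minpoly.ne_zero hint, minpoly.aeval K _⟩
  obtain ⟨s, y, hy⟩ := (minpoly.natSepDegree_eq_one_iff_pow_mem (ringExpChar K)).mp h4
  exact ⟨s, y, hy.symm⟩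

omit [IsAlgClosure k F] [IsFractionRing F[X] L] hG in
lemma kum_fixed (H : LHyp ℓ k F L P ζ) {x : Ω} (hx : ∀ σ : Ω ≃ₐ[L] Ω, σ θ₀ = θ₀ → σ x = x) :
    ∃ q : ℕ, q.Coprime ℓ ∧ x ^ q ∈ IntermediateField.adjoin L {θ₀} := by
  set K := IntermediateField.adjoin L {θ₀} with hK
  have hA : IsAlgClosed Ω := IsAlgClosure.isAlgClosed L
  have hB : Algebra.IsAlgebraic L Ω := IsAlgClosure.isAlgebraic
  have hC : Algebra.IsAlgebraic K Ω := Algebra.IsAlgebraic.tower_top (K := L) K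
  have hD : IsAlgClosure K Ω := ⟨hA, hC⟩
  obtain ⟨s, y, hy⟩ := kum_pow K Ω x (fun σ => by
    refine hx (σ.restrictScalars L) ?_
    have hθ : θ₀ ∈ K := IntermediateField.subset_adjoin L {θ₀} (Set.mem_singleton θ₀)
    exact σ.commutes ⟨θ₀, hθ⟩)
  refine ⟨ringExpChar K ^ s, ?_, ?_⟩
  · have hLne : (ℓ : K) ≠ 0 := by
      intro h2
      apply H.ne
      have h3 : ((algebraMap L K).comp ((algebraMap F[X] L).comp (C.comp (algebraMap k F))))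
          (ℓ : k) = 0 := by
        rw [map_natCast, h2]
      exact (map_eq_zero _).1 h3
    exact (Sup.G13_coprime H.prime hLne).pow_left s
  · rw [hy]
    exact y.2

lemma kum_mem {L Ω : Type} [Field L] [Field Ω] [Algebra L Ω] (K : IntermediateField L Ω) {x : Ω}
    {ℓ q : ℕ} (hx0 : x ≠ 0) (hq : q.Coprime ℓ) (h1 : x ^ ℓ ∈ K) (h2 : x ^ q ∈ K) : x ∈ K := by
  obtain ⟨a, b, hab⟩ := Nat.isCoprime_iff_coprime.2 hq
  have h3 : x = (x ^ q) ^ a * (x ^ ℓ) ^ b := by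
    rw [← zpow_natCast, ← zpow_natCast, ← zpow_mul, ← zpow_mul, ← zpow_add₀ hx0,
      show (q : ℤ) * a + (ℓ : ℤ) * b = a * q + b * ℓ by ring, hab, zpow_one]
  rw [h3]
  exact K.mul_mem (zpow_mem h2 a) (zpow_mem h1 b)

omit [IsAlgClosure k F] [IsFractionRing F[X] L] [IsAlgClosure L Ω] hG in
/-- The elements of `L(θ₀)` are values of polynomials. -/
lemma kum_aeval (h0 : (cOver k F L Ω P).eval θ₀ = 0) (hirr : Irreducible (curveL k F L P)) {w : Ω}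
    (hw : w ∈ IntermediateField.adjoin L {θ₀}) : ∃ A : L[X], w = aeval θ₀ A := by
  have h1 : IsIntegral L θ₀ := by
    apply IsAlgebraic.isIntegral
    refine ⟨curveL k F L P, hirr.ne_zero, ?_⟩
    rw [← eval_map_algebraMap]
    exact h0
  have h2 : w ∈ (IntermediateField.adjoin L {θ₀}).toSubalgebra := hw
  rw [IntermediateField.adjoin_simple_toSubalgebra_of_isAlgebraic h1.isAlgebraic] at h2
  rw [Algebra.adjoin_singleton_eq_range_aeval] at h2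
  obtain ⟨A, hA⟩ := h2
  exact ⟨A, hA.symm⟩

/-- ROW K1. Every Tate cocycle has an element. PROOF. `v (c 1 σ)` is killed by `1 - Z` (`vJ_sub_zJ`, `ℓ c 1 = c 0 = 0`), so it is
`rm n_σ` with `ℓ ∣ ∑ n_σ` (`exists_rm_of_zJ_eq`, `rm14_exists`, `wt = 1`); `n` is a cocycle modulo `ℓ`
(`rm14_unique`); `σ ↦ n_σ(θ₀)` is a continuous character modulo `ℓ` of the stabilizer of `θ₀`, so there is `z₀ ≠ 0`
with `σ z₀ = ζ ^ (n_σ θ₀) z₀` for the `σ` which fix `θ₀`, `z₀ ^ ℓ ∈ L(θ₀)` (`exists_kummer_char` in Tk/K013, pattern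
`G11_exists_z` in Tk/K041; in characteristic `p` replace `z₀` by a power); put
`z (τ θ₀) = ζ ^ (- n_τ (τ θ₀)) τ z₀`. -/
theorem exists_isKum (H : LHyp ℓ k F L P ζ) (hζ : (zA F L Ω ζ) ^ ℓ = 1) (hirr : Irreducible (curveL k F L P))
    (hsep : (curveL k F L P).Separable) (h0 : (cOver k F L Ω P).eval θ₀ = 0) {c : Coch ℓ k F L Ω P}
    (hc : Wt.IsTateCocycle ℓ (curveL k F L P) c) :
    ∃ u ∈ IntermediateField.adjoin L {θ₀}, IsKum ζ θ₀ (fun σ => vJ (zA F L Ω ζ) hζ (c 1 σ)) u := by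
  have hp : Fact ℓ.Prime := ⟨H.prime⟩
  have hN : Normal L Ω := IsAlgClosure.normal L Ω
  have hζ' : IsPrimitiveRoot (zA F L Ω ζ) ℓ := zA_prim H
  have hζ0 : zA F L Ω ζ ≠ 0 := hζ'.ne_zero H.prime.ne_zero
  have h1 : ∀ σ, ∃ n : Ω → ℤ, vJ (zA F L Ω ζ) hζ (c 1 σ) = rm n ∧
      (ℓ : ℤ) ∣ ∑ θ ∈ (cOver k F L Ω P).roots.toFinset, n θ := by
    intro σ
    apply kum_exists H hsep hζ
    have h2 := vJ_sub_zJ (zA F L Ω ζ) hζ' (c 1 σ)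
    rw [hc.smul 0 σ, hc.zero, sub_eq_zero] at h2
    exact h2.symm
  choose e he hs using h1
  have hcoc : ∀ (σ τ : Ω ≃ₐ[L] Ω) (θ : Ω), (cOver k F L Ω P).eval θ = 0 →
      (ℓ : ℤ) ∣ e (σ * τ) (σ θ) - (e σ (σ θ) + e τ θ) := by
    intro σ τ θ hθ
    have h2 : (rm (e (σ * τ)) : Jac ℓ (cOver k F L Ω P)) =
        rm fun θ => e σ θ + e τ ((((galA k F σ)⁻¹ : AutO k F L Ω) : Ω ≃+* Ω) θ) := by
      rw [← he, hc.cocycle, vJ_add, push_eq, vJ_symJ (zA F L Ω ζ) hζ _ (zA_fixed ζ (galA k F σ)),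
        he, he, symJ_rm, rm_add]
      rfl
    have h3 := kum_unique H hsep h2 (hs _) (by
      rw [Finset.sum_add_distrib, kum_sum (ℓ := ℓ) (galA k F σ)⁻¹ (e τ)]
      exact dvd_add (hs σ) (hs τ)) ((kum_eval_gal σ).2 hθ)
    have h4 : (((galA k F σ)⁻¹ : AutO k F L Ω) : Ω ≃+* Ω) (σ θ) = θ := σ.symm_apply_apply θ
    rwa [h4] at h3
  have hc1 : c 1 1 = 0 := by
    have h2 := hc.cocycle 1 1 1
    rw [mul_one, push_eq, map_one, map_one, symJ_one] at h2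
    exact left_eq_add.1 h2
  obtain ⟨S, hS⟩ : ∃ S : Finset Ω, ∀ σ : Ω ≃ₐ[L] Ω, (∀ x ∈ S, σ x = x) → c 1 σ = 0 := by
    have hopen : IsOpen {σ : Ω ≃ₐ[L] Ω | c 1 σ = 0} := hc.locallyConstant 1 {0}
    have hnhds : {σ : Ω ≃ₐ[L] Ω | c 1 σ = 0} ∈ nhds (1 : Ω ≃ₐ[L] Ω) := hopen.mem_nhds hc1
    obtain ⟨K, hK, hKU⟩ := (krullTopology_mem_nhds_one_iff L Ω _).1 hnhds
    let b := Module.finBasis L K
    refine ⟨Finset.univ.image fun i => (b i : Ω), fun σ hσ => ?_⟩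
    apply hKU
    have h4 : σ.toLinearMap ∘ₗ K.val.toLinearMap = K.val.toLinearMap :=
      b.ext fun i => hσ _ (Finset.mem_image_of_mem _ (Finset.mem_univ i))
    exact (IntermediateField.mem_fixingSubgroup_iff _ _).2 fun x hx =>
      LinearMap.congr_fun h4 ⟨x, hx⟩
  have hfixK : ∀ (σ : Ω ≃ₐ[L] Ω), σ θ₀ = θ₀ → ∀ w ∈ IntermediateField.adjoin L {θ₀}, σ w = w := by
    intro σ hσ w hw
    obtain ⟨A, rfl⟩ := kum_aeval h0 hirr hw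
    rw [← aeval_algHom_apply σ θ₀ A, hσ]
  obtain ⟨z₀, hz₀, hz⟩ := Sup.exists_kummer_char hζ' (MulAction.stabilizer (Ω ≃ₐ[L] Ω) θ₀)
    (fun σ _ => kum_zA ζ σ) (fun σ => (e σ θ₀ : ZMod ℓ)) (fun σ hσ τ hτ => by
      have h2 := hcoc σ τ θ₀ h0
      rw [show σ θ₀ = θ₀ from hσ, ← ZMod.intCast_zmod_eq_zero_iff_dvd, Int.cast_sub,
        Int.cast_add, sub_eq_zero] at h2
      exact h2) S (fun σ _ hσS => by
      have h2 : (rm (e σ) : Jac ℓ (cOver k F L Ω P)) = rm fun _ => 0 := by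
        rw [← he, hS σ hσS, rm_zero]
        have h6 := vJ_smul (zA F L Ω ζ) hζ 0 (0 : JacOver ℓ (curveL k F L P) Ω)
        rwa [zero_smul, zero_smul] at h6
      have h3 := kum_unique H hsep h2 (hs σ) (by
        rw [Finset.sum_const_zero]
        exact dvd_zero _) h0
      rwa [sub_zero, ← ZMod.intCast_zmod_eq_zero_iff_dvd] at h3)
  have hz' : ∀ σ : Ω ≃ₐ[L] Ω, σ θ₀ = θ₀ → σ z₀ = zA F L Ω ζ ^ (e σ θ₀) * z₀ := by
    intro σ hσ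
    rw [hz σ hσ]
    congr 1
    rw [← zpow_natCast, kum_zpow H.prime.ne_zero hζ', ← ZMod.intCast_zmod_eq_zero_iff_dvd,
      Int.cast_sub, Int.cast_natCast, ZMod.natCast_zmod_val, sub_self]
  have hζz : ∀ i : ℤ, (zA F L Ω ζ ^ i) ^ ℓ = 1 := by
    intro i
    rw [← zpow_natCast, ← zpow_mul, mul_comm, zpow_mul, zpow_natCast, hζ, one_zpow]
  obtain ⟨q, hq, hqK⟩ := kum_fixed (θ₀ := θ₀) H (x := z₀ ^ ℓ) (fun σ hσ => by
    rw [map_pow, hz' σ hσ, _root_.mul_pow, hζz, one_mul])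
  obtain ⟨j, -, hj⟩ := Nat.exists_mul_mod_eq_one_of_coprime hq H.prime.one_lt
  have hζq : ∀ i : ℤ, (zA F L Ω ζ ^ i) ^ (q * j) = zA F L Ω ζ ^ i := by
    intro i
    conv_lhs => rw [← Nat.div_add_mod (q * j) ℓ, hj, pow_succ, pow_mul, hζz, one_pow, one_mul]
  set z₁ : Ω := z₀ ^ (q * j) with hz₁
  have hz₁0 : z₁ ≠ 0 := pow_ne_zero _ hz₀
  have hz₁K : z₁ ^ ℓ ∈ IntermediateField.adjoin L {θ₀} := by
    have h2 : z₁ ^ ℓ = ((z₀ ^ ℓ) ^ q) ^ j := by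
      rw [hz₁, ← pow_mul, ← pow_mul, ← pow_mul]
      congr 1
      ring
    rw [h2]
    exact pow_mem hqK j
  have hz₁σ : ∀ σ : Ω ≃ₐ[L] Ω, σ θ₀ = θ₀ → σ z₁ = zA F L Ω ζ ^ (e σ θ₀) * z₁ := by
    intro σ hσ
    rw [hz₁, map_pow, hz' σ hσ, _root_.mul_pow, hζq]
  have hgal : ∀ θ, ∃ σ : Ω ≃ₐ[L] Ω, (cOver k F L Ω P).eval θ = 0 → σ θ₀ = θ := by
    intro θ
    by_cases hθ : (cOver k F L Ω P).eval θ = 0
    · obtain ⟨σ, hσ⟩ := kum_trans hirr h0 hθ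
      exact ⟨σ, fun _ => hσ⟩
    · exact ⟨1, fun h => absurd h hθ⟩
  choose s hsθ using hgal
  refine ⟨z₁ ^ ℓ, hz₁K, fun θ => zA F L Ω ζ ^ (-(e (s θ) θ)) * s θ z₁, fun θ _ =>
    mul_ne_zero (zpow_ne_zero _ hζ0) ((map_ne_zero_iff (s θ) (s θ).injective).2 hz₁0), ?_,
    fun σ => ⟨e σ, fun θ hθ => ?_, he σ, hs σ⟩⟩
  · beta_reduce
    rw [_root_.mul_pow, hζz, one_mul, ← map_pow, hfixK _ (hsθ θ₀ h0) _ hz₁K]
  · have hσθ := (kum_eval_gal (k := k) (F := F) (P := P) σ).2 hθ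
    set h' : Ω ≃ₐ[L] Ω := (s (σ θ))⁻¹ * (σ * s θ) with hh'
    have hsh : s (σ θ) * h' = σ * s θ := mul_inv_cancel_left _ _
    have hhθ : h' θ₀ = θ₀ := by
      have h1 : s (σ θ) (h' θ₀) = s (σ θ) θ₀ := by
        have h2 : s (σ θ) (h' θ₀) = (s (σ θ) * h') θ₀ := rfl
        rw [h2, hsh, hsθ _ hσθ]
        change σ (s θ θ₀) = σ θ
        rw [hsθ _ hθ]
      exact (s (σ θ)).injective h1
    have h3 : σ (s θ z₁) = zA F L Ω ζ ^ (e h' θ₀) * s (σ θ) z₁ := by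
      have h4 : σ (s θ z₁) = (s (σ θ) * h') z₁ := by
        rw [hsh]
        rfl
      have h5 : (s (σ θ) * h') z₁ = s (σ θ) (h' z₁) := rfl
      rw [h4, h5, hz₁σ h' hhθ, map_mul, map_zpow₀, kum_zA]
    rw [map_mul, map_zpow₀, kum_zA, h3, ← mul_assoc, ← mul_assoc, ← zpow_add₀ hζ0,
      ← zpow_add₀ hζ0]
    congr 1
    rw [kum_zpow H.prime.ne_zero hζ']
    have h7 := hcoc σ (s θ) θ hθ
    have h8 := hcoc (s (σ θ)) h' θ₀ h0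
    rw [hsh, hsθ _ hσθ] at h8
    have h9 := dvd_sub h7 h8
    have h10 : -(e (s θ) θ) + e h' θ₀ - (e σ (σ θ) + -(e (s (σ θ)) (σ θ))) =
        e (σ * s θ) (σ θ) - (e σ (σ θ) + e (s θ) θ) -
          (e (σ * s θ) (σ θ) - (e (s (σ θ)) (σ θ) + e h' θ₀)) := by ring
    rw [h10]
    exact h9

/-- ROW K2. -/
theorem IsKum.ne_zero {c : (Ω ≃ₐ[L] Ω) → JacOver ℓ (curveL k F L P) Ω} {u : Ω} (h0 : (cOver k F L Ω P).eval θ₀ = 0)
    (h : IsKum ζ θ₀ c u) : u ≠ 0 := by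
  obtain ⟨z, hz, rfl, -⟩ := h
  exact pow_ne_zero _ (hz θ₀ h0)

/-- ROW K2. -/
theorem IsKum.add (hζ0 : zA F L Ω ζ ≠ 0) {c c' : (Ω ≃ₐ[L] Ω) → JacOver ℓ (curveL k F L P) Ω} {u u' : Ω}
    (h : IsKum ζ θ₀ c u) (h' : IsKum ζ θ₀ c' u') : IsKum ζ θ₀ (fun σ => c σ + c' σ) (u * u') := by
  obtain ⟨z, hz, rfl, hn⟩ := h
  obtain ⟨z', hz', rfl, hn'⟩ := h'
  refine ⟨fun θ => z θ * z' θ, fun θ hθ => mul_ne_zero (hz θ hθ) (hz' θ hθ), mul_pow _ _ _,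
    fun σ => ?_⟩
  obtain ⟨n, h1, h2, h3⟩ := hn σ
  obtain ⟨n', h1', h2', h3'⟩ := hn' σ
  refine ⟨fun θ => n θ + n' θ, fun θ hθ => ?_, ?_, ?_⟩
  · rw [map_mul, h1 θ hθ, h1' θ hθ, zpow_add₀ hζ0]
    ring
  · beta_reduce
    rw [h2, h2', rm_add]
  · rw [Finset.sum_add_distrib]
    exact dvd_add h3 h3'

/-- ROW K2. -/
theorem IsKum.mul_pow {c : (Ω ≃ₐ[L] Ω) → JacOver ℓ (curveL k F L P) Ω} {u : Ω} (H : LHyp ℓ k F L P ζ)
    (hirr : Irreducible (curveL k F L P)) (hsep : (curveL k F L P).Separable)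
    (h0 : (cOver k F L Ω P).eval θ₀ = 0) (h : IsKum ζ θ₀ c u) {w : Ω} (hw : w ∈ IntermediateField.adjoin L {θ₀})
    (hw0 : w ≠ 0) : IsKum ζ θ₀ c (u * w ^ ℓ) := by
  obtain ⟨z, hz, rfl, hn⟩ := h
  obtain ⟨A, rfl⟩ := kum_aeval h0 hirr hw
  refine ⟨fun θ => z θ * aeval θ A, fun θ hθ => mul_ne_zero (hz θ hθ) ?_, _root_.mul_pow _ _ _,
    fun σ => ?_⟩
  · obtain ⟨σ, rfl⟩ := kum_trans hirr h0 hθ
    have h1 : aeval (σ θ₀) A = σ (aeval θ₀ A) := aeval_algHom_apply (σ : Ω →ₐ[L] Ω) θ₀ A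
    rw [h1]
    exact (map_ne_zero_iff σ σ.injective).2 hw0
  · obtain ⟨n, h1, h2, h3⟩ := hn σ
    refine ⟨n, fun θ hθ => ?_, h2, h3⟩
    have h4 : aeval (σ θ) A = σ (aeval θ A) := aeval_algHom_apply (σ : Ω →ₐ[L] Ω) θ A
    beta_reduce
    rw [map_mul, h1 θ hθ, h4]
    ring

/-- ROW K3. -/
theorem IsKum.exists_pow (H : LHyp ℓ k F L P ζ) (hirr : Irreducible (curveL k F L P))
    (hsep : (curveL k F L P).Separable) (h0 : (cOver k F L Ω P).eval θ₀ = 0)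
    {c : (Ω ≃ₐ[L] Ω) → JacOver ℓ (curveL k F L P) Ω} {u : Ω} (hu : u ∈ IntermediateField.adjoin L {θ₀})
    (h : IsKum ζ θ₀ c u) {q : Ω → ℤ}
    (hc : ∀ σ, c σ = symJ (toSym P (galA k F σ)) (rm q) - rm q) :
    ∃ w ∈ IntermediateField.adjoin L {θ₀}, u = w ^ ℓ := by
  have hζ' : IsPrimitiveRoot (zA F L Ω ζ) ℓ := zA_prim H
  have hζ0 : zA F L Ω ζ ≠ 0 := hζ'.ne_zero H.prime.ne_zero
  obtain ⟨z, hz, rfl, hn⟩ := h
  have key : ∀ (σ : Ω ≃ₐ[L] Ω) (θ : Ω), (cOver k F L Ω P).eval θ = 0 →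
      σ (zA F L Ω ζ ^ (-q θ) * z θ) = zA F L Ω ζ ^ (-q (σ θ)) * z (σ θ) := by
    intro σ θ hθ
    obtain ⟨n, h1, h2, h3⟩ := hn σ
    have h4 : (rm n : Jac ℓ (cOver k F L Ω P)) =
        rm fun θ => q ((((galA k F σ)⁻¹ : AutO k F L Ω) : Ω ≃+* Ω) θ) - q θ := by
      rw [← h2, hc σ, symJ_rm, rm_sub]
      rfl
    have h5 := kum_unique H hsep h4 h3 (by
      rw [Finset.sum_sub_distrib, kum_sum (ℓ := ℓ) (galA k F σ)⁻¹ q, sub_self]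
      exact dvd_zero _) ((kum_eval_gal σ).2 hθ)
    have h6 : (((galA k F σ)⁻¹ : AutO k F L Ω) : Ω ≃+* Ω) (σ θ) = θ := σ.symm_apply_apply θ
    rw [h6] at h5
    rw [map_mul, map_zpow₀, kum_zA, h1 θ hθ, ← mul_assoc, ← zpow_add₀ hζ0]
    congr 1
    rw [kum_zpow H.prime.ne_zero hζ']
    have h7 : -q θ + n (σ θ) - -q (σ θ) = n (σ θ) - (q θ - q (σ θ)) := by ring
    rw [h7]
    exact h5
  obtain ⟨r, hr, hx⟩ := kum_fixed (θ₀ := θ₀) H (x := zA F L Ω ζ ^ (-q θ₀) * z θ₀) (fun σ hσ => by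
    have := key σ θ₀ h0
    rwa [hσ] at this)
  have hpow : (zA F L Ω ζ ^ (-q θ₀) * z θ₀) ^ ℓ = z θ₀ ^ ℓ := by
    have h1 : (zA F L Ω ζ ^ (-q θ₀)) ^ ℓ = 1 := by
      rw [← zpow_natCast, ← zpow_mul, mul_comm, zpow_mul, zpow_natCast, hζ'.pow_eq_one, one_zpow]
    rw [_root_.mul_pow, h1, one_mul]
  refine ⟨zA F L Ω ζ ^ (-q θ₀) * z θ₀, ?_, hpow.symm⟩
  refine kum_mem _ (mul_ne_zero (zpow_ne_zero _ hζ0) (hz θ₀ h0)) hr ?_ hx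
  rw [hpow]
  exact hu

/-- ROW K4. -/
theorem IsKum.exists_cob (H : LHyp ℓ k F L P ζ) (hirr : Irreducible (curveL k F L P))
    (hsep : (curveL k F L P).Separable) (h0 : (cOver k F L Ω P).eval θ₀ = 0)
    {c : (Ω ≃ₐ[L] Ω) → JacOver ℓ (curveL k F L P) Ω} {w : Ω} (hw : w ∈ IntermediateField.adjoin L {θ₀})
    (h : IsKum ζ θ₀ c (w ^ ℓ)) :
    ∃ q : Ω → ℤ, ∀ σ, c σ = symJ (toSym P (galA k F σ)) (rm q) - rm q := by
  have hζ' : IsPrimitiveRoot (zA F L Ω ζ) ℓ := zA_prim H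
  have hζ0 : zA F L Ω ζ ≠ 0 := hζ'.ne_zero H.prime.ne_zero
  have hw0 : w ≠ 0 := by
    rintro rfl
    exact h.ne_zero h0 (zero_pow H.prime.ne_zero)
  obtain ⟨A, rfl⟩ := kum_aeval h0 hirr hw
  obtain ⟨z, hz, hzu, hn⟩ := h
  have hAσ : ∀ (σ : Ω ≃ₐ[L] Ω) (θ : Ω), σ (aeval θ A) = aeval (σ θ) A := fun σ θ =>
    (aeval_algHom_apply (σ : Ω →ₐ[L] Ω) θ A).symm
  have hm : ∀ θ, ∃ m : ℤ, (cOver k F L Ω P).eval θ = 0 →
      z θ = zA F L Ω ζ ^ m * aeval θ A ∧ aeval θ A ≠ 0 := by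
    intro θ
    by_cases hθ : (cOver k F L Ω P).eval θ = 0
    · obtain ⟨τ, rfl⟩ := kum_trans hirr h0 hθ
      obtain ⟨n, h1, -, -⟩ := hn τ
      have h2 := h1 θ₀ h0
      obtain ⟨i, hi⟩ := Sup.G13_exists_zpow H.prime.ne_zero hζ' hw0 hzu
      rw [hi, map_mul, map_zpow₀, kum_zA, hAσ] at h2
      refine ⟨i - n (τ θ₀), fun _ => ⟨?_, ?_⟩⟩
      · rw [zpow_sub₀ hζ0, div_mul_eq_mul_div, eq_div_iff (zpow_ne_zero _ hζ0), h2]
        ring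
      · rw [← hAσ]
        exact (map_ne_zero_iff τ τ.injective).2 hw0
    · exact ⟨0, fun h => absurd h hθ⟩
  choose m hm using hm
  refine ⟨m, fun σ => ?_⟩
  obtain ⟨n, h1, h2, h3⟩ := hn σ
  rw [h2, symJ_rm, ← rm_sub]
  refine rm_congr _ _ fun θ hθ => ?_
  have hθ' : (cOver k F L Ω P).eval (σ.symm θ) = 0 := by
    rw [← kum_eval_gal σ, σ.apply_symm_apply]
    exact hθ
  have h4 := h1 (σ.symm θ) hθ'
  rw [σ.apply_symm_apply, (hm _ hθ').1, (hm _ hθ).1, map_mul, map_zpow₀, kum_zA, hAσ,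
    σ.apply_symm_apply, ← mul_assoc, ← zpow_add₀ hζ0] at h4
  have h5 := mul_right_cancel₀ (hm _ hθ).2 h4
  rw [kum_zpow H.prime.ne_zero hζ'] at h5
  have h6 : (((toSym P (galA k F σ))⁻¹ : Sym (cOver k F L Ω P)) : Ω ≃+* Ω) θ = σ.symm θ := rfl
  rw [h6]
  have h7 : n θ - (m (σ.symm θ) - m θ) = -(m (σ.symm θ) - (n θ + m θ)) := by ring
  rw [h7, dvd_neg]
  exact h5

/-- ROW K5. -/
theorem IsKum.act {γ : AutO k F L Ω} (hγ : (γ : Ω ≃+* Ω) θ₀ = θ₀)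
    {c : (Ω ≃ₐ[L] Ω) → JacOver ℓ (curveL k F L P) Ω} {u : Ω} (h : IsKum ζ θ₀ c u) :
    IsKum ζ θ₀ (fun σ => symJ (toSym P γ) (c (conjG γ⁻¹ σ))) ((γ : Ω ≃+* Ω) u) := by
  obtain ⟨z, hz, rfl, hn⟩ := h
  have hγ' : (γ : Ω ≃+* Ω).symm θ₀ = θ₀ := by
    conv_lhs => rw [← hγ]
    exact (γ : Ω ≃+* Ω).symm_apply_apply θ₀
  refine ⟨fun θ => (γ : Ω ≃+* Ω) (z ((γ : Ω ≃+* Ω).symm θ)), fun θ hθ => ?_, ?_, fun σ => ?_⟩
  · refine (map_ne_zero_iff _ (γ : Ω ≃+* Ω).injective).2 (hz _ ?_)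
    rw [← kum_eval γ, RingEquiv.apply_symm_apply]
    exact hθ
  · beta_reduce
    rw [hγ', map_pow]
  · obtain ⟨n, h1, h2, h3⟩ := hn (conjG γ⁻¹ σ)
    refine ⟨fun θ => n ((γ : Ω ≃+* Ω).symm θ), fun θ hθ => ?_, ?_, ?_⟩
    · have h4 : (cOver k F L Ω P).eval ((γ : Ω ≃+* Ω).symm θ) = 0 := by
        rw [← kum_eval γ, RingEquiv.apply_symm_apply]
        exact hθ
      have h5 : ∀ x : Ω, (conjG γ⁻¹ σ) ((γ : Ω ≃+* Ω).symm x) = (γ : Ω ≃+* Ω).symm (σ x) :=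
        fun x => conjG_spec γ⁻¹ σ x
      have h6 := congrArg (γ : Ω ≃+* Ω) (h1 _ h4)
      rw [h5, map_mul, map_zpow₀, zA_fixed] at h6
      rw [← h6]
      have h7 := h5 ((γ : Ω ≃+* Ω) (z ((γ : Ω ≃+* Ω).symm θ)))
      rw [RingEquiv.symm_apply_apply] at h7
      rw [h7, RingEquiv.apply_symm_apply]
    · beta_reduce
      rw [h2, symJ_rm]
      rfl
    · have h4 := kum_sum (ℓ := ℓ) (P := P) (k := k) (F := F) (L := L) (γ⁻¹) n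
      have h5 : ∀ x : Ω, ((γ⁻¹ : AutO k F L Ω) : Ω ≃+* Ω) x = (γ : Ω ≃+* Ω).symm x := fun x => rfl
      simp only [h5] at h4
      rw [h4]
      exact h3

/-- ROW K7. The element of a trivial cocycle. -/
theorem Trc.exists_cob (H : LHyp ℓ k F L P ζ) (hζ : (zA F L Ω ζ) ^ ℓ = 1) {c : Coch ℓ k F L Ω P} (hc : Trc c) :
    ∃ q : Ω → ℤ, ∀ σ, vJ (zA F L Ω ζ) hζ (c 1 σ) =
      symJ (toSym P (galA k F σ)) (rm q : Jac ℓ (cOver k F L Ω P)) - rm q := by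
  have hζ' : IsPrimitiveRoot (zA F L Ω ζ) ℓ := zA_prim H
  obtain ⟨A, hA, hcA⟩ := hc.2 1
  rw [pow_one] at hA
  have h1 := vJ_sub_zJ (zA F L Ω ζ) hζ' A
  rw [hA, sub_eq_zero] at h1
  obtain ⟨q, hq⟩ := exists_rm_of_zJ_eq (zA F L Ω ζ) hζ' _ h1.symm
  refine ⟨q, fun σ => ?_⟩
  rw [hcA σ, push_eq, vJ_sub, vJ_symJ (zA F L Ω ζ) hζ _ (zA_fixed ζ (galA k F σ)), ← hq]

/-- ROW K6. -/
theorem isKum_zC (H : LHyp ℓ k F L P ζ) (hζ : (zA F L Ω ζ) ^ ℓ = 1) {c : Coch ℓ k F L Ω P}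
    (hc : Wt.IsTateCocycle ℓ (curveL k F L P) c) {u : Ω} (h : IsKum ζ θ₀ (fun σ => vJ (zA F L Ω ζ) hζ (c 1 σ)) u) :
    IsKum ζ θ₀ (fun σ => vJ (zA F L Ω ζ) hζ (zJ (zA F L Ω ζ) hζ (c 1 σ))) u := by
  have hζ' : IsPrimitiveRoot (zA F L Ω ζ) ℓ := zA_prim H
  have h1 : ∀ σ, vJ (zA F L Ω ζ) hζ (zJ (zA F L Ω ζ) hζ (c 1 σ)) = vJ (zA F L Ω ζ) hζ (c 1 σ) := by
    intro σ
    have h2 := vJ_sub_zJ (zA F L Ω ζ) hζ' (c 1 σ)
    rw [hc.smul 0 σ, hc.zero, sub_eq_zero] at h2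
    rw [vJ_zJ]
    exact h2.symm
  simp only [h1]
  exact h

end

end Pool.Agent.Lib.MP_89bcae_ag.Zs
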