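import Mathlib

open Polynomial

open scoped Classical

/-!
# The valuation rings of a finite extension and the embeddings
-/

namespace Pool.Agent.Lib.MP_89bcae_ag.Zs

section Core

variable {L E : Type*} [Field L] [Field E] [Algebra L E]

lemma pl_mem {R : Type*} [CommRing R] [Algebra R E] {V : ValuationSubring E}
    (h : ∀ a : R, algebraMap R E a ∈ V) {x : E} (hx : IsIntegral R x) : x ∈ V := by
  let φ : R →+* V.toSubring := (algebraMap R E).codRestrict V.toSubring h
  obtain ⟨p, hp, hpx⟩ := hx
  have h1 : IsIntegral V.toSubring x := ⟨p.map φ, hp.map φ, by rw [eval₂_map]; exact hpx⟩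
  have h2 : IsIntegrallyClosedIn V.toSubring E := inferInstanceAs (IsIntegrallyClosedIn V E)
  obtain ⟨y, hy⟩ := IsIntegrallyClosedIn.isIntegral_iff.mp h1
  rw [← hy]
  exact y.2

lemma pl_mem_of_integral {A : ValuationSubring L} {V : ValuationSubring E}
    (h : ∀ a ∈ A, algebraMap L E a ∈ V) {x : E} (hx : IsIntegral A x) : x ∈ V :=
  pl_mem (R := A) (fun a => h a a.2) hx

lemma pl_integral {A : ValuationSubring L} {x : E}
    (h : ∀ V : ValuationSubring E, (∀ a ∈ A, algebraMap L E a ∈ V) → x ∈ V) : IsIntegral A x := by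
  by_contra hx
  have h1 : x ∉ (integralClosure A E).toSubring := hx
  obtain ⟨V, hV, hxV⟩ := Subring.exists_le_valuationSubring_of_isIntegrallyClosedIn h1
  exact hxV (h V fun a ha => hV (show algebraMap L E a ∈ integralClosure A E from
    (integralClosure A E).algebraMap_mem ⟨a, ha⟩))

lemma pl_lt {A : ValuationSubring L} {V : ValuationSubring E}
    (hV : ∀ a : L, a ∈ A ↔ algebraMap L E a ∈ V) (a : L) :
    A.valuation a < 1 ↔ V.valuation (algebraMap L E a) < 1 := by
  rw [← ValuationSubring.mem_nonunits_iff, ← ValuationSubring.mem_nonunits_iff,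
    ValuationSubring.mem_nonunits_iff_or, ValuationSubring.mem_nonunits_iff_or, hV,
    map_inv₀, map_eq_zero]

/-- An element `z` of `E` as a quotient. -/
lemma pl_frac [Algebra.IsAlgebraic L E] (A : ValuationSubring L) (z : E) (hz : z ≠ 0) :
    ∃ b c : E, IsIntegral A b ∧ IsIntegral A c ∧ z * b = c ∧ ∀ V : ValuationSubring E,
      (∀ a : L, a ∈ A ↔ algebraMap L E a ∈ V) → z ∈ V → ¬ V.valuation b < 1 := by
  have hint : IsIntegral L z := Algebra.IsIntegral.isIntegral z
  set p := minpoly L z with hp
  set n := p.natDegree with hn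
  obtain ⟨m, hm, hmax⟩ := Finset.exists_max_image (Finset.range (n + 1))
    (fun i => A.valuation (p.coeff i)) ⟨0, by simp⟩
  have hm' : m ≤ n := Nat.lt_succ_iff.mp (Finset.mem_range.mp hm)
  have hlead : p.coeff n = 1 := (minpoly.monic hint).coeff_natDegree
  have hm0 : p.coeff m ≠ 0 := by
    intro h0
    have h1 := hmax n (by simp)
    rw [hlead, h0, map_one, map_zero] at h1
    exact absurd h1 (by simp)
  let a : ℕ → L := fun i => p.coeff i / p.coeff m
  have ham : A.valuation (a m) = 1 := by
    show A.valuation (p.coeff m / p.coeff m) = 1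
    rw [div_self hm0, map_one]
  have ha1 : ∀ i, i ≤ n → A.valuation (a i) ≤ 1 := by
    intro i hi
    show A.valuation (p.coeff i / p.coeff m) ≤ 1
    rw [map_div₀]
    have h0 : 0 < A.valuation (p.coeff m) := zero_lt_iff.2 ((Valuation.ne_zero_iff _).2 hm0)
    exact (div_le_one₀ h0).2 (hmax i (Finset.mem_range.2 (Nat.lt_succ_iff.2 hi)))
  have haA : ∀ i, i ≤ n → a i ∈ A := fun i hi => (ValuationSubring.valuation_le_one_iff A _).1 (ha1 i hi)
  let k := Nat.findGreatest (fun i => A.valuation (a i) = 1) n
  have hk : A.valuation (a k) = 1 :=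
    Nat.findGreatest_spec (P := fun i => A.valuation (a i) = 1) hm' ham
  have hkn : k ≤ n := Nat.findGreatest_le n
  have hgt : ∀ i, k < i → i ≤ n → A.valuation (a i) < 1 := fun i h1 h2 =>
    lt_of_le_of_ne (ha1 i h2) (Nat.findGreatest_is_greatest h1 h2)
  -- the equation
  have heq : ∑ i ∈ Finset.range (n + 1), algebraMap L E (a i) * z ^ i = 0 := by
    have h1 : aeval z p = 0 := minpoly.aeval L z
    rw [aeval_eq_sum_range, ← hn] at h1
    have h2 := congrArg (fun x => algebraMap L E (p.coeff m)⁻¹ * x) h1
    simp only [mul_zero] at h2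
    rw [Finset.mul_sum] at h2
    rw [← h2]
    refine Finset.sum_congr rfl fun i _ => ?_
    rw [Algebra.smul_def, ← mul_assoc, ← map_mul]
    congr 2
    show p.coeff i / p.coeff m = _
    rw [div_eq_inv_mul]
  let b : E := ∑ j ∈ Finset.range (n + 1 - k), algebraMap L E (a (k + j)) * z ^ j
  let c : E := -∑ i ∈ Finset.range k, algebraMap L E (a i) * z⁻¹ ^ (k - 1 - i)
  have hbc : z * b = c := by
    have h1 : n + 1 = k + (n + 1 - k) := by omega
    rw [h1, Finset.sum_range_add] at heq
    have h2 : ∑ j ∈ Finset.range (n + 1 - k), algebraMap L E (a (k + j)) * z ^ (k + j) = z ^ k * b := by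
      show _ = z ^ k * ∑ j ∈ Finset.range (n + 1 - k), algebraMap L E (a (k + j)) * z ^ j
      rw [Finset.mul_sum]
      refine Finset.sum_congr rfl fun j _ => ?_
      rw [pow_add]
      ring
    have h3 : z ^ k * c = -(z * ∑ i ∈ Finset.range k, algebraMap L E (a i) * z ^ i) := by
      show z ^ k * -∑ i ∈ Finset.range k, algebraMap L E (a i) * z⁻¹ ^ (k - 1 - i) = _
      rw [mul_neg, Finset.mul_sum, Finset.mul_sum]
      congr 1
      refine Finset.sum_congr rfl fun i hi => ?_
      have hik : i < k := Finset.mem_range.1 hi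
      have h4 : z ^ k = z ^ (i + 1) * z ^ (k - 1 - i) := by
        rw [← pow_add]
        congr 1
        omega
      rw [h4]
      have h5 : z ^ (k - 1 - i) * z⁻¹ ^ (k - 1 - i) = 1 := by
        rw [← mul_pow, mul_inv_cancel₀ hz, one_pow]
      calc z ^ (i + 1) * z ^ (k - 1 - i) * (algebraMap L E (a i) * z⁻¹ ^ (k - 1 - i))
          = z ^ (i + 1) * algebraMap L E (a i) * (z ^ (k - 1 - i) * z⁻¹ ^ (k - 1 - i)) := by ring
        _ = z * (algebraMap L E (a i) * z ^ i) := by rw [h5]; ring
    apply mul_left_cancel₀ (pow_ne_zero k hz)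
    rw [h3]
    have h6 : z ^ k * b = -∑ i ∈ Finset.range k, algebraMap L E (a i) * z ^ i := by
      rw [← h2]
      exact eq_neg_of_add_eq_zero_right heq
    calc z ^ k * (z * b) = z * (z ^ k * b) := by ring
      _ = -(z * ∑ i ∈ Finset.range k, algebraMap L E (a i) * z ^ i) := by rw [h6]; ring
  have hboth : ∀ V : ValuationSubring E, (∀ a ∈ A, algebraMap L E a ∈ V) → b ∈ V ∧ c ∈ V := by
    intro V hV
    rcases V.mem_or_inv_mem z with h1 | h1
    · have hb : b ∈ V := by
        refine sum_mem fun j hj => mul_mem (hV _ (haA _ ?_)) (pow_mem h1 j)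
        have := Finset.mem_range.1 hj
        omega
      exact ⟨hb, by rw [← hbc]; exact mul_mem h1 hb⟩
    · have hc : c ∈ V := by
        refine neg_mem (sum_mem fun i hi => mul_mem (hV _ (haA _ ?_)) (pow_mem h1 _))
        have := Finset.mem_range.1 hi
        omega
      refine ⟨?_, hc⟩
      have : b = z⁻¹ * c := by
        rw [← hbc, inv_mul_cancel_left₀ hz]
      rw [this]
      exact mul_mem h1 hc
  refine ⟨b, c, pl_integral fun V hV => (hboth V hV).1, pl_integral fun V hV => (hboth V hV).2, hbc,
    fun V hV hzV hlt => ?_⟩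
  have hz1 : V.valuation z ≤ 1 := (ValuationSubring.valuation_le_one_iff V _).2 hzV
  have h1 : n + 1 - k = (n - k) + 1 := by omega
  have h2 : b = (∑ j ∈ Finset.range (n - k), algebraMap L E (a (k + (j + 1))) * z ^ (j + 1)) +
      algebraMap L E (a k) := by
    show ∑ j ∈ Finset.range (n + 1 - k), algebraMap L E (a (k + j)) * z ^ j = _
    rw [h1, Finset.sum_range_succ', add_zero, pow_zero, mul_one]
  have h3 : V.valuation (∑ j ∈ Finset.range (n - k), algebraMap L E (a (k + (j + 1))) * z ^ (j + 1)) < 1 := by
    refine Valuation.map_sum_lt _ one_ne_zero fun j hj => ?_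
    have hj' := Finset.mem_range.1 hj
    rw [map_mul, map_pow]
    have h4 : V.valuation (algebraMap L E (a (k + (j + 1)))) < 1 :=
      (pl_lt hV _).1 (hgt _ (by omega) (by omega))
    calc V.valuation (algebraMap L E (a (k + (j + 1)))) * V.valuation z ^ (j + 1)
        ≤ V.valuation (algebraMap L E (a (k + (j + 1)))) * 1 := by gcongr; exact pow_le_one₀ zero_le hz1
      _ < 1 := by rw [mul_one]; exact h4
  have h5 : V.valuation (algebraMap L E (a k)) < 1 := by
    have h6 : algebraMap L E (a k) =
      b - ∑ j ∈ Finset.range (n - k), algebraMap L E (a (k + (j + 1))) * z ^ (j + 1) := by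
      rw [h2]; ring
    rw [h6]
    exact (V.valuation.map_sub _ _).trans_lt (max_lt hlt h3)
  exact absurd hk ((pl_lt hV _).2 h5).ne

/-- The elements of value `< 1` of the integral closure. -/
def plI {A : ValuationSubring L} (V : ValuationSubring E) (hV : ∀ a : L, a ∈ A ↔ algebraMap L E a ∈ V) :
    Ideal (integralClosure A E) where
  carrier := {b | V.valuation (b : E) < 1}
  add_mem' := fun ha hb => (V.valuation.map_add _ _).trans_lt (max_lt ha hb)
  zero_mem' := by
    show V.valuation ((0 : integralClosure A E) : E) < 1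
    rw [ZeroMemClass.coe_zero, map_zero]
    exact zero_lt_one
  smul_mem' := fun c x hx => by
    have hc : V.valuation (c : E) ≤ 1 :=
      (ValuationSubring.valuation_le_one_iff V _).2 (pl_mem_of_integral (fun a => (hV a).1) c.2)
    show V.valuation ((c : E) * x) < 1
    rw [map_mul]
    exact mul_lt_one_of_nonneg_of_lt_one_right hc zero_le hx

lemma mem_plI {A : ValuationSubring L} {V : ValuationSubring E} {hV : ∀ a : L, a ∈ A ↔ algebraMap L E a ∈ V}
    {b : integralClosure A E} : b ∈ plI V hV ↔ V.valuation (b : E) < 1 := Iff.rfl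

lemma plI_prime {A : ValuationSubring L} (V : ValuationSubring E)
    (hV : ∀ a : L, a ∈ A ↔ algebraMap L E a ∈ V) : (plI V hV).IsPrime := by
  have hle : ∀ c : integralClosure A E, V.valuation (c : E) ≤ 1 := fun c =>
    (ValuationSubring.valuation_le_one_iff V _).2 (pl_mem_of_integral (fun a => (hV a).1) c.2)
  refine ⟨?_, ?_⟩
  · rw [Ideal.ne_top_iff_one, mem_plI, OneMemClass.coe_one, map_one]
    exact lt_irrefl _
  · intro x y hxy
    rw [mem_plI, MulMemClass.coe_mul, map_mul] at hxy
    by_contra hcon
    push Not at hcon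
    have h1 : V.valuation (x : E) = 1 := le_antisymm (hle x) (not_lt.1 fun h => hcon.1 (mem_plI.2 h))
    have h2 : V.valuation (y : E) = 1 := le_antisymm (hle y) (not_lt.1 fun h => hcon.2 (mem_plI.2 h))
    rw [h1, h2, mul_one] at hxy
    exact lt_irrefl _ hxy

lemma plI_maximal {A : ValuationSubring L} (V : ValuationSubring E)
    (hV : ∀ a : L, a ∈ A ↔ algebraMap L E a ∈ V) : (plI V hV).IsMaximal := by
  have := plI_prime V hV
  apply Ideal.isMaximal_of_isIntegral_of_isMaximal_comap (R := A)
  have h1 : (plI V hV).comap (algebraMap A (integralClosure A E)) = IsLocalRing.maximalIdeal A := by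
    ext a
    rw [Ideal.mem_comap, mem_plI]
    rw [← ValuationSubring.coe_mem_nonunits_iff, ValuationSubring.mem_nonunits_iff]
    exact (pl_lt hV _).symm
  rw [h1]
  infer_instance

variable {M : Type*} [Field M] [Algebra L M] [IsAlgClosed M]

/-- Each valuation ring `O` of the finite extension `E` of `L` which has the same intersection with `L` as the
valuation ring `w` of the algebraically closed field `M` containing `L` is the inverse image of `w` by an
embedding of `E` over `L`. -/
theorem pl_core [FiniteDimensional L E] (w : ValuationSubring M) (O : ValuationSubring E)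
    (h : ∀ z : L, algebraMap L E z ∈ O ↔ algebraMap L M z ∈ w) :
    ∃ φ : E →ₐ[L] M, ∀ z : E, z ∈ O ↔ φ z ∈ w := by
  let A : ValuationSubring L := O.comap (algebraMap L E)
  have hO : ∀ a : L, a ∈ A ↔ algebraMap L E a ∈ O := fun _ => Iff.rfl
  have hw : ∀ a : L, a ∈ A ↔ algebraMap L M a ∈ w := fun a => h a
  let W : (E →ₐ[L] M) → ValuationSubring E := fun φ => w.comap (φ : E →+* M)
  have hW : ∀ φ, ∀ a : L, a ∈ A ↔ algebraMap L E a ∈ W φ := by
    intro φ a
    rw [hw]
    show _ ↔ φ (algebraMap L E a) ∈ w
    rw [φ.commutes]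
  have hWv : ∀ φ, ∀ x : E, (W φ).valuation x < 1 ↔ w.valuation (φ x) < 1 := by
    intro φ x
    rw [← ValuationSubring.mem_nonunits_iff, ← ValuationSubring.mem_nonunits_iff,
      ValuationSubring.mem_nonunits_iff_or, ValuationSubring.mem_nonunits_iff_or, ← map_inv₀,
      map_eq_zero]
    rfl
  have : Fintype (E →ₐ[L] M) := Fintype.ofFinite _
  let φ₀ : E →ₐ[L] M := IsAlgClosed.lift
  -- prime avoidance
  obtain ⟨φ, -, hφ⟩ : ∃ φ ∈ (Finset.univ : Finset (E →ₐ[L] M)), plI O hO ≤ plI (W φ) (hW φ) := by
    refine (Ideal.subset_union_prime (f := fun φ => plI (W φ) (hW φ)) φ₀ φ₀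
      (fun φ _ _ _ => plI_prime (W φ) (hW φ))).1 ?_
    intro b hb
    by_contra hcon
    have hcon' : ∀ φ : E →ₐ[L] M, ¬ w.valuation (φ b) < 1 := by
      intro φ hlt
      apply hcon
      simp only [Finset.coe_univ, Set.mem_univ, Set.iUnion_true, Set.mem_iUnion]
      exact ⟨φ, (hWv φ b).2 hlt⟩
    have hint : IsIntegral A b := Algebra.IsIntegral.isIntegral b
    set p := minpoly A b with hp
    have hpE : minpoly L (b : E) = p.map (algebraMap A L) :=
      minpoly.isIntegrallyClosed_eq_field_fractions (R := A) (S := integralClosure A E) L E hint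
    -- the constant coefficient is in the ideal
    have h1 : aeval b p.divX * b + algebraMap A (integralClosure A E) (p.coeff 0) = 0 := by
      have h2 : aeval b (p.divX * X + C (p.coeff 0)) = 0 := by
        rw [divX_mul_X_add]
        exact minpoly.aeval A b
      rw [map_add, map_mul, aeval_X, aeval_C] at h2
      exact h2
    have h3 : algebraMap A (integralClosure A E) (p.coeff 0) ∈ plI O hO := by
      rw [eq_neg_of_add_eq_zero_right h1]
      exact (plI O hO).neg_mem ((plI O hO).mul_mem_left _ hb)
    have h4 : O.valuation (algebraMap L E (p.coeff 0 : L)) < 1 := h3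
    -- its value
    have h5 : w.valuation (algebraMap L M (p.coeff 0 : L)) < 1 := by
      rw [← ValuationSubring.mem_nonunits_iff, ValuationSubring.mem_nonunits_iff_or]
      rw [← ValuationSubring.mem_nonunits_iff, ValuationSubring.mem_nonunits_iff_or] at h4
      rw [map_eq_zero, ← map_inv₀, ← h]
      rwa [map_eq_zero, ← map_inv₀] at h4
    set q : M[X] := (minpoly L (b : E)).map (algebraMap L M) with hq
    have hqm : q.Monic := (minpoly.monic (Algebra.IsIntegral.isIntegral (b : E))).map _
    have hprod : q = (q.roots.map fun r => X - C r).prod := by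
      have := (IsAlgClosed.splits q).eq_prod_roots
      rw [hqm.leadingCoeff, C_1, one_mul] at this
      exact this
    have h6 : q.eval 0 = algebraMap L M (p.coeff 0 : L) := by
      rw [← coeff_zero_eq_eval_zero, hq, coeff_map, hpE, coeff_map]
      rfl
    have h7 : ∀ r ∈ q.roots, ¬ w.valuation (0 - r) < 1 := by
      intro r hr
      have h8 : r ∈ (minpoly L (b : E)).rootSet M := by
        rw [mem_rootSet]
        refine ⟨minpoly.ne_zero (Algebra.IsIntegral.isIntegral (b : E)), ?_⟩
        have := (mem_roots'.1 hr).2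
        rw [IsRoot.def, hq, eval_map_algebraMap] at this
        exact this
      rw [← Algebra.IsAlgebraic.range_eval_eq_rootSet_minpoly (F := L) (K := E) M (b : E)] at h8
      obtain ⟨φ, rfl⟩ := h8
      rw [zero_sub, Valuation.map_neg]
      exact hcon' φ
    rw [← h6, hprod, eval_multiset_prod, Multiset.map_map, map_multiset_prod, Multiset.map_map] at h5
    refine absurd h5 (not_lt.2 ?_)
    have hall : ∀ s : Multiset M, (∀ r ∈ s, ¬ w.valuation (0 - r) < 1) →
        1 ≤ (s.map (⇑w.valuation ∘ (eval 0 ∘ fun r => X - C r))).prod := by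
      intro s
      induction s using Multiset.induction_on with
      | empty => intro _; rw [Multiset.map_zero, Multiset.prod_zero]
      | cons a s ih =>
        intro hs
        rw [Multiset.map_cons, Multiset.prod_cons]
        refine one_le_mul_of_one_le_of_one_le ?_ (ih fun r hr => hs r (Multiset.mem_cons_of_mem hr))
        have := not_lt.1 (hs a (Multiset.mem_cons_self a s))
        simpa using this
    exact hall _ h7
  have heq : plI O hO = plI (W φ) (hW φ) :=
    (plI_maximal O hO).eq_of_le (plI_prime (W φ) (hW φ)).ne_top hφ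
  have heq' : ∀ b : E, IsIntegral A b → (O.valuation b < 1 ↔ w.valuation (φ b) < 1) := by
    intro b hb
    have h1 : (⟨b, hb⟩ : integralClosure A E) ∈ plI O hO ↔
      (⟨b, hb⟩ : integralClosure A E) ∈ plI (W φ) (hW φ) := by rw [heq]
    rw [← hWv]
    exact h1
  have hOle : ∀ b : E, IsIntegral A b → O.valuation b ≤ 1 := fun b hb =>
    (ValuationSubring.valuation_le_one_iff O _).2 (pl_mem_of_integral (fun a => (hO a).1) hb)
  have hWle : ∀ b : E, IsIntegral A b → w.valuation (φ b) ≤ 1 := fun b hb =>
    (ValuationSubring.valuation_le_one_iff w _).2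
      (show b ∈ W φ from pl_mem_of_integral (fun a => (hW φ a).1) hb)
  refine ⟨φ, fun z => ?_⟩
  by_cases hz0 : z = 0
  · rw [hz0, map_zero]
    exact ⟨fun _ => w.zero_mem, fun _ => O.zero_mem⟩
  constructor
  · intro hz
    obtain ⟨b, c, hb, hc, hbc, hV⟩ := pl_frac A z hz0
    have h1 : w.valuation (φ b) = 1 :=
      le_antisymm (hWle b hb) (not_lt.1 fun hlt => hV O hO hz ((heq' b hb).2 hlt))
    have h2 : w.valuation (φ z) = w.valuation (φ c) := by
      rw [← hbc, map_mul, map_mul, h1, mul_one]
    rw [← ValuationSubring.valuation_le_one_iff, h2]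
    exact hWle c hc
  · intro hz
    by_contra hz'
    have hzi : z⁻¹ ∈ O := (O.mem_or_inv_mem z).resolve_left hz'
    have hzi' : O.valuation z⁻¹ < 1 := by
      rw [← ValuationSubring.mem_nonunits_iff, ValuationSubring.mem_nonunits_iff_or, inv_inv]
      exact Or.inr hz'
    obtain ⟨b, c, hb, hc, hbc, hV⟩ := pl_frac A z⁻¹ (inv_ne_zero hz0)
    have h1 : O.valuation b = 1 := le_antisymm (hOle b hb) (not_lt.1 (hV O hO hzi))
    have h2 : O.valuation c < 1 := by
      rw [← hbc, map_mul, h1, mul_one]
      exact hzi'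
    have h3 : w.valuation (φ b) = 1 :=
      le_antisymm (hWle b hb) (not_lt.1 fun hlt => hV O hO hzi ((heq' b hb).2 hlt))
    have h4 : w.valuation (φ z⁻¹) < 1 := by
      have h5 := (heq' c hc).1 h2
      rw [← hbc, map_mul, map_mul, h3, mul_one] at h5
      exact h5
    rw [map_inv₀, ← ValuationSubring.mem_nonunits_iff, ValuationSubring.mem_nonunits_iff_or, inv_inv] at h4
    rcases h4 with h4 | h4
    · rw [inv_eq_zero, map_eq_zero] at h4
      exact hz0 h4
    · exact h4 hz

end Core

end Pool.Agent.Lib.MP_89bcae_ag.Zs
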