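import Mathlib
import Pool.Agent.Lib.MP_89bcae_ag.Tk.K054
import Pool.Agent.Lib.MP_89bcae_ag.Z.Ctx
import Pool.Agent.Lib.MP_89bcae_ag.Z.PlCore

/-!
# Each valuation ring of a finite extension of `L = F(t)` is given by a place of `L` and an embedding
-/

attribute [local instance 100000] Pool.Agent.Lib.MP_89bcae_ag.Brt.tffFields
attribute [local instance 100000] Pool.Agent.Lib.MP_89bcae_ag.Wt.ifrNF Pool.Agent.Lib.MP_89bcae_ag.Wt.iddNF

open Polynomial IsDedekindDomain

open scoped Classical

namespace Pool.Agent.Lib.MP_89bcae_ag.Zs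

open Pool.Agent.Lib.MP_89bcae_ag.Sup (LocCtx plc exists_locCtx)

section W

variable {M : Type*} [Field M]

/-- The valuation ring of a nonarchimedean absolute value. -/
def plW (v : AbsoluteValue M ℝ) (hv : ∀ x y, v (x + y) ≤ max (v x) (v y)) : ValuationSubring M where
  carrier := {x | v x ≤ 1}
  mul_mem' := fun {x y} hx hy => by
    show v (x * y) ≤ 1
    rw [map_mul]
    exact mul_le_one₀ hx (v.nonneg y) hy
  one_mem' := (map_one v).le
  add_mem' := fun {x y} hx hy => (hv x y).trans (max_le hx hy)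
  zero_mem' := by
    show v 0 ≤ 1
    rw [map_zero]
    exact zero_le_one
  neg_mem' := fun {x} hx => by
    show v (-x) ≤ 1
    rw [AbsoluteValue.map_neg]
    exact hx
  mem_or_inv_mem' := fun x => by
    show v x ≤ 1 ∨ v x⁻¹ ≤ 1
    rcases le_or_gt (v x) 1 with h | h
    · exact Or.inl h
    · right
      rw [map_inv₀]
      exact inv_le_one_of_one_le₀ h.le

lemma mem_plW {v : AbsoluteValue M ℝ} {hv : ∀ x y, v (x + y) ≤ max (v x) (v y)} {x : M} :
    x ∈ plW v hv ↔ v x ≤ 1 := Iff.rfl

lemma plW_lt {v : AbsoluteValue M ℝ} {hv : ∀ x y, v (x + y) ≤ max (v x) (v y)} {x : M} :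
    (plW v hv).valuation x < 1 ↔ v x < 1 := by
  rw [← ValuationSubring.mem_nonunits_iff, ValuationSubring.mem_nonunits_iff_or, mem_plW, map_inv₀]
  constructor
  · rintro (h | h)
    · rw [h, map_zero]
      exact zero_lt_one
    · by_contra h1
      exact h (inv_le_one_of_one_le₀ (not_lt.1 h1))
  · intro h
    by_cases hx : x = 0
    · exact Or.inl hx
    · right
      have h0 : 0 < v x := v.pos hx
      intro h1
      exact absurd ((one_le_inv_iff₀.2 ⟨h0, h.le⟩).antisymm' h1) (by
        intro h2
        rw [inv_eq_one] at h2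
        exact h.ne h2)

end W

section Place

variable {F L : Type} [Field F] [Field L] [Algebra F[X] L] [IsFractionRing F[X] L]

lemma pl_val {N : Type*} [Field N] {V : ValuationSubring N} {g : F[X] →+* N} (hc : ∀ c, g (C c) ∈ V)
    {a : F} (ha : V.valuation (g (X - C a)) < 1) (p : F[X]) :
    V.valuation (g p) ≤ 1 ∧ (p.eval a ≠ 0 → V.valuation (g p) = 1) ∧
      (p.eval a = 0 → V.valuation (g p) < 1) := by
  have hX : g X ∈ V := by
    have h1 : g X = g (X - C a) + g (C a) := by rw [← map_add, sub_add_cancel]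
    rw [h1]
    exact add_mem ((ValuationSubring.valuation_le_one_iff V _).1 ha.le) (hc a)
  have hall : ∀ p : F[X], g p ∈ V := by
    intro p
    induction p using Polynomial.induction_on' with
    | add p q hp hq => rw [map_add]; exact add_mem hp hq
    | monomial n c =>
      rw [← C_mul_X_pow_eq_monomial, map_mul, map_pow]
      exact mul_mem (hc c) (pow_mem hX n)
  have hle : ∀ p : F[X], V.valuation (g p) ≤ 1 := fun p =>
    (ValuationSubring.valuation_le_one_iff V _).2 (hall p)
  have hC : ∀ c : F, c ≠ 0 → V.valuation (g (C c)) = 1 := by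
    intro c h0
    have h1 : V.valuation (g (C c)) * V.valuation (g (C c⁻¹)) = 1 := by
      rw [← map_mul, ← map_mul, ← C_mul, mul_inv_cancel₀ h0, C_1, map_one, map_one]
    refine le_antisymm (hle _) (not_lt.1 fun h2 => ?_)
    have h3 : V.valuation (g (C c)) * V.valuation (g (C c⁻¹)) < 1 :=
      mul_lt_one_of_nonneg_of_lt_one_left zero_le h2 (hle _)
    exact h3.ne h1
  obtain ⟨q, hq⟩ := X_sub_C_dvd_sub_C_eval (a := a) (p := p)
  have hp : p = (X - C a) * q + C (p.eval a) := by rw [← hq, sub_add_cancel]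
  have h1 : V.valuation (g ((X - C a) * q)) < 1 := by
    rw [map_mul, map_mul]
    exact mul_lt_one_of_nonneg_of_lt_one_left zero_le ha (hle _)
  refine ⟨hle p, fun h => ?_, fun h => ?_⟩
  · rw [hp, map_add, Valuation.map_add_eq_of_lt_right]
    · exact hC _ h
    · rw [hC _ h]
      exact h1
  · rw [hp, h, C_0, add_zero]
    exact h1

lemma pl_mem_iff {N : Type*} [Field N] {V : ValuationSubring N} (u : L →+* N) {s : L →+* L}
    (hss : ∀ z, s (s z) = z) (hc : ∀ c : F, u (s (algebraMap F[X] L (C c))) ∈ V) {a : F}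
    (ha : V.valuation (u (s (algebraMap F[X] L (X - C a)))) < 1) (z : L) :
    u z ∈ V ↔ ∃ p q : F[X], q.eval a ≠ 0 ∧ s z = algebraMap F[X] L p / algebraMap F[X] L q := by
  let g : F[X] →+* N := u.comp (s.comp (algebraMap F[X] L))
  have hg := fun p => pl_val (g := g) hc ha p
  have hz : ∀ p q : F[X], s z = algebraMap F[X] L p / algebraMap F[X] L q → u z = g p / g q := by
    intro p q h
    rw [← hss z, h, map_div₀, map_div₀]
    rfl
  constructor
  · intro hV
    obtain ⟨p, q, hpq, hmk⟩ := IsFractionRing.exists_reduced_fraction (A := F[X]) (s z)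
    rw [IsFractionRing.mk'_eq_div] at hmk
    refine ⟨p, q, fun h0 => ?_, hmk.symm⟩
    have hp : p.eval a ≠ 0 := by
      intro h1
      have h2 := hpq (dvd_iff_isRoot.2 h1) (dvd_iff_isRoot.2 h0)
      exact (prime_X_sub_C a).not_isUnit h2
    have h2 := hz p q hmk.symm
    have hgq : g (q : F[X]) ≠ 0 := by
      have h3 : Function.Injective g := u.injective.comp (s.injective.comp (IsFractionRing.injective F[X] L))
      exact (map_ne_zero_iff g h3).2 (nonZeroDivisors.ne_zero q.2)
    have h4 : u z * g (q : F[X]) = g p := by rw [h2, div_mul_cancel₀ _ hgq]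
    have h5 : V.valuation (g p) < 1 := by
      rw [← h4, map_mul]
      exact mul_lt_one_of_nonneg_of_lt_one_right ((ValuationSubring.valuation_le_one_iff V _).2 hV) zero_le
        ((hg _).2.2 h0)
    exact h5.ne ((hg p).2.1 hp)
  · rintro ⟨p, q, hq, h⟩
    rw [hz p q h, ← ValuationSubring.valuation_le_one_iff, map_div₀, (hg q).2.1 hq, div_one]
    exact (hg p).1

/-- The automorphism `t ↦ 1 / t` of `F(t)`. -/
lemma exists_inversion (F L : Type) [Field F] [Field L] [Algebra F[X] L] [IsFractionRing F[X] L] :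
    ∃ s : L →+* L, (∀ z, s (s z) = z) ∧ (∀ c : F, s (algebraMap F[X] L (C c)) = algebraMap F[X] L (C c)) ∧
      s (algebraMap F[X] L X) = (algebraMap F[X] L X)⁻¹ := by
  set t : L := algebraMap F[X] L X with ht
  have ht0 : t ≠ 0 := (map_ne_zero_iff _ (IsFractionRing.injective F[X] L)).2 X_ne_zero
  let g : F[X] →+* L := eval₂RingHom ((algebraMap F[X] L).comp C) t⁻¹
  have hg : Function.Injective g := by
    rw [injective_iff_map_eq_zero]
    intro p hp
    let _ : Invertible t⁻¹ := ⟨t, mul_inv_cancel₀ ht0, inv_mul_cancel₀ ht0⟩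
    have h1 : eval₂ ((algebraMap F[X] L).comp C) (⅟t⁻¹) (reverse p) = 0 :=
      (eval₂_reverse_eq_zero_iff ((algebraMap F[X] L).comp C) t⁻¹ p).2 hp
    have h2 : eval₂ ((algebraMap F[X] L).comp C) t (reverse p) = algebraMap F[X] L (reverse p) := by
      rw [ht, ← hom_eval₂, eval₂_C_X]
    have h3 : algebraMap F[X] L (reverse p) = 0 := h2.symm.trans h1
    have h4 : reverse p = 0 := (map_eq_zero_iff _ (IsFractionRing.injective F[X] L)).1 h3
    exact reverse_eq_zero.1 h4
  let s : L →+* L := IsFractionRing.lift hg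
  have hs : ∀ p : F[X], s (algebraMap F[X] L p) = g p := fun p => IsFractionRing.lift_algebraMap hg p
  have hsC : ∀ c : F, s (algebraMap F[X] L (C c)) = algebraMap F[X] L (C c) := by
    intro c
    rw [hs]
    exact eval₂_C _ _
  have hsX : s t = t⁻¹ := by
    rw [ht, hs]
    exact eval₂_X _ _
  refine ⟨s, fun z => ?_, hsC, hsX⟩
  have h1 : s.comp s = RingHom.id L := by
    apply IsLocalization.ringHom_ext (nonZeroDivisors F[X])
    apply Polynomial.ringHom_ext
    · intro c
      show s (s (algebraMap F[X] L (C c))) = algebraMap F[X] L (C c)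
      rw [hsC, hsC]
    · show s (s t) = t
      rw [hsX, map_inv₀, hsX, inv_inv]
  exact congrArg (fun f : L →+* L => f z) h1

variable {Ω : Type} [Field Ω] [Algebra L Ω]

lemma exists_center [IsAlgClosed F] {E : Type} [Field E] [Algebra L E] [Algebra.IsAlgebraic L E]
    (O : ValuationSubring E) (hO : O ≠ ⊤) {s : L →+* L}
    (hss : ∀ z, s (s z) = z) (hc : ∀ c : F, algebraMap L E (s (algebraMap F[X] L (C c))) ∈ O)
    (hst : algebraMap L E (s (algebraMap F[X] L X)) ∈ O) :
    ∃ a : F, O.valuation (algebraMap L E (s (algebraMap F[X] L (X - C a)))) < 1 := by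
  by_contra hcon
  push Not at hcon
  let g : F[X] →+* E := (algebraMap L E).comp (s.comp (algebraMap F[X] L))
  have hall : ∀ p : F[X], g p ∈ O := by
    intro p
    induction p using Polynomial.induction_on' with
    | add p q hp hq => rw [map_add]; exact add_mem hp hq
    | monomial n c =>
      rw [← C_mul_X_pow_eq_monomial, map_mul, map_pow]
      exact mul_mem (hc c) (pow_mem hst n)
  have hle : ∀ p : F[X], O.valuation (g p) ≤ 1 := fun p =>
    (ValuationSubring.valuation_le_one_iff O _).2 (hall p)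
  have hC : ∀ c : F, c ≠ 0 → O.valuation (g (C c)) = 1 := by
    intro c h0
    have h1 : O.valuation (g (C c)) * O.valuation (g (C c⁻¹)) = 1 := by
      rw [← map_mul, ← map_mul, ← C_mul, mul_inv_cancel₀ h0, C_1, map_one, map_one]
    refine le_antisymm (hle _) (not_lt.1 fun h2 => ?_)
    have h3 : O.valuation (g (C c)) * O.valuation (g (C c⁻¹)) < 1 :=
      mul_lt_one_of_nonneg_of_lt_one_left zero_le h2 (hle _)
    exact h3.ne h1
  have hlin : ∀ a : F, O.valuation (g (X - C a)) = 1 := fun a => le_antisymm (hle _) (hcon a)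
  have hone : ∀ p : F[X], p ≠ 0 → O.valuation (g p) = 1 := by
    intro p hp
    rw [(IsAlgClosed.splits p).eq_prod_roots, map_mul, map_mul, hC _ (leadingCoeff_ne_zero.2 hp), one_mul,
      map_multiset_prod, Multiset.map_map, map_multiset_prod, Multiset.map_map]
    apply Multiset.prod_eq_one
    intro x hx
    obtain ⟨a, -, rfl⟩ := Multiset.mem_map.1 hx
    exact hlin a
  apply hO
  ext x
  refine ⟨fun _ => ValuationSubring.mem_top x, fun _ => ?_⟩
  refine pl_mem (R := L) (fun z => ?_) (Algebra.IsIntegral.isIntegral (R := L) x)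
  obtain ⟨p, q, hq, h⟩ := IsFractionRing.div_surjective (A := F[X]) (s z)
  have h1 : algebraMap L E z = g p / g q := by
    rw [← hss z, ← h, map_div₀, map_div₀]
    rfl
  rw [h1, ← ValuationSubring.valuation_le_one_iff, map_div₀, hone q (nonZeroDivisors.ne_zero hq), div_one]
  exact hle p

theorem exists_place_aux [IsAlgClosed F] [IsAlgClosure L Ω] {E : Type} [Field E] [Algebra L E]
    [FiniteDimensional L E] [Algebra E Ω] [IsScalarTower L E Ω] (O : ValuationSubring E) (hF : ∀ c : F, algebraMap L E (algebraMap F[X] L (C c)) ∈ O) (hO : O ≠ ⊤)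
    {s : L →+* L} (hss : ∀ z, s (s z) = z)
    (hsC : ∀ c : F, s (algebraMap F[X] L (C c)) = algebraMap F[X] L (C c))
    (hst : algebraMap L E (s (algebraMap F[X] L X)) ∈ O) :
    ∃ (K M : Type) (_ : Field K) (_ : Field M) (_ : Algebra K M) (_ : IsAlgClosure K M) (i : L →+* K)
      (j : Ω →+* M) (v : AbsoluteValue M ℝ), (∀ z, j (algebraMap L Ω z) = algebraMap K M (i z)) ∧
      IsPlace F i v ∧ ∀ z : E, z ∈ O ↔ v (j (algebraMap E Ω z)) ≤ 1 := by
  obtain ⟨a, ha⟩ := exists_center O hO hss (fun c => by rw [hsC]; exact hF c) hst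
  let K : Type := (plc a).adicCompletion L
  let M : Type := AlgebraicClosure K
  let _ : Algebra F M := ((algebraMap K M).comp ((algebraMap F[X] K).comp Polynomial.C)).toAlgebra
  obtain ⟨v, hv, hval, hinv, -⟩ := exists_locCtx (L := L) (M := M) a (fun _ => rfl)
  let i : L →+* K := (algebraMap L K).comp s
  have hi : ∀ p : F[X], i (s (algebraMap F[X] L p)) = algebraMap F[X] K p := by
    intro p
    show algebraMap L K (s (s (algebraMap F[X] L p))) = _
    rw [hss, ← IsScalarTower.algebraMap_apply F[X] L K]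
  have hiC : ∀ c : F, i (algebraMap F[X] L (C c)) = algebraMap F[X] K (C c) := by
    intro c
    rw [← hsC, hi]
  have hsub : algebraMap K M (algebraMap F[X] K (X - C a)) =
      algebraMap K M (algebraMap F[X] K X) - algebraMap F M a := by
    rw [map_sub, map_sub]
    rfl
  have hplace : IsPlace F i v := by
    refine ⟨hv.nonarch, fun c hc => ?_, fun x hx => ?_, hinv, s (algebraMap F[X] L (X - C a)), ?_, ?_,
      fun x hx => ?_⟩
    · rw [hiC]
      exact hv.const c hc
    · obtain ⟨c, hc⟩ := hv.residue x hx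
      refine ⟨c, ?_⟩
      rw [hiC]
      exact hc
    · refine (map_ne_zero_iff s s.injective).2 ?_
      exact (map_ne_zero_iff _ (IsFractionRing.injective F[X] L)).2 (X_sub_C_ne_zero a)
    · rw [hi, hsub]
      exact hv.lt_one
    · obtain ⟨n, hn⟩ := hval x hx
      refine ⟨n, ?_⟩
      rw [hi, hsub]
      exact hn
  let _ : Algebra L M := ((algebraMap K M).comp i).toAlgebra
  have hLM : ∀ z : L, algebraMap L M z = algebraMap K M (i z) := fun _ => rfl
  have hMc : IsAlgClosed M := IsAlgClosure.isAlgClosed K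
  obtain ⟨φ, hφ⟩ := pl_core (L := L) (E := E) (M := M) (plW v hv.nonarch) O (fun z => by
    rw [pl_mem_iff (F := F) (algebraMap L E) hss (fun c => by rw [hsC]; exact hF c) ha z]
    rw [pl_mem_iff (F := F) (V := plW v hv.nonarch) (algebraMap L M) hss (a := a) (fun c => ?_) ?_ z]
    · rw [plW_lt, hLM, hi, hsub]
      exact hv.lt_one
    · rw [mem_plW, hLM, hi]
      by_cases h0 : c = 0
      · rw [h0, C_0, map_zero, map_zero, map_zero]
        exact zero_le_one
      · exact (hv.const c h0).le)
  let _ : Algebra E M := (φ : E →+* M).toAlgebra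
  have halg : Algebra.IsAlgebraic L Ω := IsAlgClosure.isAlgebraic
  have halg' : Algebra.IsAlgebraic E Ω := Algebra.IsAlgebraic.tower_top (K := L) E
  let j : Ω →ₐ[E] M := IsAlgClosed.lift
  have hj : ∀ z : E, j (algebraMap E Ω z) = φ z := fun z => j.commutes z
  refine ⟨K, M, inferInstance, inferInstance, inferInstance, inferInstance, i, (j : Ω →+* M), v, fun z => ?_,
    hplace, fun z => ?_⟩
  · rw [IsScalarTower.algebraMap_apply L E Ω]
    show j _ = _
    rw [hj, φ.commutes]
    exact hLM z
  · show _ ↔ v (j (algebraMap E Ω z)) ≤ 1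
    rw [hj]
    exact hφ z

/-- Each valuation ring `O ≠ E` containing `F` of the finite extension `E` of `L = F(t)` is the inverse image of the
valuation ring of `M` by the embedding `j`, for some place of `L`. -/
theorem exists_place [IsAlgClosed F] [IsAlgClosure L Ω] {E : Type} [Field E] [Algebra L E]
    [FiniteDimensional L E] [Algebra E Ω] [IsScalarTower L E Ω] (O : ValuationSubring E) (hF : ∀ c : F, algebraMap L E (algebraMap F[X] L (C c)) ∈ O) (hO : O ≠ ⊤) :
    ∃ (K M : Type) (_ : Field K) (_ : Field M) (_ : Algebra K M) (_ : IsAlgClosure K M) (i : L →+* K)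
      (j : Ω →+* M) (v : AbsoluteValue M ℝ), (∀ z, j (algebraMap L Ω z) = algebraMap K M (i z)) ∧
      IsPlace F i v ∧ ∀ z : E, z ∈ O ↔ v (j (algebraMap E Ω z)) ≤ 1 := by
  rcases O.mem_or_inv_mem (algebraMap L E (algebraMap F[X] L X)) with h | h
  · exact exists_place_aux O hF hO (s := RingHom.id L) (fun _ => rfl) (fun _ => rfl) h
  · obtain ⟨s, h1, h2, h3⟩ := exists_inversion F L
    refine exists_place_aux O hF hO h1 h2 ?_
    rw [h3, map_inv₀]
    exact h

end Place

end Pool.Agent.Lib.MP_89bcae_ag.Zs
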