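import Mathlib
import Pool.Agent.Lib.MP_89bcae_ag.Z.L1
import Pool.Agent.Lib.MP_89bcae_ag.Z.PL
import Pool.Agent.Lib.MP_89bcae_ag.Zc.Fin

/-!
# From the local triviality to the divisibility of the values
-/

attribute [local instance 100000] Pool.Agent.Lib.MP_89bcae_ag.Brt.tffFields
attribute [local instance 100000] Pool.Agent.Lib.MP_89bcae_ag.Wt.ifrNF Pool.Agent.Lib.MP_89bcae_ag.Wt.iddNF

open Polynomial IsDedekindDomain

open scoped Classical

namespace Pool.Agent.Lib.MP_89bcae_ag.Zs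

open Pool.Agent.Lib.MP_89bcae_ag.Wt Pool.Agent.Lib.MP_89bcae_ag.Wt.Lns Pool.Agent.Lib.MP_89bcae_ag.Bra
  Pool.Agent.Lib.MP_89bcae_ag.Brt Pool.Agent.Lib.MP_89bcae_ag.Zc

section

variable {F L Ω K M : Type} [Field F] [IsAlgClosed F] [Field L] [Algebra F[X] L] [Field Ω] [Algebra L Ω]
  [IsAlgClosure L Ω] [Field K] [Field M] [Algebra K M] [IsAlgClosure K M] {ℓ : ℕ} {f : L[X]}
  [hG : IsGood ℓ (f.map (algebraMap L Ω))]

/-- The functions `z` attached to the cochain `c`. -/
def KumD (ζ : L) (z : Ω → Ω) (c : (Ω ≃ₐ[L] Ω) → JacOver ℓ f Ω) : Prop :=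
  (∀ θ, (f.map (algebraMap L Ω)).eval θ = 0 → z θ ≠ 0) ∧
    ∀ σ : Ω ≃ₐ[L] Ω, ∃ n : Ω → ℤ,
      (∀ θ, (f.map (algebraMap L Ω)).eval θ = 0 → σ (z θ) = (algebraMap L Ω ζ) ^ n (σ θ) * z (σ θ)) ∧
      c σ = (rm n : Jac ℓ (f.map (algebraMap L Ω))) ∧ (ℓ : ℤ) ∣ ∑ θ ∈ (f.map (algebraMap L Ω)).roots.toFinset, n θ

omit [Algebra F[X] L] hG [IsAlgClosed F] [Field F] in
/-- The automorphisms of `M` over `K` induce automorphisms of `Ω`. -/
lemma l3_restrict (i : L →+* K) (j : Ω →+* M) (hij : ∀ z, j (algebraMap L Ω z) = algebraMap K M (i z))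
    (g : M ≃ₐ[K] M) : ∃ g' : Ω ≃ₐ[L] Ω, ∀ x, j (g' x) = g (j x) := by
  let _ : Algebra L M := ((algebraMap K M).comp i).toAlgebra
  let j' : Ω →ₐ[L] M := { toRingHom := j, commutes' := fun z => hij z }
  let w : M ≃ₐ[L] M := AlgEquiv.ofRingEquiv (f := (g : M ≃+* M)) fun z => g.commutes (i z)
  exact Sup.exists_restrict j' w

omit [Algebra F[X] L] hG [IsAlgClosed F] [Field F] [IsAlgClosure K M] in
/-- The roots in `M`. -/
lemma l3_roots (i : L →+* K) (j : Ω →+* M) (hij : ∀ z, j (algebraMap L Ω z) = algebraMap K M (i z)) :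
    (f.map i).map (algebraMap K M) = (f.map (algebraMap L Ω)).map j := by
  rw [Polynomial.map_map, Polynomial.map_map]
  congr 1
  exact RingHom.ext fun z => (hij z).symm

/-- The values of the functions `z`. -/
theorem l3_val (hℓ : ℓ.Prime) (hℓF : (ℓ : F) ≠ 0) (hfm : f.Monic) (hsep : f.Separable) {ζ : L}
    (hζ : IsPrimitiveRoot ζ ℓ) {z : Ω → Ω} {c : (Ω ≃ₐ[L] Ω) → JacOver ℓ f Ω} (hz : KumD ζ z c)
    [Algebra F[X] K] [Algebra F M] {s : F} {v : AbsoluteValue M ℝ} (hL : LocF F K s v) (i : L →+* K) (j : Ω →+* M)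
    (hij : ∀ z, j (algebraMap L Ω z) = algebraMap K M (i z)) (hc : LTj (Lv := K) ℓ f j c) {a : L} (ha : a ≠ 0)
    (hav : ∃ n : ℤ, v (algebraMap K M (i a)) =
      v (algebraMap K M (algebraMap F[X] K X) - algebraMap F M s) ^ ((ℓ : ℤ) * n))
    (hroots : ∀ θ, ((f.map i).map (algebraMap K M)).eval θ = 0 → v θ ≤ v (algebraMap K M (i a)))
    (horb : ∀ r : F, ∀ θ ∈ nearL v (algebraMap K M (i a)) ((f.map i).map (algebraMap K M)) r,
      ∀ θ' ∈ nearL v (algebraMap K M (i a)) ((f.map i).map (algebraMap K M)) r, ∃ σ : M ≃ₐ[K] M, σ θ = θ')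
    {θ₀ : Ω} (hθ₀ : (f.map (algebraMap L Ω)).eval θ₀ = 0) {r : F}
    (hr : v (j θ₀ / algebraMap K M (i a) - algebraMap F M r) < 1) :
    Sup.Val (ringExpChar K) (v (algebraMap K M (algebraMap F[X] K X) - algebraMap F M s) ^ ℓ)
      (v (j (z θ₀)) ^ (ℓ * (nearL v (algebraMap K M (i a)) ((f.map i).map (algebraMap K M)) r).card *
        f.natDegree)) := by
  have hM : IsAlgClosed M := IsAlgClosure.isAlgClosed K
  have hpol : (f.map i).map (algebraMap K M) = (f.map (algebraMap L Ω)).map j := l3_roots i j hij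
  have hinj : Function.Injective j := j.injective
  have hf0 : f.map (algebraMap L Ω) ≠ 0 := (hfm.map _).ne_zero
  have hev : ∀ θ : Ω, ((f.map i).map (algebraMap K M)).eval (j θ) = j ((f.map (algebraMap L Ω)).eval θ) := by
    intro θ
    rw [hpol, eval_map, eval₂_hom]
  have hroot : ∀ θ' : M, ((f.map i).map (algebraMap K M)).eval θ' = 0 →
      ∃ θ : Ω, j θ = θ' ∧ (f.map (algebraMap L Ω)).eval θ = 0 := by
    intro θ' hθ'
    have hΩ : IsAlgClosed Ω := IsAlgClosure.isAlgClosed L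
    have h1 : θ' ∈ ((f.map (algebraMap L Ω)).map j).roots := by
      rw [← hpol, mem_roots (by rw [hpol]; exact ((hfm.map _).map _).ne_zero)]
      exact hθ'
    rw [(IsAlgClosed.splits (f.map (algebraMap L Ω))).roots_map j, Multiset.mem_map] at h1
    obtain ⟨θ, h2, h3⟩ := h1
    exact ⟨θ, h3, (mem_roots hf0).1 h2⟩
  have hG' : IsGood ℓ ((f.map i).map (algebraMap K M)) := by
    rw [hpol]
    exact isGood_map j (f.map (algebraMap L Ω))
  -- functions on `M`
  let zM : M → M := fun y => if h : ∃ θ, j θ = y then j (z h.choose) else 1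
  have hzM : ∀ θ, zM (j θ) = j (z θ) := by
    intro θ
    have h : ∃ θ', j θ' = j θ := ⟨θ, rfl⟩
    show (if h : ∃ θ', j θ' = j θ then j (z h.choose) else 1) = _
    rw [dif_pos h, hinj h.choose_spec]
  obtain ⟨Q, hQ⟩ := hc
  have hpol' : f.map (j.comp (algebraMap L Ω)) = (f.map i).map (algebraMap K M) := by
    rw [hpol, Polynomial.map_map]
  have hid : (f.map (j.comp (algebraMap L Ω))).map (RingHom.id M) = (f.map i).map (algebraMap K M) := by
    rw [Polynomial.map_id, hpol']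
  have key := lf_z (F := F) (K := K) (M := M) (p := f.map i) (lam := i a) hL hℓ hℓF (hfm.map i) (hsep.map)
    ((map_ne_zero i).2 ha) hav hroots (ζ := i ζ) (hζ.map_of_injective ((algebraMap K M).comp i).injective)
    (z := zM) (fun θ' hθ' => by
      obtain ⟨θ, rfl, h2⟩ := hroot θ' hθ'
      rw [hzM]
      exact (map_ne_zero j).2 (hz.1 θ h2))
    (jacMap ℓ (RingHom.id M) hid Q) (fun g => by
      obtain ⟨g', hg'⟩ := l3_restrict i j hij g
      obtain ⟨n, hn1, hn2, hn3⟩ := hz.2 g'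
      let nM : M → ℤ := fun y => if h : ∃ θ, j θ = y then n h.choose else 0
      have hnM : ∀ θ, nM (j θ) = n θ := by
        intro θ
        have h : ∃ θ', j θ' = j θ := ⟨θ, rfl⟩
        show (if h : ∃ θ', j θ' = j θ then n h.choose else 0) = _
        rw [dif_pos h, hinj h.choose_spec]
      refine ⟨nM, ?_, ?_, ?_⟩
      · have hg : (f.map (j.comp (algebraMap L Ω))).map ((g : M ≃+* M) : M →+* M) =
            f.map (j.comp (algebraMap L Ω)) := by
          rw [Polynomial.map_map]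
          congr 1
          refine RingHom.ext fun x => ?_
          show g (j (algebraMap L Ω x)) = j (algebraMap L Ω x)
          rw [hij, g.commutes]
        have h1 := hQ g g' hg hg'
        rw [hn2] at h1
        have h2 := congrArg (jacMap ℓ (RingHom.id M) hid) h1
        rw [map_sub, jacMap_jacMap ℓ _ _ _ _ (by rw [RingHom.id_comp, hpol]),
          jacMap_jacMap ℓ _ _ _ _ (by rw [RingHom.id_comp, hg, hpol'])] at h2
        have h3 : jacMap ℓ ((RingHom.id M).comp j) (by rw [RingHom.id_comp, hpol]) (rm n : Jac ℓ (f.map (algebraMap L Ω))) =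
            (rm nM : Jac ℓ ((f.map i).map (algebraMap K M))) :=
          jacMap_rm _ _ n nM fun θ _ => hnM θ
        rw [h3] at h2
        rw [h2]
        congr 1
        exact (jacMap_jacMap ℓ (RingHom.id M) ((g : M ≃+* M) : M →+* M) hid _
          (by rw [RingHom.comp_id, hg, hpol']) Q).trans rfl
      · intro θ' hθ'
        obtain ⟨θ, rfl, h2⟩ := hroot θ' hθ'
        rw [hzM, ← hg', ← hg', hzM, hnM, hn1 θ h2, map_mul, map_zpow₀, hij]
      · have h1 : ((f.map i).map (algebraMap K M)).roots.toFinset =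
            (f.map (algebraMap L Ω)).roots.toFinset.image j := by
          rw [hpol]
          have hΩ : IsAlgClosed Ω := IsAlgClosure.isAlgClosed L
          rw [(IsAlgClosed.splits (f.map (algebraMap L Ω))).roots_map j]
          exact Multiset.toFinset_map _ _
        rw [h1, Finset.sum_image fun x _ y _ h => hinj h]
        simp only [hnM]
        exact hn3)
    horb (r := r) (θ := j θ₀) (by
      unfold nearL
      rw [Finset.mem_filter, Multiset.mem_toFinset, mem_roots ((hfm.map _).map _).ne_zero]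
      exact ⟨by rw [IsRoot.def, hev, hθ₀, map_zero], hr⟩)
  rw [hzM, natDegree_map] at key
  exact key

end

end Pool.Agent.Lib.MP_89bcae_ag.Zs
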