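import Mathlib
import Pool.Agent.Lib.MP_89bcae_ag.Z.WBase
import Pool.Agent.Lib.MP_89bcae_ag.Z.Defs

/-!
# The function field of the curve inside the algebraic closure of `F(t)` (rows ET1 - ET4)
-/

attribute [local instance 100000] Pool.Agent.Lib.MP_89bcae_ag.Brt.tffFields
attribute [local instance 100000] Pool.Agent.Lib.MP_89bcae_ag.Wt.ifrNF Pool.Agent.Lib.MP_89bcae_ag.Wt.iddNF

open Polynomial IsDedekindDomain

open scoped Classical

namespace Pool.Agent.Lib.MP_89bcae_ag.Zs

open Pool.Agent.Lib.MP_89bcae_ag.Wt Pool.Agent.Lib.MP_89bcae_ag.Wt.Lns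
open Pool.Agent.Lib.MP_89bcae_ag.Sup (exists_extend_alg)

section

variable {E : Type} [Field E] {ℓ : ℕ}

lemma powers_le_comap (γ : E ≃+* E) :
    powers ℓ E ≤ (powers ℓ E).comap (Units.map ((γ : E ≃+* E) : E →* E)) := by
  rintro _ ⟨u, rfl⟩
  exact ⟨Units.map ((γ : E ≃+* E) : E →* E) u, (map_pow _ u ℓ).symm⟩

/-- ROW ET1. The automorphisms of `E` act on `Eˣ / (Eˣ) ^ ℓ`. -/
noncomputable instance actPow : DistribMulAction (E ≃+* E) (Additive (Eˣ ⧸ powers ℓ E)) where
  smul γ := fun m => Additive.ofMul (QuotientGroup.map (powers ℓ E) (powers ℓ E)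
    (Units.map ((γ : E ≃+* E) : E →* E)) (powers_le_comap γ) m.toMul)
  one_smul m := by
    obtain ⟨u, hu⟩ := QuotientGroup.mk_surjective m.toMul
    show Additive.ofMul (QuotientGroup.map (powers ℓ E) (powers ℓ E)
      (Units.map (((1 : E ≃+* E) : E ≃+* E) : E →* E)) (powers_le_comap 1) m.toMul) = m
    rw [← hu, QuotientGroup.map_mk]
    have h1 : Units.map (((1 : E ≃+* E) : E ≃+* E) : E →* E) u = u := Units.ext rfl
    rw [h1, hu]
    rfl
  mul_smul γ γ' m := by
    obtain ⟨u, hu⟩ := QuotientGroup.mk_surjective m.toMul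
    show Additive.ofMul (QuotientGroup.map (powers ℓ E) (powers ℓ E)
      (Units.map (((γ * γ' : E ≃+* E) : E ≃+* E) : E →* E)) (powers_le_comap (γ * γ')) m.toMul) =
      Additive.ofMul (QuotientGroup.map (powers ℓ E) (powers ℓ E)
      (Units.map ((γ : E ≃+* E) : E →* E)) (powers_le_comap γ)
      (QuotientGroup.map (powers ℓ E) (powers ℓ E)
      (Units.map ((γ' : E ≃+* E) : E →* E)) (powers_le_comap γ') m.toMul))
    rw [← hu, QuotientGroup.map_mk, QuotientGroup.map_mk, QuotientGroup.map_mk]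
    rfl
  smul_zero γ := by
    show Additive.ofMul (QuotientGroup.map (powers ℓ E) (powers ℓ E)
      (Units.map ((γ : E ≃+* E) : E →* E)) (powers_le_comap γ) 1) = 0
    rw [map_one]
    rfl
  smul_add γ m m' := by
    show Additive.ofMul (QuotientGroup.map (powers ℓ E) (powers ℓ E)
      (Units.map ((γ : E ≃+* E) : E →* E)) (powers_le_comap γ) (m.toMul * m'.toMul)) = _
    rw [map_mul]
    rfl

theorem actPow_mk (γ : E ≃+* E) (u : Eˣ) :
    γ • (Additive.ofMul (QuotientGroup.mk u : Eˣ ⧸ powers ℓ E)) =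
      Additive.ofMul (QuotientGroup.mk (Units.map ((γ : E ≃+* E) : E →* E) u)) := rfl

lemma powers_le_unramified (ℓ : ℕ) (F E : Type) [Field F] [Field E] [Algebra F E] :
    powers ℓ E ≤ unramified ℓ F E := by
  rintro _ ⟨w, rfl⟩ O _
  refine ⟨w, ?_⟩
  show O.valuation (((w ^ ℓ : Eˣ)) : E) = _
  rw [Units.val_pow_eq_pow_val, map_pow]

/-- ROW ET2. The contradiction with the criterion: `N` is pulled back to a subgroup of `Eˣ`. -/
theorem critical_contra {k F : Type} [Field k] [Field F] [Algebra k F] [Algebra F E] (hℓ : ℓ.Prime) {t x : E}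
    (hcrit : IsCritical ℓ k F t x) {G : Type} [Group G] (ρ : G →* (E ≃+* E))
    (hρ : ∀ g, ρ g ∈ galois ℓ k F t x) (hρ' : ∀ γ ∈ galois ℓ k F t x, ∃ g, ρ g = γ)
    (N : AddSubgroup (Additive (Eˣ ⧸ powers ℓ E))) (hN : N ≠ ⊥)
    (hNu : ∀ m ∈ N, ∃ u ∈ unramified ℓ F E, m = Additive.ofMul (QuotientGroup.mk u : Eˣ ⧸ powers ℓ E))
    (hst : ∀ g, ∀ m ∈ N, ρ g • m ∈ N) {r : ℕ} (hr : Nat.card N = ℓ ^ r)
    (hle : padicValNat ℓ (Nat.card (Set.range fun (g : G) (m : N) => ρ g • (m : Additive (Eˣ ⧸ powers ℓ E)))) ≤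
      r + padicValNat ℓ r.factorial) : False := by
  let q : Eˣ →* Eˣ ⧸ powers ℓ E := QuotientGroup.mk' (powers ℓ E)
  let N' : Subgroup Eˣ := (AddSubgroup.toSubgroup' N).comap q
  have hmem : ∀ u : Eˣ, u ∈ N' ↔ Additive.ofMul (QuotientGroup.mk u : Eˣ ⧸ powers ℓ E) ∈ N :=
    fun u => Iff.rfl
  have hle' : powers ℓ E ≤ N' := by
    intro u hu
    rw [hmem, (QuotientGroup.eq_one_iff u).2 hu]
    exact N.zero_mem
  have hlt : powers ℓ E < N' := by
    refine lt_of_le_of_ne hle' fun heq => hN ?_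
    rw [AddSubgroup.eq_bot_iff_forall]
    intro m hm
    obtain ⟨u, hu⟩ := QuotientGroup.mk_surjective m.toMul
    have h1 : u ∈ N' := by
      rw [hmem, hu]
      exact hm
    rw [← heq] at h1
    have h2 := (QuotientGroup.eq_one_iff u).2 h1
    rw [hu] at h2
    exact h2
  have hun : N' ≤ unramified ℓ F E := by
    intro u hu
    obtain ⟨u', hu', h1⟩ := hNu _ ((hmem u).1 hu)
    have h2 : (QuotientGroup.mk u : Eˣ ⧸ powers ℓ E) = QuotientGroup.mk u' := Additive.ofMul.injective h1
    have h3 : u⁻¹ * u' ∈ powers ℓ E := QuotientGroup.eq.1 h2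
    have h4 : u = u' * (u⁻¹ * u')⁻¹ := by group
    rw [h4]
    exact mul_mem hu' (inv_mem (powers_le_unramified ℓ F E h3))
  have hst' : ∀ γ ∈ galois ℓ k F t x, ∀ u ∈ N', Units.map (γ : E →* E) u ∈ N' := by
    intro γ hγ u hu
    obtain ⟨g, rfl⟩ := hρ' γ hγ
    exact hst g _ hu
  have hmap : N'.map q = AddSubgroup.toSubgroup' N :=
    Subgroup.map_comap_eq_self_of_surjective (QuotientGroup.mk'_surjective _) _
  have hcard : (powers ℓ E).relIndex N' = ℓ ^ r := by
    have h1 : q.ker = powers ℓ E := QuotientGroup.ker_mk' _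
    rw [← h1, Subgroup.relIndex_ker, hmap, ← hr]
    rfl
  have h := hcrit N' hlt hun hst' r hcard
  -- the two ranges
  let a : N' → N := fun u => ⟨Additive.ofMul (QuotientGroup.mk (u : Eˣ)), u.2⟩
  have ha : Function.Surjective a := by
    intro m
    obtain ⟨u, hu⟩ := QuotientGroup.mk_surjective (m : Additive (Eˣ ⧸ powers ℓ E)).toMul
    have h1 : u ∈ N' := by
      rw [hmem, hu]
      exact m.2
    exact ⟨⟨u, h1⟩, Subtype.ext (congrArg Additive.ofMul hu)⟩
  let φ : (N → Additive (Eˣ ⧸ powers ℓ E)) → (N' → Eˣ ⧸ powers ℓ E) := fun s u => (s (a u)).toMul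
  have hφ : Function.Injective φ := by
    intro s s' hs
    funext m
    obtain ⟨u, rfl⟩ := ha m
    exact Additive.toMul.injective (congrFun hs u)
  have hrange : (Set.range fun (γ : galois ℓ k F t x) (u : N') =>
      (Units.map ((γ : E ≃+* E) : E →* E) (u : Eˣ) : Eˣ ⧸ powers ℓ E)) =
      φ '' (Set.range fun (g : G) (m : N) => ρ g • (m : Additive (Eˣ ⧸ powers ℓ E))) := by
    ext s
    constructor
    · rintro ⟨γ, rfl⟩
      obtain ⟨g, hg⟩ := hρ' γ γ.2
      refine ⟨_, ⟨g, rfl⟩, ?_⟩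
      funext u
      show (ρ g • (Additive.ofMul (QuotientGroup.mk (u : Eˣ) : Eˣ ⧸ powers ℓ E))).toMul = _
      rw [actPow_mk, hg]
      rfl
    · rintro ⟨_, ⟨g, rfl⟩, rfl⟩
      exact ⟨⟨ρ g, hρ g⟩, rfl⟩
  rw [hrange, Nat.card_image_of_injective hφ] at h
  exact absurd hle (not_le.2 h)

end

section

variable {k F L Ω E : Type} [Field k] [Field F] [Algebra k F] [Field L] [Algebra F[X] L]
  [Field Ω] [Algebra L Ω] [IsAlgClosure k F] [IsFractionRing F[X] L] [IsAlgClosure L Ω] [Field E] [Algebra F E]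
  {f : k[X][X]} {t x : E}

/-- The elements of a subfield of `E` containing `F`, `t` and `x`. -/
lemma IsCurveField.mem_of {F E : Type} [Field F] [Field E] [Algebra F E] {k : Type} [Field k] [Algebra k F]
    {f : k[X][X]} {t x : E} (hE : IsCurveField F f t x) (S : Subfield E) (hF : ∀ c : F, algebraMap F E c ∈ S)
    (ht : t ∈ S) (hx : x ∈ S) (e : E) : e ∈ S := by
  have h1 : IntermediateField.adjoin F {t, x} ≤ S.toIntermediateField hF := by
    rw [IntermediateField.adjoin_le_iff]
    rintro y (rfl | rfl)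
    · exact ht
    · exact hx
  rw [hE.generate] at h1
  exact h1 (IntermediateField.mem_top (x := e))

/-- ROW ET3. The embedding of `E` in `Ω`. -/
theorem exists_emb (hf : f.Monic) (hE : IsCurveField F f t x) :
    ∃ (lam : L →+* E) (ι : E →+* Ω), (∀ z, ι (lam z) = algebraMap L Ω z) ∧
      (∀ c : F, lam (algebraMap F[X] L (C c)) = algebraMap F E c) ∧ lam (algebraMap F[X] L X) = t ∧
      (cOver k F L Ω f).eval (ι x) = 0 ∧ @FiniteDimensional L E _ _ lam.toAlgebra.toModule ∧
      ∀ y : Ω, y ∈ IntermediateField.adjoin L {ι x} ↔ ∃ e, ι e = y := by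
  have hinj : Function.Injective ((aeval t : F[X] →ₐ[F] E) : F[X] →+* E) :=
    transcendental_iff_injective.1 hE.transcendental
  let lam : L →+* E := IsFractionRing.lift hinj
  have hlam : ∀ p : F[X], lam (algebraMap F[X] L p) = aeval t p := fun p =>
    IsFractionRing.lift_algebraMap hinj p
  let _ : Algebra L E := lam.toAlgebra
  have hC : ∀ c : F, lam (algebraMap F[X] L (C c)) = algebraMap F E c := by
    intro c
    rw [hlam, aeval_C]
  have hX : lam (algebraMap F[X] L X) = t := by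
    rw [hlam, aeval_X]
  -- the equation of `x`
  have hval : (curveL k F L f).eval₂ lam x = 0 := by
    have h1 := hE.equation
    unfold val ext at h1
    rw [eval₂_map] at h1
    unfold curveL
    rw [eval₂_map, ← h1]
    congr 1
    apply RingHom.ext
    intro p
    exact hlam (p.map (algebraMap k F))
  have hint : IsIntegral L x := ⟨curveL k F L f, hf.map _, hval⟩
  have htop : IntermediateField.adjoin L {x} = ⊤ := by
    rw [eq_top_iff]
    intro e _
    refine hE.mem_of (IntermediateField.adjoin L {x}).toSubfield (fun c => ?_) ?_ ?_ e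
    · rw [← hC]
      exact (IntermediateField.adjoin L {x}).algebraMap_mem (algebraMap F[X] L (C c))
    · have h1 : lam (algebraMap F[X] L X) ∈ (IntermediateField.adjoin L {x}) :=
        (IntermediateField.adjoin L {x}).algebraMap_mem (algebraMap F[X] L X)
      rw [hX] at h1
      exact h1
    · exact IntermediateField.mem_adjoin_simple_self L x
  have hfin : FiniteDimensional L E := by
    have h1 : FiniteDimensional L (IntermediateField.adjoin L {x}) :=
      IntermediateField.adjoin.finiteDimensional hint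
    rw [htop] at h1
    exact LinearEquiv.finiteDimensional (IntermediateField.topEquiv (F := L) (E := E)).toLinearEquiv
  have hΩ : IsAlgClosed Ω := IsAlgClosure.isAlgClosed L
  let ι : E →ₐ[L] Ω := IsAlgClosed.lift
  have hι : ∀ z, ι (lam z) = algebraMap L Ω z := fun z => ι.commutes z
  refine ⟨lam, ι, hι, hC, hX, ?_, hfin, fun y => ?_⟩
  · show ((curveL k F L f).map (algebraMap L Ω)).eval (ι x) = 0
    have h1 := congrArg (ι : E →+* Ω) hval
    rw [hom_eval₂, map_zero] at h1
    rw [eval_map, ← h1]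
    congr 1
    exact (RingHom.ext hι).symm
  · have h1 : IntermediateField.adjoin L {ι x} = ι.fieldRange := by
      rw [AlgHom.fieldRange_eq_map, ← htop, IntermediateField.adjoin_map, Set.image_singleton]
    have h2 : IntermediateField.adjoin L {(ι : E →+* Ω) x} = ι.fieldRange := h1
    rw [h2]
    exact AlgHom.mem_fieldRange

/-- ROW ET4. The restriction to `E` of the automorphisms of `Ω` over `k(t)` which fix `x`. For the surjectivity: `Ω` is
an algebraic closure of `E`, extend with `exists_extend_alg`. -/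
theorem exists_resE {ℓ : ℕ} (hℓ : ℓ.Prime) {ζ : k} (hζ : IsPrimitiveRoot ζ ℓ) (hf : f.Monic)
    (hE : IsCurveField F f t x)
    (lam : L →+* E) (ι : E →+* Ω) (h1 : ∀ z, ι (lam z) = algebraMap L Ω z)
    (h2 : ∀ c : F, lam (algebraMap F[X] L (C c)) = algebraMap F E c) (h3 : lam (algebraMap F[X] L X) = t)
    (G : Subgroup (AutO k F L Ω)) (hG : ∀ γ, γ ∈ G ↔ (γ : Ω ≃+* Ω) (ι x) = ι x) :
    ∃ ρ : G →* (E ≃+* E), (∀ (g : G) (e : E), ι (ρ g e) = ((g : AutO k F L Ω) : Ω ≃+* Ω) (ι e)) ∧
      (∀ g, ρ g ∈ galois ℓ k F t x) ∧ ∀ γ ∈ galois ℓ k F t x, ∃ g, ρ g = γ := by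
  have hιC : ∀ c : F, ι (algebraMap F E c) = algebraMap L Ω (algebraMap F[X] L (C c)) := by
    intro c
    rw [← h2, h1]
  have hιt : ι t = algebraMap L Ω (algebraMap F[X] L X) := by
    rw [← h3, h1]
  have hιk : ∀ c : k, ι (algebraMap F E (algebraMap k F c)) = base k F L Ω (C c) := by
    intro c
    rw [hιC]
    show _ = algebraMap L Ω (algebraMap F[X] L ((C c).map (algebraMap k F)))
    rw [map_C]
  have hιX : ι t = base k F L Ω X := by
    rw [hιt]
    show _ = algebraMap L Ω (algebraMap F[X] L ((X : k[X]).map (algebraMap k F)))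
    rw [map_X]
  -- the image of `E` is stable
  have hex : ∀ (g : G) (e : E), ∃ e' : E, ι e' = ((g : AutO k F L Ω) : Ω ≃+* Ω) (ι e) := by
    intro g e
    let s : E →+* Ω := (((g : AutO k F L Ω) : Ω ≃+* Ω) : Ω →+* Ω).comp ι
    have h4 := hE.mem_of (ι.fieldRange.comap s) (fun c => ?_) ?_ ?_ e
    · obtain ⟨e', he'⟩ := RingHom.mem_fieldRange.1 (Subfield.mem_comap.1 h4)
      exact ⟨e', he'⟩
    · rw [Subfield.mem_comap, RingHom.mem_fieldRange]
      refine ⟨algebraMap F E (resF (g : AutO k F L Ω) c), ?_⟩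
      show _ = ((g : AutO k F L Ω) : Ω ≃+* Ω) (ι (algebraMap F E c))
      rw [hιC, hιC, resF_spec, map_C]
      rfl
    · rw [Subfield.mem_comap, RingHom.mem_fieldRange]
      refine ⟨t, ?_⟩
      show _ = ((g : AutO k F L Ω) : Ω ≃+* Ω) (ι t)
      rw [hιX, (g : AutO k F L Ω).2 X]
    · rw [Subfield.mem_comap, RingHom.mem_fieldRange]
      refine ⟨x, ?_⟩
      exact ((hG _).1 g.2).symm
  choose r hr using hex
  have hr' : ∀ (g : G) (e : E), ι (r g⁻¹ (r g e)) = ι e := by
    intro g e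
    rw [hr, hr]
    exact ((g : AutO k F L Ω) : Ω ≃+* Ω).symm_apply_apply _
  have hr'' : ∀ (g : G) (e : E), ι (r g (r g⁻¹ e)) = ι e := by
    intro g e
    rw [hr, hr]
    exact ((g : AutO k F L Ω) : Ω ≃+* Ω).apply_symm_apply _
  let ρ₀ : G → (E ≃+* E) := fun g =>
    { toFun := r g
      invFun := r g⁻¹
      left_inv := fun e => ι.injective (hr' g e)
      right_inv := fun e => ι.injective (hr'' g e)
      map_mul' := fun e e' => ι.injective (by rw [hr, map_mul, map_mul, map_mul, hr, hr])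
      map_add' := fun e e' => ι.injective (by rw [hr, map_add, map_add, map_add, hr, hr]) }
  have hρ₀ : ∀ (g : G) (e : E), ι (ρ₀ g e) = ((g : AutO k F L Ω) : Ω ≃+* Ω) (ι e) := fun g e => hr g e
  let ρ : G →* (E ≃+* E) :=
    { toFun := ρ₀
      map_one' := by
        ext e
        apply ι.injective
        rw [hρ₀]
        rfl
      map_mul' := fun g g' => by
        ext e
        apply ι.injective
        rw [hρ₀, RingAut.mul_apply, hρ₀, hρ₀]
        rfl }
  have hρ : ∀ (g : G) (e : E), ι (ρ g e) = ((g : AutO k F L Ω) : Ω ≃+* Ω) (ι e) := fun g e => hr g e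
  refine ⟨ρ, hρ, fun g => ⟨fun c => ?_, fun z hz => ?_, ?_, ?_⟩, fun γ hγ => ?_⟩
  · apply ι.injective
    rw [hρ, hιk, (g : AutO k F L Ω).2 (C c)]
  · have hζ' : IsPrimitiveRoot (algebraMap F E (algebraMap k F ζ)) ℓ :=
      (hζ.map_of_injective (algebraMap k F).injective).map_of_injective (algebraMap F E).injective
    have : NeZero ℓ := ⟨hℓ.ne_zero⟩
    obtain ⟨i, -, hi⟩ := hζ'.eq_pow_of_pow_eq_one hz
    apply ι.injective
    rw [hρ, ← hi, map_pow, map_pow, hιk, (g : AutO k F L Ω).2 (C ζ)]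
  · apply ι.injective
    rw [hρ, hιX, (g : AutO k F L Ω).2 X]
  · apply ι.injective
    rw [hρ]
    exact (hG _).1 g.2
  · let _ : Algebra E Ω := ι.toAlgebra
    have hcl : IsAlgClosure E Ω := by
      refine ⟨IsAlgClosure.isAlgClosed L, ?_⟩
      let _ : Algebra L E := lam.toAlgebra
      have : IsScalarTower L E Ω := IsScalarTower.of_algebraMap_eq fun z => (h1 z).symm
      have h5 : Algebra.IsAlgebraic L Ω := IsAlgClosure.isAlgebraic
      exact Algebra.IsAlgebraic.tower_top (K := L) E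
    obtain ⟨w, hw⟩ := exists_extend_alg (K := E) (M := Ω) γ
    have hw' : ∀ e, w (ι e) = ι (γ e) := hw
    have hmem : w ∈ AutO k F L Ω := by
      intro p
      have h6 : ((w : Ω →+* Ω).comp (base k F L Ω)) = base k F L Ω := by
        apply Polynomial.ringHom_ext
        · intro c
          show w (base k F L Ω (C c)) = base k F L Ω (C c)
          rw [← hιk, hw', hγ.1]
        · show w (base k F L Ω X) = base k F L Ω X
          rw [← hιX, hw', hγ.2.2.1]
      exact congrArg (fun s : k[X] →+* Ω => s p) h6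
    have hwG : (⟨w, hmem⟩ : AutO k F L Ω) ∈ G := by
      rw [hG]
      show w (ι x) = ι x
      rw [hw', hγ.2.2.2]
    refine ⟨⟨⟨w, hmem⟩, hwG⟩, ?_⟩
    ext e
    apply ι.injective
    rw [hρ]
    exact hw' e

end

end Pool.Agent.Lib.MP_89bcae_ag.Zs
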