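import Mathlib
import Pool.Agent.Lib.MP_89bcae_ag.Zc.Fin

/-!
# Reduction to the fields which contain the roots of unity
-/

attribute [local instance 100000] Pool.Agent.Lib.MP_89bcae_ag.Brt.tffFields
attribute [local instance 100000] Pool.Agent.Lib.MP_89bcae_ag.Wt.ifrNF Pool.Agent.Lib.MP_89bcae_ag.Wt.iddNF

open Polynomial IsDedekindDomain

open scoped Classical

namespace Pool.Agent.Lib.MP_89bcae_ag.Zs

open Pool.Agent.Lib.MP_89bcae_ag.Wt Pool.Agent.Lib.MP_89bcae_ag.Wt.Lns Pool.Agent.Lib.MP_89bcae_ag.Bra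
  Pool.Agent.Lib.MP_89bcae_ag.Brt

/-- There are fewer fixed classes if there are more automorphisms. -/
lemma ntg_mono {ℓ m : ℕ} {L Ω : Type} [Field L] [Field Ω] [Algebra L Ω] {f : L[X]}
    {LT : ((Ω ≃ₐ[L] Ω) → JacOver ℓ f Ω) → Prop} {Γ Γ' : Set (Ω ≃+* Ω)} (h : Γ' ⊆ Γ)
    (hN : NTg ℓ m f LT Γ') : NTg ℓ m f LT Γ :=
  fun c hc hLT hfix => hN c hc hLT fun γ hγ hγΓ => hfix γ hγ (h hγΓ)

section

variable {ℓ e : ℕ} {k F : Type} [Field k] [Field F] [Algebra k F] (k₁ : IntermediateField k F) {f : k[X][X]}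

/-- The polynomial with its coefficients in the larger field. -/
noncomputable def red (f : k[X][X]) : k₁[X][X] := f.map (mapRingHom (algebraMap k k₁))

lemma ext_red : Zs.ext F (red k₁ f) = Zs.ext F f := by
  unfold Zs.ext red
  rw [Polynomial.map_map]
  congr 1
  rw [mapRingHom_comp, ← IsScalarTower.algebraMap_eq]

lemma val_red {A : Type} [Field A] [Algebra F A] (t x : A) : Zs.val F (red k₁ f) t x = Zs.val F f t x := by
  unfold Zs.val
  rw [ext_red]

lemma isBranchCurve_red (hB : IsBranchCurve ℓ e F f) : IsBranchCurve ℓ e F (red k₁ f) := by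
  have hd : (red k₁ f).natDegree = f.natDegree := hB.monic.natDegree_map _
  have hinj : Function.Injective (mapRingHom (algebraMap k k₁)) := map_injective _ (algebraMap k k₁).injective
  refine ⟨hB.monic.map _, ?_, ?_, ?_, hB.dvd, fun i => ?_, fun s => ?_, ?_⟩
  · rw [hd]
    exact hB.coprime
  · rw [red, derivative_map, Ne, Polynomial.map_eq_zero_iff hinj]
    exact hB.separable
  · rw [ext_red]
    exact hB.irreducible
  · rw [hd, red, coeff_map]
    exact (natDegree_map_le).trans (hB.degree i)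
  · rw [ext_red]
    exact hB.smooth s
  · rw [ext_red]
    exact hB.infinity

lemma isCurveField_red {E : Type} [Field E] [Algebra F E] {t x : E} (hE : IsCurveField F f t x) :
    IsCurveField F (red k₁ f) t x :=
  ⟨hE.transcendental, by rw [val_red]; exact hE.equation, hE.generate⟩

lemma galois_red {ζ : F} (hζ : ζ ^ ℓ = 1) (hk₁ : k₁ = IntermediateField.adjoin k {ζ}) {E : Type} [Field E]
    [Algebra F E] (t x : E) : galois ℓ k₁ F t x = galois ℓ k F t x := by
  ext γ
  constructor
  · rintro ⟨h1, h2, h3, h4⟩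
    exact ⟨fun c => h1 (algebraMap k k₁ c), h2, h3, h4⟩
  · rintro ⟨h1, h2, h3, h4⟩
    refine ⟨fun c => ?_, h2, h3, h4⟩
    let M : IntermediateField k F :=
      { carrier := {c : F | γ (algebraMap F E c) = algebraMap F E c}
        mul_mem' := fun {a b} ha hb => by
          change γ (algebraMap F E (a * b)) = algebraMap F E (a * b)
          rw [map_mul, map_mul, ha, hb]
        one_mem' := by
          change γ (algebraMap F E 1) = algebraMap F E 1
          rw [map_one, map_one]
        add_mem' := fun {a b} ha hb => by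
          change γ (algebraMap F E (a + b)) = algebraMap F E (a + b)
          rw [map_add, map_add, ha, hb]
        zero_mem' := by
          change γ (algebraMap F E 0) = algebraMap F E 0
          rw [map_zero, map_zero]
        algebraMap_mem' := fun c => h1 c
        inv_mem' := fun a ha => by
          change γ (algebraMap F E a⁻¹) = algebraMap F E a⁻¹
          rw [map_inv₀, map_inv₀, ha] }
    have h5 : k₁ ≤ M := by
      rw [hk₁, IntermediateField.adjoin_simple_le_iff]
      exact h2 (algebraMap F E ζ) (by rw [← map_pow, hζ, map_one])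
    exact h5 c.2

lemma isCritical_red {ζ : F} (hζ : ζ ^ ℓ = 1) (hk₁ : k₁ = IntermediateField.adjoin k {ζ}) {E : Type} [Field E]
    [Algebra F E] {t x : E} (h : IsCritical ℓ k F t x) : IsCritical ℓ k₁ F t x := by
  have h0 := galois_red k₁ hζ hk₁ t x
  unfold IsCritical at h ⊢
  rw [h0]
  exact h

variable {L Ω : Type} [Field L] [Algebra F[X] L] [Field Ω] [Algebra L Ω]

lemma map_base_red : (red k₁ f).map (base k₁ F L L) = f.map (base k F L L) := by
  have h1 := Zc.map_base_eq F L (red k₁ f)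
  rw [ext_red] at h1
  exact h1.trans (Zc.map_base_eq F L f).symm

lemma exists_autK (k' : IntermediateField k F) (hfin : FiniteDimensional k k₁) (hk' : FiniteDimensional k k') :
    ∃ k'' : IntermediateField k₁ F, FiniteDimensional k₁ k'' ∧ AutK k₁ F L Ω k'' ⊆ AutK k F L Ω k' := by
  have hle : k₁ ≤ k' ⊔ k₁ := le_sup_right
  refine ⟨IntermediateField.extendScalars hle, ?_, ?_⟩
  · have h1 : FiniteDimensional k (k' ⊔ k₁ : IntermediateField k F) := inferInstance
    have h2 : FiniteDimensional k (IntermediateField.extendScalars hle) := h1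
    exact Module.Finite.of_restrictScalars_finite k k₁ (IntermediateField.extendScalars hle)
  · intro γ hγ p
    have hmem : ∀ c : k', (c : F) ∈ IntermediateField.extendScalars hle := by
      intro c
      rw [IntermediateField.mem_extendScalars]
      exact (le_sup_left : k' ≤ k' ⊔ k₁) c.2
    let ι : k' →+* IntermediateField.extendScalars hle :=
      (algebraMap k' F).codRestrict (IntermediateField.extendScalars hle) hmem
    have h1 : base k' F L Ω p = base (IntermediateField.extendScalars hle) F L Ω (p.map ι) := by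
      unfold base
      simp only [RingHom.comp_apply, coe_mapRingHom, Polynomial.map_map]
      rfl
    rw [h1]
    exact hγ (p.map ι)

end

/-- The final step: from the Selmer groups over the fields which contain the roots of unity. -/
theorem coverTate_red {ℓ e : ℕ} (hℓ : ℓ.Prime) {k F : Type} [Field k] [Field F] [Algebra k F]
    [IsAlgClosure k F] (hk : (ℓ : k) ≠ 0) {f : k[X][X]} (hB : IsBranchCurve ℓ e F f)
    {E : Type} [Field E] [Algebra F E] {t x : E} (hE : IsCurveField F f t x) (hC : IsCritical ℓ k F t x)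
    (hmain : ∀ (k₁ : Type) [Field k₁] [Algebra k₁ F] [IsAlgClosure k₁ F] (ζ : k₁) (f₁ : k₁[X][X])
      (L Ω : Type) [Field L] [Algebra F[X] L] [IsFractionRing F[X] L] [Field Ω] [Algebra L Ω] [IsAlgClosure L Ω],
      IsPrimitiveRoot ζ ℓ → (ℓ : k₁) ≠ 0 → IsBranchCurve ℓ e F f₁ → IsCurveField F f₁ t x →
      IsCritical ℓ k₁ F t x → ∀ k' : IntermediateField k₁ F, FiniteDimensional k₁ k' →
        NTg ℓ 1 (f₁.map (base k₁ F L L)) (LTa F ℓ (f₁.map (base k₁ F L L))) (AutK k₁ F L Ω k')) :
    CoverTate ℓ F f := by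
  have hFa : IsAlgClosed F := IsAlgClosure.isAlgClosed k
  have hF0 : (ℓ : F) ≠ 0 := by
    rw [← map_natCast (algebraMap k F)]
    exact (_root_.map_ne_zero _).mpr hk
  have : NeZero (ℓ : F) := ⟨hF0⟩
  have : NeZero ℓ := ⟨hℓ.ne_zero⟩
  obtain ⟨ζ, hζ⟩ : ∃ ζ : F, IsPrimitiveRoot ζ ℓ :=
    HasEnoughRootsOfUnity.exists_primitiveRoot F ℓ
  obtain ⟨k₁, hk₁⟩ : ∃ k₁ : IntermediateField k F, k₁ = IntermediateField.adjoin k {ζ} := ⟨_, rfl⟩
  have hζk : ζ ∈ k₁ := by
    rw [hk₁]
    exact IntermediateField.mem_adjoin_simple_self k ζ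
  have hfin : FiniteDimensional k k₁ := by
    rw [hk₁]
    exact IntermediateField.adjoin.finiteDimensional
      ((IsAlgClosure.isAlgebraic (R := k) (K := F)).isAlgebraic ζ).isIntegral
  have halg : Algebra.IsAlgebraic k F := IsAlgClosure.isAlgebraic
  have hcl : IsAlgClosure k₁ F := ⟨hFa, Algebra.IsAlgebraic.tower_top (K := k) k₁⟩
  have hζ₁ : IsPrimitiveRoot (⟨ζ, hζk⟩ : k₁) ℓ :=
    IsPrimitiveRoot.of_map_of_injective (f := algebraMap k₁ F) hζ (algebraMap k₁ F).injective
  have hk₁0 : (ℓ : k₁) ≠ 0 := by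
    rw [← map_natCast (algebraMap k k₁)]
    exact (_root_.map_ne_zero _).mpr hk
  refine Zc.coverTate_of hℓ hk hB fun L Ω _ _ _ _ _ _ k' hk' => ?_
  obtain ⟨k'', h1, h2⟩ := exists_autK (L := L) (Ω := Ω) k₁ k' hfin hk'
  have h3 := hmain k₁ ⟨ζ, hζk⟩ (red k₁ f) L Ω hζ₁ hk₁0 (isBranchCurve_red k₁ hB) (isCurveField_red k₁ hE)
    (isCritical_red k₁ hζ.pow_eq_one hk₁ hC) k'' h1
  rw [map_base_red] at h3
  exact ntg_mono h2 h3

end Pool.Agent.Lib.MP_89bcae_ag.Zs
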