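import Pool.Agent.Lib.MP_89bcae_ag.Z.Symp

/-!
# MP_89bcae_ag, front Z: orders of finite isometry groups

* `ZOrd.symp`: if all isometries of a nondegenerate alternating form over `ZMod l` on `V` come
  from `G` and `l ^ (2 n) ≤ #V`, then `l ^ (n ^ 2)` divides the order of the image of `G`;
* `ZOrd.orth`: if all isometries of a nonsingular quadratic form over `ZMod 2` on `V` come
  from `G` and `2 ^ (2 n) ≤ #V`, then `2 ^ (n (n - 1))` divides the order of the image of `G`;
* `ZOrd.orth_irreducible`: in this case, if `2 ^ 6 ≤ #V`, a nonzero `G`-stable subgroup of `V`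
  is everything;
* `ZOrd.symp_crit`, `ZOrd.orth_crit`: in these cases, with `#V = l ^ (2 g)`, `l` odd, `3 ≤ g`, or
  `#V = 2 ^ (2 g)`, `5 ≤ g`, every nonzero `G`-stable subgroup `N`, of order `l ^ r`, has
  `r + v_l(r!) < v_l(#image of G in Perm N)`.
-/

namespace ZOrd

open Module

/-! ## Counting -/

theorem count {V V1 : Type*} [Finite V] (Γ : Subgroup (Equiv.Perm V))
    (Γ1 : Subgroup (Equiv.Perm V1)) (φ : Equiv.Perm V1 →* Equiv.Perm V)
    (hφ : Function.Injective φ) (u v : V) (X : Set V)
    (hX : ∀ g ∈ Γ, g u = u → g v ∈ X) (hX' : ∀ x ∈ X, ∃ g ∈ Γ, g u = u ∧ g v = x)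
    (h1 : ∀ g ∈ Γ1, φ g ∈ Γ ∧ φ g u = u ∧ φ g v = v) :
    Nat.card X * Nat.card Γ1 ∣ Nat.card Γ := by
  classical
  set S : Subgroup (Equiv.Perm V) := Γ ⊓ MulAction.stabilizer (Equiv.Perm V) u with hS
  have hSmem : ∀ g : Equiv.Perm V, g ∈ S ↔ g ∈ Γ ∧ g u = u := fun g => Iff.rfl
  have horb : MulAction.orbit S v = X := by
    ext x
    constructor
    · rintro ⟨g, rfl⟩
      exact hX _ g.2.1 g.2.2
    · intro hx
      obtain ⟨g, hg, hgu, hgv⟩ := hX' x hx
      exact ⟨⟨g, hg, hgu⟩, hgv⟩
  have hcS : Nat.card X * Nat.card (MulAction.stabilizer S v) = Nat.card S := by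
    rw [← Subgroup.index_mul_card (MulAction.stabilizer S v), MulAction.index_stabilizer, horb,
      Nat.card_coe_set_eq]
  have hT : Nat.card Γ1 ∣ Nat.card (MulAction.stabilizer S v) := by
    let ψ : Γ1 →* MulAction.stabilizer S v :=
      { toFun := fun g => ⟨⟨φ g, (h1 g g.2).1, (h1 g g.2).2.1⟩, (h1 g g.2).2.2⟩
        map_one' := by
          apply Subtype.ext
          apply Subtype.ext
          exact map_one φ
        map_mul' := fun g h => by
          apply Subtype.ext
          apply Subtype.ext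
          exact map_mul φ _ _ }
    have hψ : Function.Injective ψ := by
      intro g h hgh
      apply Subtype.ext
      apply hφ
      have h2 := congrArg (fun t : MulAction.stabilizer S v => ((t : S) : Equiv.Perm V)) hgh
      exact h2
    exact Subgroup.card_dvd_of_injective ψ hψ
  have h3 : Nat.card X * Nat.card Γ1 ∣ Nat.card S := by
    rw [← hcS]
    exact Nat.mul_dvd_mul_left _ hT
  exact h3.trans (Subgroup.card_dvd_of_le inf_le_left)

section LinAlg

variable {K V : Type*} [Field K] [AddCommGroup V] [Module K V]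

/-- The orthogonal of the plane spanned by `u`, `v`. -/
def perp (B : LinearMap.BilinForm K V) (u v : V) : Submodule K V :=
  LinearMap.ker (B u) ⊓ LinearMap.ker (B v)

theorem mem_perp (B : LinearMap.BilinForm K V) (u v x : V) :
    x ∈ perp B u v ↔ B u x = 0 ∧ B v x = 0 := Iff.rfl

/-- The component in the plane spanned by `u`, `v`. -/
def pl (B : LinearMap.BilinForm K V) (u v x : V) : V := B x v • u - B x u • v

theorem pl_add (B : LinearMap.BilinForm K V) (u v x y : V) :
    pl B u v (x + y) = pl B u v x + pl B u v y := by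
  simp only [pl, map_add, LinearMap.add_apply, add_smul]
  abel

variable (B : LinearMap.BilinForm K V) (halt : ∀ v, B v v = 0) (u v : V) (huv : B u v = 1)

include halt huv

theorem sub_pl_mem (x : V) : x - pl B u v x ∈ perp B u v := by
  have h1 : B v u = -1 := by rw [ZSymp.skew B halt, huv]
  rw [mem_perp]
  constructor
  · simp only [pl, map_sub, map_smul, halt, huv, smul_eq_mul, mul_zero, mul_one, zero_sub]
    rw [ZSymp.skew B halt u x]
    ring
  · simp only [pl, map_sub, map_smul, halt, h1, smul_eq_mul, mul_zero]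
    rw [ZSymp.skew B halt v x]
    ring

omit huv in
theorem pl_of_mem {x : V} (hx : x ∈ perp B u v) : pl B u v x = 0 := by
  rw [mem_perp] at hx
  have h1 : B x u = 0 := by rw [ZSymp.skew B halt, hx.1, neg_zero]
  have h2 : B x v = 0 := by rw [ZSymp.skew B halt, hx.2, neg_zero]
  simp [pl, h1, h2]

theorem pl_u : pl B u v u = u := by
  simp [pl, halt, huv]

theorem pl_v : pl B u v v = v := by
  have h1 : B v u = -1 := by rw [ZSymp.skew B halt, huv]
  simp [pl, halt, h1]

theorem pl_pl (x : V) : pl B u v (pl B u v x) = pl B u v x := by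
  have h := pl_of_mem B halt u v (sub_pl_mem B halt u v huv x)
  have h2 := pl_add B u v (x - pl B u v x) (pl B u v x)
  rw [sub_add_cancel, h, zero_add] at h2
  exact h2.symm

/-- The projection to the orthogonal of a hyperbolic plane. -/
def pr (x : V) : perp B u v := ⟨x - pl B u v x, sub_pl_mem B halt u v huv x⟩

theorem pl_pr (x : V) : pl B u v x + (pr B halt u v huv x : V) = x := by
  change pl B u v x + (x - pl B u v x) = x
  abel

theorem pl_mk (x : V) (y : perp B u v) : pl B u v (pl B u v x + (y : V)) = pl B u v x := by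
  rw [pl_add, pl_pl B halt u v huv, pl_of_mem B halt u v y.2, add_zero]

theorem pr_mk (x : V) (y : perp B u v) : pr B halt u v huv (pl B u v x + (y : V)) = y := by
  apply Subtype.ext
  change pl B u v x + (y : V) - pl B u v (pl B u v x + (y : V)) = y
  rw [pl_mk B halt u v huv, add_sub_cancel_left]

/-- Extension of a permutation of the orthogonal of a hyperbolic plane. -/
def ext : Equiv.Perm (perp B u v) →* Equiv.Perm V where
  toFun g :=
    { toFun := fun x => pl B u v x + (g (pr B halt u v huv x) : V)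
      invFun := fun x => pl B u v x + (g.symm (pr B halt u v huv x) : V)
      left_inv := fun x => by
        beta_reduce
        rw [pl_mk B halt u v huv, pr_mk B halt u v huv, Equiv.symm_apply_apply, pl_pr B halt u v huv]
      right_inv := fun x => by
        beta_reduce
        rw [pl_mk B halt u v huv, pr_mk B halt u v huv, Equiv.apply_symm_apply,
          pl_pr B halt u v huv] }
  map_one' := by
    ext x
    exact pl_pr B halt u v huv x
  map_mul' g h := by
    ext x
    change pl B u v x + ((g * h) (pr B halt u v huv x) : V) =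
      pl B u v (pl B u v x + (h (pr B halt u v huv x) : V)) +
        (g (pr B halt u v huv (pl B u v x + (h (pr B halt u v huv x) : V))) : V)
    rw [pl_mk B halt u v huv, pr_mk B halt u v huv]
    rfl

theorem ext_apply (g : Equiv.Perm (perp B u v)) (x : V) :
    ext B halt u v huv g x = pl B u v x + (g (pr B halt u v huv x) : V) := rfl

theorem ext_injective : Function.Injective (ext B halt u v huv) := by
  intro g h hgh
  ext y
  have h1 := DFunLike.congr_fun hgh (y : V)
  rw [ext_apply, ext_apply] at h1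
  have h2 : pr B halt u v huv (y : V) = y := by
    apply Subtype.ext
    change (y : V) - pl B u v y = y
    rw [pl_of_mem B halt u v y.2, sub_zero]
  rw [h2] at h1
  exact add_left_cancel h1

theorem pr_u : pr B halt u v huv u = 0 := by
  apply Subtype.ext
  change u - pl B u v u = 0
  rw [pl_u B halt u v huv, sub_self]

theorem pr_v : pr B halt u v huv v = 0 := by
  apply Subtype.ext
  change v - pl B u v v = 0
  rw [pl_v B halt u v huv, sub_self]

theorem pr_add (x y : V) :
    pr B halt u v huv (x + y) = pr B halt u v huv x + pr B halt u v huv y := by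
  apply Subtype.ext
  change x + y - pl B u v (x + y) = (x - pl B u v x) + (y - pl B u v y)
  rw [pl_add]
  abel

omit halt huv in
theorem map_pl (x : V) (y : perp B u v) : B (pl B u v x) (y : V) = 0 := by
  have h := (mem_perp B u v y).1 y.2
  simp only [pl, map_sub, LinearMap.sub_apply, map_smul, LinearMap.smul_apply, h.1, h.2,
    smul_zero, sub_zero]

omit huv in
theorem map_pl' (x : V) (y : perp B u v) : B (y : V) (pl B u v x) = 0 := by
  rw [ZSymp.skew B halt, map_pl B u v, neg_zero]

theorem map_eq (x y : V) :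
    B x y = B (pl B u v x) (pl B u v y) +
      B (pr B halt u v huv x : V) (pr B halt u v huv y : V) := by
  conv_lhs => rw [← pl_pr B halt u v huv x, ← pl_pr B halt u v huv y]
  simp only [map_add, LinearMap.add_apply]
  rw [map_pl B u v, map_pl' B halt u v]
  ring

/-- The Eichler transformation fixing `u` and sending `v` to `v + w`. -/
def eich (w : V) (hw : B u w = 0) : V ≃+ V where
  toFun y := y - B y u • w - (B y w + B v w * B y u) • u
  invFun y := y + B y u • w + (B y w + B v w * B y u) • u
  left_inv y := by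
    have h1 : B w u = 0 := by rw [ZSymp.skew B halt, hw, neg_zero]
    beta_reduce
    simp only [map_sub, LinearMap.sub_apply, map_smul, LinearMap.smul_apply, halt, h1, hw,
      smul_eq_mul, mul_zero, sub_zero]
    module
  right_inv y := by
    have h1 : B w u = 0 := by rw [ZSymp.skew B halt, hw, neg_zero]
    beta_reduce
    simp only [map_add, LinearMap.add_apply, map_smul, LinearMap.smul_apply, halt, h1, hw,
      smul_eq_mul, mul_zero, add_zero]
    module
  map_add' y z := by
    simp only [map_add, LinearMap.add_apply]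
    module

omit huv in
theorem eich_apply (w : V) (hw : B u w = 0) (y : V) :
    eich B halt u v w hw y = y - B y u • w - (B y w + B v w * B y u) • u := rfl

omit huv in
theorem eich_u (w : V) (hw : B u w = 0) : eich B halt u v w hw u = u := by
  rw [eich_apply]
  simp [halt, hw]

theorem eich_v (w : V) (hw : B u w = 0) : eich B halt u v w hw v = v + w := by
  have h1 : B v u = -1 := by rw [ZSymp.skew B halt, huv]
  rw [eich_apply, h1]
  module

omit huv in
theorem eich_isom (w : V) (hw : B u w = 0) (y z : V) :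
    B (eich B halt u v w hw y) (eich B halt u v w hw z) = B y z := by
  have h1 : B w u = 0 := by rw [ZSymp.skew B halt, hw, neg_zero]
  have h2 := ZSymp.skew B halt u z
  have h3 := ZSymp.skew B halt w z
  simp only [eich_apply, map_sub, LinearMap.sub_apply, map_smul, LinearMap.smul_apply, halt, h1,
    hw, smul_eq_mul, mul_zero, sub_zero]
  rw [h2, h3]
  ring

omit huv in
theorem eich_q (q : V → K) (c : K) (h2c : 2 * c = 0)
    (hq : ∀ x y, q (x + y) = q x + q y + c * B x y) (hq2 : ∀ (a : K) x, q (a • x) = a ^ 2 * q x)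
    (hu : q u = 0) (hv : q v = 0) (w : V) (hw : B u w = 0) (hvw : q (v + w) = 0) (y : V) :
    q (eich B halt u v w hw y) = q y := by
  have h1 : B w u = 0 := by rw [ZSymp.skew B halt, hw, neg_zero]
  have h3 : q w = - (c * B v w) := by
    have h := hq v w
    rw [hvw, hv] at h
    linear_combination -h
  have h4 : eich B halt u v w hw y =
      y + (-(B y u)) • w + (-(B y w + B v w * B y u)) • u := by
    rw [eich_apply]
    module
  rw [h4, hq, hq, hq2, hq2, hu, h3]
  simp only [map_add, LinearMap.add_apply, map_smul, LinearMap.smul_apply, h1, smul_eq_mul,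
    mul_zero, add_zero]
  linear_combination (-(B v w * B y u ^ 2) - B y u * B y w) * h2c

end LinAlg

section Grp

variable {K V : Type*} [Field K] [AddCommGroup V] [Module K V]

/-- The additive isometries of `B` preserving `q`. -/
def iso (B : LinearMap.BilinForm K V) (q : V → K) : Subgroup (Equiv.Perm V) where
  carrier := {f | (∀ x y, f (x + y) = f x + f y) ∧ (∀ x y, B (f x) (f y) = B x y) ∧
    ∀ x, q (f x) = q x}
  mul_mem' := by
    rintro f g ⟨h1, h2, h3⟩ ⟨k1, k2, k3⟩
    refine ⟨fun x y => ?_, fun x y => ?_, fun x => ?_⟩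
    · rw [Equiv.Perm.mul_apply, Equiv.Perm.mul_apply, Equiv.Perm.mul_apply, k1, h1]
    · rw [Equiv.Perm.mul_apply, Equiv.Perm.mul_apply, h2, k2]
    · rw [Equiv.Perm.mul_apply, h3, k3]
  one_mem' := ⟨fun _ _ => rfl, fun _ _ => rfl, fun _ => rfl⟩
  inv_mem' := by
    rintro f ⟨h1, h2, h3⟩
    refine ⟨fun x y => ?_, fun x y => ?_, fun x => ?_⟩
    · apply f.injective
      rw [h1]
      simp
    · have := h2 (f⁻¹ x) (f⁻¹ y)
      simpa using this.symm
    · have := h3 (f⁻¹ x)
      simpa using this.symm

/-- The form on the orthogonal of a plane. -/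
def res (B : LinearMap.BilinForm K V) (u v : V) : LinearMap.BilinForm K (perp B u v) :=
  (B.domRestrict (perp B u v)).compl₂ (perp B u v).subtype

theorem res_apply (B : LinearMap.BilinForm K V) (u v : V) (x y : perp B u v) :
    res B u v x y = B (x : V) (y : V) := rfl

variable (B : LinearMap.BilinForm K V) (halt : ∀ v, B v v = 0) (u v : V) (huv : B u v = 1)

include halt huv

theorem ext_mem (q : V → K) (c : K) (hq : ∀ x y, q (x + y) = q x + q y + c * B x y)
    (g : Equiv.Perm (perp B u v)) (hg : g ∈ iso (res B u v) (fun x => q (x : V))) :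
    ext B halt u v huv g ∈ iso B q ∧ ext B halt u v huv g u = u ∧
      ext B halt u v huv g v = v := by
  obtain ⟨h1, h2, h3⟩ := hg
  have h3 : ∀ x : perp B u v, q (g x : V) = q (x : V) := h3
  have h0 : g 0 = 0 := by
    have := h1 0 0
    rw [add_zero] at this
    exact left_eq_add.1 this
  refine ⟨⟨fun x y => ?_, fun x y => ?_, fun x => ?_⟩, ?_, ?_⟩
  · rw [ext_apply, ext_apply, ext_apply, pl_add, pr_add, h1, Submodule.coe_add]
    abel
  · rw [map_eq B halt u v huv x y, map_eq B halt u v huv (ext B halt u v huv g x)]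
    simp only [ext_apply, pl_mk B halt u v huv, pr_mk B halt u v huv]
    have := h2 (pr B halt u v huv x) (pr B halt u v huv y)
    rw [res_apply, res_apply] at this
    rw [this]
  · rw [ext_apply, hq, map_pl, mul_zero, add_zero, h3, ← add_zero (q (pl B u v x) + _),
      ← mul_zero c, ← map_pl B u v x (pr B halt u v huv x), ← hq, pl_pr B halt u v huv x]
  · rw [ext_apply, pr_u, h0, pl_u B halt u v huv]
    simp
  · rw [ext_apply, pr_v, h0, pl_v B halt u v huv]
    simp

theorem step [Finite V] (q : V → K) (c : K) (h2c : 2 * c = 0)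
    (hq : ∀ x y, q (x + y) = q x + q y + c * B x y) (hq2 : ∀ (a : K) x, q (a • x) = a ^ 2 * q x)
    (hu : q u = 0) (hv : q v = 0) :
    Nat.card {x : V | B u x = 1 ∧ q x = 0} *
      Nat.card (iso (res B u v) (fun x => q (x : V))) ∣ Nat.card (iso B q) := by
  refine count (iso B q) _ (ext B halt u v huv) (ext_injective B halt u v huv) u v _ ?_ ?_ ?_
  · rintro g ⟨h1, h2, h3⟩ hgu
    refine ⟨?_, ?_⟩
    · have := h2 u v
      rwa [hgu, huv] at this
    · rw [h3, hv]
  · rintro x ⟨hx1, hx2⟩
    have hw : B u (x - v) = 0 := by rw [map_sub, hx1, huv, sub_self]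
    refine ⟨(eich B halt u v (x - v) hw).toEquiv, ⟨?_, ?_, ?_⟩, ?_, ?_⟩
    · intro y z
      exact map_add (eich B halt u v (x - v) hw) y z
    · intro y z
      exact eich_isom B halt u v (x - v) hw y z
    · intro y
      refine eich_q B halt u v q c h2c hq hq2 hu hv (x - v) hw ?_ y
      rw [add_sub_cancel, hx2]
    · exact eich_u B halt u v (x - v) hw
    · change eich B halt u v (x - v) hw v = x
      rw [eich_v B halt u v huv, add_sub_cancel]
  · intro g hg
    exact ext_mem B halt u v huv q c hq g hg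

omit huv in
theorem res_alt (x : perp B u v) : res B u v x x = 0 := halt _

theorem res_nd (hnd : ∀ v, (∀ w, B v w = 0) → v = 0) (x : perp B u v)
    (hx : ∀ y, res B u v x y = 0) : x = 0 := by
  apply Subtype.ext
  apply hnd
  intro w
  rw [map_eq B halt u v huv]
  have h1 : pl B u v (x : V) = 0 := pl_of_mem B halt u v x.2
  have h2 : pr B halt u v huv (x : V) = x := by
    apply Subtype.ext
    change (x : V) - pl B u v x = x
    rw [h1, sub_zero]
  rw [h1, h2, map_zero, LinearMap.zero_apply, zero_add]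
  exact hx (pr B halt u v huv w)

theorem card_le [Finite V] [Finite K] :
    Nat.card V ≤ Nat.card K * (Nat.card K * Nat.card (perp B u v)) := by
  rw [← Nat.card_prod, ← Nat.card_prod]
  apply Nat.card_le_card_of_injective (fun x => (B x v, B x u, pr B halt u v huv x))
  intro x y hxy
  have h1 : B x v = B y v := congrArg Prod.fst hxy
  have h2 : B x u = B y u := congrArg (fun t => t.2.1) hxy
  have h3 : pr B halt u v huv x = pr B halt u v huv y := congrArg (fun t => t.2.2) hxy
  rw [← pl_pr B halt u v huv x, ← pl_pr B halt u v huv y, h3, pl, pl, h1, h2]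

end Grp

theorem dvd_aux {l k m d X : ℕ} (hl : 2 ≤ l) (h1 : l ^ k * X = l ^ d) (h2 : l ^ m ≤ l ^ d)
    (h3 : k ≤ m) : l ^ (m - k) ∣ X := by
  have h4 : m ≤ d := (Nat.pow_le_pow_iff_right (by omega)).1 h2
  have h5 : l ^ d = l ^ k * l ^ (d - k) := by
    rw [← pow_add]
    congr 1
    omega
  rw [h5] at h1
  have h6 : X = l ^ (d - k) := Nat.eq_of_mul_eq_mul_left (by positivity) h1
  rw [h6]
  exact Nat.pow_dvd_pow l (by omega)

/-! ## The symplectic case -/

theorem card_symp {l : ℕ} [hl : Fact l.Prime] {V : Type*} [AddCommGroup V] [Module (ZMod l) V]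
    (B : LinearMap.BilinForm (ZMod l) V) (u v : V) (huv : B u v = 1) :
    l ^ 1 * Nat.card {x : V | B u x = 1 ∧ (0 : ZMod l) = 0} = Nat.card V := by
  have e : ZMod l × {x : V | B u x = 1 ∧ (0 : ZMod l) = 0} ≃ V :=
    { toFun := fun p => (p.2 : V) + (p.1 - 1) • v
      invFun := fun x => (B u x, ⟨x - (B u x - 1) • v, by
        refine ⟨?_, rfl⟩
        rw [map_sub, map_smul, huv, smul_eq_mul]
        ring⟩)
      left_inv := by
        rintro ⟨t, x, hx, _⟩
        have h1 : B u (x + (t - 1) • v) = t := by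
          rw [map_add, map_smul, huv, smul_eq_mul, hx]
          ring
        apply Prod.ext
        · exact h1
        · apply Subtype.ext
          change x + (t - 1) • v - (B u (x + (t - 1) • v) - 1) • v = x
          rw [h1, add_sub_cancel_right]
      right_inv := fun x => by
        change x - (B u x - 1) • v + (B u x - 1) • v = x
        rw [sub_add_cancel] }
  rw [← Nat.card_congr e, Nat.card_prod, Nat.card_zmod, pow_one]

theorem symp_aux (l : ℕ) [hl : Fact l.Prime] (n : ℕ) :
    ∀ (V : Type _) [AddCommGroup V] [Module (ZMod l) V] [Finite V]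
      (B : LinearMap.BilinForm (ZMod l) V), (∀ v, B v v = 0) →
      (∀ v, (∀ w, B v w = 0) → v = 0) → l ^ (2 * n) ≤ Nat.card V →
      l ^ (n ^ 2) ∣ Nat.card (iso B (fun _ => 0)) := by
  induction n with
  | zero =>
    intro V _ _ _ B _ _ _
    simp
  | succ n ih =>
    intro V _ _ _ B halt hnd hc
    have hl2 : 2 ≤ l := hl.out.two_le
    have : Nontrivial V := by
      apply Finite.one_lt_card_iff_nontrivial.1
      refine lt_of_lt_of_le ?_ hc
      exact Nat.one_lt_pow (by omega) (by omega)
    obtain ⟨u, hu⟩ := exists_ne (0 : V)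
    obtain ⟨v, huv⟩ : ∃ v, B u v = 1 := by
      by_contra hcon
      push Not at hcon
      apply hu
      apply hnd
      intro w
      by_contra hw
      apply hcon ((B u w)⁻¹ • w)
      rw [map_smul, smul_eq_mul, inv_mul_cancel₀ hw]
    have h1 := step B halt u v huv (fun _ => 0) 0 (by ring) (fun x y => by ring)
      (fun a x => by ring) rfl rfl
    have h2 := card_le B halt u v huv
    rw [Nat.card_zmod] at h2
    have h3 : l ^ (2 * n) ≤ Nat.card (perp B u v) := by
      have h4 : l ^ (2 * (n + 1)) = l * (l * l ^ (2 * n)) := by ring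
      rw [h4] at hc
      have h5 := hc.trans h2
      exact Nat.le_of_mul_le_mul_left (Nat.le_of_mul_le_mul_left h5 (by omega)) (by omega)
    have h4 := ih (perp B u v) (res B u v) (res_alt B halt u v)
      (res_nd B halt u v huv hnd) h3
    have h5 := card_symp B u v huv
    rw [Module.natCard_eq_pow_finrank (K := ZMod l) (V := V), Nat.card_zmod] at hc h5
    have h6 := dvd_aux hl2 h5 hc (by omega)
    have h7 := (Nat.mul_dvd_mul h6 h4).trans h1
    rw [← pow_add] at h7
    have h8 : 2 * (n + 1) - 1 + n ^ 2 = (n + 1) ^ 2 := by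
      have : 2 * (n + 1) - 1 = 2 * n + 1 := by omega
      rw [this]
      ring
    rwa [h8] at h7

/-! ## The orthogonal case -/

theorem zmod_two (a : ZMod 2) : a = 0 ∨ a = 1 := by
  fin_cases a
  · left; rfl
  · right; rfl

theorem card_orth {V : Type*} [AddCommGroup V] [Module (ZMod 2) V]
    (B : LinearMap.BilinForm (ZMod 2) V) (halt : ∀ v, B v v = 0) (q : V → ZMod 2)
    (hq : ∀ x y, q (x + y) = q x + q y + 1 * B x y)
    (hq2 : ∀ (a : ZMod 2) x, q (a • x) = a ^ 2 * q x)
    (u v : V) (huv : B u v = 1) (hu : q u = 0) :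
    2 ^ 2 * Nat.card {x : V | B u x = 1 ∧ q x = 0} = Nat.card V := by
  have hsymm : ∀ x y, B x y = B y x := fun x y => by
    rw [ZSymp.skew B halt x y, ZMod.neg_eq_self_mod_two]
  have hqs : ∀ (s : ZMod 2) (x : V), B u x = 1 → q (x + s • u) = q x + s := by
    intro s x hx
    rw [hq, hq2, hu, map_smul, hsymm, hx, smul_eq_mul]
    ring
  have hss : ∀ s : ZMod 2, s + s = 0 := fun s => CharTwo.add_self_eq_zero s
  have hsv : ∀ (s : ZMod 2) (x : V), s • x + s • x = 0 := fun s x => by
    rw [← add_smul, hss, zero_smul]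
  have e : ZMod 2 × ZMod 2 × {x : V | B u x = 1 ∧ q x = 0} ≃ V :=
    { toFun := fun p => (p.2.2 : V) + p.2.1 • u + (p.1 - 1) • v
      invFun := fun x => (B u x, q (x - (B u x - 1) • v),
        ⟨x - (B u x - 1) • v + q (x - (B u x - 1) • v) • u, by
          have h1 : B u (x - (B u x - 1) • v) = 1 := by
            rw [map_sub, map_smul, huv, smul_eq_mul]
            ring
          refine ⟨?_, ?_⟩
          · rw [map_add, h1, map_smul, halt, smul_zero, add_zero]
          · rw [hqs _ _ h1, hss]⟩)
      left_inv := by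
        rintro ⟨t, s, x, hx, hx2⟩
        have h1 : B u (x + s • u + (t - 1) • v) = t := by
          rw [map_add, map_add, map_smul, map_smul, huv, halt, smul_eq_mul, smul_eq_mul, hx]
          ring
        have h2 : x + s • u + (t - 1) • v - (B u (x + s • u + (t - 1) • v) - 1) • v
            = x + s • u := by
          rw [h1, add_sub_cancel_right]
        have h3 : q (x + s • u) = s := by
          rw [hqs s x hx, hx2, zero_add]
        refine Prod.ext h1 (Prod.ext ?_ (Subtype.ext ?_))
        · change q (x + s • u + (t - 1) • v - (B u (x + s • u + (t - 1) • v) - 1) • v) = s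
          rw [h2, h3]
        · change x + s • u + (t - 1) • v - (B u (x + s • u + (t - 1) • v) - 1) • v +
            q (x + s • u + (t - 1) • v - (B u (x + s • u + (t - 1) • v) - 1) • v) • u = x
          rw [h2, h3, add_assoc, hsv, add_zero]
      right_inv := fun x => by
        change x - (B u x - 1) • v + q (x - (B u x - 1) • v) • u +
          q (x - (B u x - 1) • v) • u + (B u x - 1) • v = x
        rw [add_assoc (x - (B u x - 1) • v), hsv, add_zero, sub_add_cancel] }
  rw [← Nat.card_congr e, Nat.card_prod, Nat.card_prod, Nat.card_zmod]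
  ring

theorem exists_out {V : Type*} [Finite V] (S : Finset V) (h : S.card < Nat.card V) :
    ∃ w, w ∉ S := by
  classical
  have := Fintype.ofFinite V
  by_contra hcon
  push Not at hcon
  have h1 : S = Finset.univ := Finset.eq_univ_iff_forall.2 hcon
  rw [h1, Finset.card_univ, Nat.card_eq_fintype_card] at h
  exact lt_irrefl _ h

theorem exists_perp {V : Type*} [AddCommGroup V] [Module (ZMod 2) V] [Finite V]
    (B : LinearMap.BilinForm (ZMod 2) V) (hc : 2 ^ 3 ≤ Nat.card V) (x : V) :
    ∃ y, B x y = 0 ∧ y ≠ 0 ∧ y ≠ x := by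
  classical
  have hsv : ∀ (x : V), x + x = 0 := fun x => by
    have : (2 : ZMod 2) • x = x + x := two_smul _ x
    rw [← this, show (2 : ZMod 2) = 0 from rfl, zero_smul]
  obtain ⟨z, hz⟩ := exists_out ({0, x} : Finset V) (by
    have := Finset.card_le_two (a := (0 : V)) (b := x)
    omega)
  rw [Finset.mem_insert, Finset.mem_singleton, not_or] at hz
  rcases zmod_two (B x z) with hz1 | hz1
  · exact ⟨z, hz1, hz.1, hz.2⟩
  obtain ⟨w, hw⟩ := exists_out ({0, x, z, x + z} : Finset V) (by
    have := Finset.card_le_four (a := (0 : V)) (b := x) (c := z) (d := x + z)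
    omega)
  simp only [Finset.mem_insert, Finset.mem_singleton, not_or] at hw
  rcases zmod_two (B x w) with hw1 | hw1
  · exact ⟨w, hw1, hw.1, hw.2.1⟩
  refine ⟨z + w, ?_, ?_, ?_⟩
  · rw [map_add, hz1, hw1]
    rfl
  · intro h
    apply hw.2.2.1
    have h1 := congrArg (fun t => z + t) h
    change z + (z + w) = z + 0 at h1
    rwa [← add_assoc, hsv, zero_add, add_zero] at h1
  · intro h
    apply hw.2.2.2
    have h1 := congrArg (fun t => z + t) h
    change z + (z + w) = z + x at h1
    rw [← add_assoc, hsv, zero_add] at h1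
    rw [h1, add_comm]

theorem exists_sing {V : Type*} [AddCommGroup V] [Module (ZMod 2) V] [Finite V]
    (B : LinearMap.BilinForm (ZMod 2) V) (q : V → ZMod 2)
    (hq : ∀ x y, q (x + y) = q x + q y + 1 * B x y) (hc : 2 ^ 3 ≤ Nat.card V) :
    ∃ u, u ≠ 0 ∧ q u = 0 := by
  by_contra hcon
  push Not at hcon
  have hcon : ∀ u, u ≠ 0 → q u = 1 := fun u hu => by
    rcases zmod_two (q u) with h | h
    · exact absurd h (hcon u hu)
    · exact h
  have : Nontrivial V := by
    apply Finite.one_lt_card_iff_nontrivial.1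
    omega
  obtain ⟨x, hx⟩ := exists_ne (0 : V)
  have h1 := exists_perp B hc x
  obtain ⟨y, hy, hy0, hyx⟩ := h1
  have h2 : x + y ≠ 0 := by
    intro h
    apply hyx
    have h3 : y = -x := (neg_eq_of_add_eq_zero_right h).symm
    rw [h3]
    have h4 : x + x = 0 := by
      have : (2 : ZMod 2) • x = x + x := two_smul _ x
      rw [← this, show (2 : ZMod 2) = 0 from rfl, zero_smul]
    exact (neg_eq_of_add_eq_zero_right h4)
  have h3 := hq x y
  rw [hcon _ h2, hcon _ hx, hcon _ hy0, hy] at h3
  revert h3
  decide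

theorem orth_aux (n : ℕ) :
    ∀ (V : Type _) [AddCommGroup V] [Module (ZMod 2) V] [Finite V]
      (B : LinearMap.BilinForm (ZMod 2) V) (q : V → ZMod 2), (∀ v, B v v = 0) →
      (∀ v, (∀ w, B v w = 0) → v = 0) → (∀ x y, q (x + y) = q x + q y + 1 * B x y) →
      2 ^ (2 * n) ≤ Nat.card V → 2 ^ (n * (n - 1)) ∣ Nat.card (iso B q) := by
  induction n with
  | zero =>
    intro V _ _ _ B _ _ _ _ _
    simp
  | succ n ih =>
    intro V _ _ _ B q halt hnd hq hc
    rcases Nat.eq_zero_or_pos n with hn | hn
    · subst hn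
      simp
    have hq0 : q 0 = 0 := by
      have h := hq 0 0
      rw [add_zero, map_zero, mul_zero, add_zero] at h
      exact left_eq_add.1 h
    have hq2 : ∀ (a : ZMod 2) x, q (a • x) = a ^ 2 * q x := by
      intro a x
      rcases zmod_two a with rfl | rfl
      · rw [zero_smul, hq0]
        ring
      · rw [one_smul]
        ring
    obtain ⟨u, hu, hqu⟩ := exists_sing B q hq (by
      refine le_trans ?_ hc
      exact Nat.pow_le_pow_right (by norm_num) (by omega))
    obtain ⟨v0, huv0⟩ : ∃ v, B u v = 1 := by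
      by_contra hcon
      push Not at hcon
      apply hu
      apply hnd
      intro w
      rcases zmod_two (B u w) with h | h
      · exact h
      · exact absurd h (hcon w)
    obtain ⟨v, huv, hqv⟩ : ∃ v, B u v = 1 ∧ q v = 0 := by
      refine ⟨v0 + q v0 • u, ?_, ?_⟩
      · rw [map_add, map_smul, huv0, halt, smul_zero, add_zero]
      · rw [hq, hq2, hqu, map_smul, ZSymp.skew B halt, huv0, smul_eq_mul,
          ZMod.neg_eq_self_mod_two]
        have := CharTwo.add_self_eq_zero (q v0)
        linear_combination this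
    have h1 := step B halt u v huv q 1 (by rfl) hq hq2 hqu hqv
    have h2 := card_le B halt u v huv
    rw [Nat.card_zmod] at h2
    have h3 : 2 ^ (2 * n) ≤ Nat.card (perp B u v) := by
      have h4 : 2 ^ (2 * (n + 1)) = 2 * (2 * 2 ^ (2 * n)) := by ring
      rw [h4] at hc
      omega
    have h4 := ih (perp B u v) (res B u v) (fun x => q (x : V)) (res_alt B halt u v)
      (res_nd B halt u v huv hnd) (fun x y => hq x y) h3
    have h5 := card_orth B halt q hq hq2 u v huv hqu
    rw [Module.natCard_eq_pow_finrank (K := ZMod 2) (V := V), Nat.card_zmod] at hc h5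
    have h6 := dvd_aux le_rfl h5 hc (by omega)
    have h7 := (Nat.mul_dvd_mul h6 h4).trans h1
    rw [← pow_add] at h7
    have h8 : 2 * (n + 1) - 2 + n * (n - 1) = (n + 1) * (n + 1 - 1) := by
      obtain ⟨m, rfl⟩ : ∃ m, n = m + 1 := ⟨n - 1, by omega⟩
      have h9 : 2 * (m + 1 + 1) - 2 = 2 * m + 2 := by omega
      rw [h9, Nat.add_sub_cancel, Nat.add_sub_cancel]
      ring
    rwa [h8] at h7

theorem exists_z {V : Type*} [AddCommGroup V] [Module (ZMod 2) V] [Finite V]
    (B : LinearMap.BilinForm (ZMod 2) V) (q : V → ZMod 2)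
    (hnd : ∀ v, (∀ w, B v w = 0) → v = 0) (hq : ∀ x y, q (x + y) = q x + q y + B x y)
    (hc : 2 ^ 6 ≤ Nat.card V) (a b u : V) :
    ∃ z, B a z = 0 ∧ B b z = 0 ∧ q z + B u z = 1 := by
  classical
  by_contra hcon
  push Not at hcon
  have hker : LinearMap.ker B = ⊥ := by
    rw [eq_bot_iff]
    intro v hv
    rw [LinearMap.mem_ker] at hv
    rw [Submodule.mem_bot]
    apply hnd
    intro w
    rw [hv]
    rfl
  have hdim : ∀ W : Submodule (ZMod 2) V,
      finrank (ZMod 2) W + finrank (ZMod 2) (B.orthogonal W) = finrank (ZMod 2) V := by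
    intro W
    have h := LinearMap.BilinForm.finrank_add_finrank_orthogonal' (B := B) W
    rwa [hker, inf_bot_eq, finrank_bot, add_zero] at h
  set W : Submodule (ZMod 2) V := Submodule.span (ZMod 2) ({a, b} : Set V) with hW
  have h2 : finrank (ZMod 2) W ≤ 2 := by
    have h3 := finrank_span_finset_le_card (R := ZMod 2) ({a, b} : Finset V)
    rw [Finset.coe_insert, Finset.coe_singleton] at h3
    exact h3.trans Finset.card_le_two
  have h3 : B.orthogonal W ≤ B.orthogonal (B.orthogonal W) := by
    have hz : ∀ z ∈ B.orthogonal W, q z + B u z = 0 := by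
      intro z hz
      rw [LinearMap.BilinForm.mem_orthogonal_iff] at hz
      have h4 : B a z = 0 := hz a (Submodule.subset_span (by simp))
      have h5 : B b z = 0 := hz b (Submodule.subset_span (by simp))
      rcases zmod_two (q z + B u z) with h6 | h6
      · exact h6
      · exact absurd h6 (hcon z h4 h5)
    intro z hz1
    rw [LinearMap.BilinForm.mem_orthogonal_iff]
    intro y hy
    have h4 := hz _ (Submodule.add_mem _ hy hz1)
    rw [hq, map_add] at h4
    have h5 := hz _ hz1
    have h6 := hz _ hy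
    change B y z = 0
    linear_combination h4 - h5 - h6
  have h4 := Submodule.finrank_mono h3
  have h5 := hdim W
  have h6 := hdim (B.orthogonal W)
  rw [Module.natCard_eq_pow_finrank (K := ZMod 2) (V := V), Nat.card_zmod] at hc
  have h7 := (Nat.pow_le_pow_iff_right (by norm_num)).1 hc
  omega

theorem exists_one {V : Type*} [AddCommGroup V] [Module (ZMod 2) V]
    (B : LinearMap.BilinForm (ZMod 2) V) (hnd : ∀ v, (∀ w, B v w = 0) → v = 0) (v : V)
    (hv : v ≠ 0) : ∃ u, B v u = 1 := by
  by_contra hcon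
  push Not at hcon
  apply hv
  apply hnd
  intro u
  rcases zmod_two (B v u) with h | h
  · exact h
  · exact absurd h (hcon u)

theorem exists_two {V : Type*} [AddCommGroup V] [Module (ZMod 2) V]
    (B : LinearMap.BilinForm (ZMod 2) V) (hnd : ∀ v, (∀ w, B v w = 0) → v = 0) (v w : V)
    (hv : v ≠ 0) (hw : w ≠ 0) (hvw : v ≠ w) : ∃ u, B v u = 1 ∧ B w u = 1 := by
  have key : ∀ v w : V, v ≠ 0 → w ≠ 0 → v ≠ w → ∃ a, B v a = 0 ∧ B w a = 1 := by
    intro v w hv hw hvw
    by_contra hcon
    push Not at hcon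
    have hcon2 : ∀ a, B v a = 0 → B w a = 0 := by
      intro a ha
      rcases zmod_two (B w a) with h | h
      · exact h
      · exact absurd h (hcon a ha)
    obtain ⟨w0, hw0⟩ := exists_one B hnd v hv
    have h1 : w - B w w0 • v = 0 := by
      apply hnd
      intro a
      have h2 := hcon2 (a - B v a • w0) (by
        rw [map_sub, map_smul, hw0, smul_eq_mul, mul_one, sub_self])
      rw [map_sub, map_smul, smul_eq_mul] at h2
      rw [map_sub, map_smul, LinearMap.sub_apply, LinearMap.smul_apply, smul_eq_mul]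
      linear_combination h2
    rcases zmod_two (B w w0) with h | h
    · rw [h, zero_smul, sub_zero] at h1
      exact hw h1
    · rw [h, one_smul] at h1
      exact hvw (sub_eq_zero.1 h1).symm
  obtain ⟨a, ha1, ha2⟩ := key v w hv hw hvw
  obtain ⟨b, hb1, hb2⟩ := key w v hw hv hvw.symm
  refine ⟨a + b, ?_, ?_⟩
  · rw [map_add, ha1, hb2, zero_add]
  · rw [map_add, ha2, hb1, add_zero]

theorem orth_irr_aux {G V : Type*} [Group G] [AddCommGroup V] [DistribMulAction G V]
    [Module (ZMod 2) V] [Finite V]
    (B : LinearMap.BilinForm (ZMod 2) V) (q : V → ZMod 2) (halt : ∀ v, B v v = 0)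
    (hnd : ∀ v, (∀ w, B v w = 0) → v = 0) (hq : ∀ x y, q (x + y) = q x + q y + B x y)
    (hiso : ∀ f : V ≃+ V, (∀ v, q (f v) = q v) → ∃ g : G, ∀ v, g • v = f v)
    (hc : 2 ^ 6 ≤ Nat.card V)
    (N : AddSubgroup V) (hN : ∀ g : G, ∀ v ∈ N, g • v ∈ N) (hne : N ≠ ⊥) : N = ⊤ := by
  classical
  have hq0 : q 0 = 0 := by
    have h := hq 0 0
    rw [add_zero, map_zero, add_zero] at h
    exact left_eq_add.1 h
  obtain ⟨n, hnN, hn0⟩ : ∃ n, n ∈ N ∧ n ≠ 0 := by
    by_contra hcon
    push Not at hcon
    apply hne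
    rw [eq_bot_iff]
    intro v hv
    rw [AddSubgroup.mem_bot]
    exact hcon v hv
  have key : ∀ x v, x ∈ N → q v = 1 → B x v = 1 → v ∈ N := by
    intro x v hx hv hxv
    obtain ⟨g, hg⟩ := hiso (ZSymp.transv B halt v) (fun y => by
      rw [ZSymp.transv_apply]
      rcases zmod_two (B y v) with h | h
      · rw [h, zero_smul, add_zero]
      · rw [h, one_smul, hq, hv, h, add_assoc, CharTwo.add_self_eq_zero, add_zero])
    have h1 : g • x ∈ N := hN g x hx
    rw [hg x, ZSymp.transv_apply, hxv, one_smul] at h1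
    have := N.sub_mem h1 hx
    rwa [add_sub_cancel_left] at this
  obtain ⟨v, hvN, hv⟩ : ∃ v, v ∈ N ∧ q v = 1 := by
    obtain ⟨v0, hv0⟩ := exists_one B hnd n hn0
    rcases zmod_two (q v0) with h | h
    · obtain ⟨z, hz1, _, hz2⟩ := exists_z B q hnd hq hc n n v0
      have h1 : q (v0 + z) = 1 := by
        rw [hq, h, zero_add, hz2]
      refine ⟨v0 + z, key n _ hnN h1 ?_, h1⟩
      rw [map_add, hv0, hz1, add_zero]
    · exact ⟨v0, key n v0 hnN h hv0, h⟩
  have hall : ∀ w, q w = 1 → w ∈ N := by
    intro w hw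
    by_cases hvw : v = w
    · rw [← hvw]
      exact hvN
    · have hv0 : v ≠ 0 := by
        intro h
        rw [h, hq0] at hv
        exact zero_ne_one hv
      have hw0 : w ≠ 0 := by
        intro h
        rw [h, hq0] at hw
        exact zero_ne_one hw
      obtain ⟨u0, hu1, hu2⟩ := exists_two B hnd v w hv0 hw0 hvw
      obtain ⟨u, hu, hu3, hu4⟩ : ∃ u, q u = 1 ∧ B v u = 1 ∧ B w u = 1 := by
        rcases zmod_two (q u0) with h | h
        · obtain ⟨z, hz1, hz2, hz3⟩ := exists_z B q hnd hq hc v w u0
          refine ⟨u0 + z, ?_, ?_, ?_⟩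
          · rw [hq, h, zero_add, hz3]
          · rw [map_add, hu1, hz1, add_zero]
          · rw [map_add, hu2, hz2, add_zero]
        · exact ⟨u0, h, hu1, hu2⟩
      have h1 : u ∈ N := key v u hvN hu hu3
      refine key u w h1 hw ?_
      rw [ZSymp.skew B halt, hu4, ZMod.neg_eq_self_mod_two]
  rw [eq_top_iff]
  intro x _
  rcases zmod_two (q x) with h | h
  · obtain ⟨z, hz1, _, hz2⟩ := exists_z B q hnd hq hc x x 0
    rw [map_zero, LinearMap.zero_apply, add_zero] at hz2
    have h1 : q (x + z) = 1 := by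
      rw [hq, h, hz1, hz2]
      ring
    have := N.sub_mem (hall _ h1) (hall _ hz2)
    rwa [add_sub_cancel_right] at this
  · exact hall x h

/-! ## Groups acting -/

section Act

variable {l : ℕ} [hl : Fact l.Prime] {G V : Type*} [Group G] [AddCommGroup V]
  [DistribMulAction G V]

/-- If all isometries of a nondegenerate alternating form come from `G` and `l ^ (2 n) ≤ #V`,
then `l ^ (n ^ 2)` divides the order of the image of `G`. -/
theorem symp [Finite V] (e : V →+ V →+ ZMod l) (hV : ∀ v : V, l • v = 0)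
    (halt : ∀ v, e v v = 0) (hnd : ∀ v, (∀ w, e v w = 0) → v = 0)
    (hiso : ∀ f : V ≃+ V, (∀ v w, e (f v) (f w) = e v w) → ∃ g : G, ∀ v, g • v = f v)
    (n : ℕ) (hcard : l ^ (2 * n) ≤ Nat.card V) :
    l ^ (n ^ 2) ∣ Nat.card (MulAction.toPermHom G V).range := by
  let m : Module (ZMod l) V := AddCommGroup.zmodModule hV
  refine (symp_aux l n V (ZSymp.bil e) halt hnd hcard).trans (Subgroup.card_dvd_of_le ?_)
  rintro f ⟨h1, h2, _⟩
  obtain ⟨g, hg⟩ := hiso { f with map_add' := h1 } h2
  exact ⟨g, by ext v; exact hg v⟩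

/-- If all isometries of a nonsingular quadratic form over `ZMod 2` come from `G` and
`2 ^ (2 n) ≤ #V`, then `2 ^ (n (n - 1))` divides the order of the image of `G`. -/
theorem orth [Finite V] (q : V → ZMod 2) (e : V →+ V →+ ZMod 2) (hV : ∀ v : V, 2 • v = 0)
    (hq : ∀ v w, q (v + w) = q v + q w + e v w) (hnd : ∀ v, (∀ w, e v w = 0) → v = 0)
    (hiso : ∀ f : V ≃+ V, (∀ v, q (f v) = q v) → ∃ g : G, ∀ v, g • v = f v)
    (n : ℕ) (hcard : 2 ^ (2 * n) ≤ Nat.card V) :
    2 ^ (n * (n - 1)) ∣ Nat.card (MulAction.toPermHom G V).range := by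
  let m : Module (ZMod 2) V := AddCommGroup.zmodModule hV
  have hq0 : q 0 = 0 := by
    have h := hq 0 0
    rw [add_zero, map_zero, add_zero] at h
    exact left_eq_add.1 h
  have halt : ∀ v, e v v = 0 := by
    intro v
    have h := hq v v
    rw [← two_nsmul v, hV, hq0, CharTwo.add_self_eq_zero, zero_add] at h
    exact h.symm
  refine (orth_aux n V (ZSymp.bil e) q halt hnd (fun x y => by
    rw [hq, one_mul]; rfl) hcard).trans (Subgroup.card_dvd_of_le ?_)
  rintro f ⟨h1, _, h3⟩
  obtain ⟨g, hg⟩ := hiso { f with map_add' := h1 } h3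
  exact ⟨g, by ext v; exact hg v⟩

/-- If all isometries of a nonsingular quadratic form over `ZMod 2` come from `G` and
`2 ^ 6 ≤ #V`, a nonzero `G`-stable subgroup is everything. -/
theorem orth_irreducible [Finite V] (q : V → ZMod 2) (e : V →+ V →+ ZMod 2)
    (hV : ∀ v : V, 2 • v = 0)
    (hq : ∀ v w, q (v + w) = q v + q w + e v w) (hnd : ∀ v, (∀ w, e v w = 0) → v = 0)
    (hiso : ∀ f : V ≃+ V, (∀ v, q (f v) = q v) → ∃ g : G, ∀ v, g • v = f v)
    (hcard : 2 ^ 6 ≤ Nat.card V)
    (N : AddSubgroup V) (hN : ∀ g : G, ∀ v ∈ N, g • v ∈ N) (hne : N ≠ ⊥) : N = ⊤ := by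
  let m : Module (ZMod 2) V := AddCommGroup.zmodModule hV
  have hq0 : q 0 = 0 := by
    have h := hq 0 0
    rw [add_zero, map_zero, add_zero] at h
    exact left_eq_add.1 h
  have halt : ∀ v, e v v = 0 := by
    intro v
    have h := hq v v
    rw [← two_nsmul v, hV, hq0, CharTwo.add_self_eq_zero, zero_add] at h
    exact h.symm
  exact orth_irr_aux (ZSymp.bil e) q halt hnd hq hiso hcard N hN hne

end Act

/-! ## The criterion -/

theorem num_symp (l : ℕ) [hl : Fact l.Prime] (h2 : l ≠ 2) (g : ℕ) (hg : 3 ≤ g) :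
    2 * g + padicValNat l (2 * g).factorial < g ^ 2 := by
  have h3 := sub_one_mul_padicValNat_factorial_lt_of_ne_zero (p := l)
    (show 2 * g ≠ 0 by omega)
  have h4 : 3 ≤ l := by
    have := hl.out.two_le
    omega
  have h6 : 2 * padicValNat l (2 * g).factorial ≤ (l - 1) * padicValNat l (2 * g).factorial :=
    Nat.mul_le_mul_right _ (by omega)
  nlinarith

theorem num_orth (g : ℕ) (hg : 5 ≤ g) :
    2 * g + padicValNat 2 (2 * g).factorial < g * (g - 1) := by
  have : Fact (Nat.Prime 2) := ⟨Nat.prime_two⟩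
  have h3 := sub_one_mul_padicValNat_factorial_lt_of_ne_zero (p := 2)
    (show 2 * g ≠ 0 by omega)
  obtain ⟨j, rfl⟩ : ∃ j, g = j + 5 := ⟨g - 5, by omega⟩
  rw [show j + 5 - 1 = j + 4 from rfl]
  nlinarith [Nat.zero_le (j * j)]

section Crit

variable {l : ℕ} [hl : Fact l.Prime] {G V : Type*} [Group G] [AddCommGroup V]
  [DistribMulAction G V]

omit hl in
theorem card_image :
    Nat.card (Set.range fun (g : G) (v : (⊤ : AddSubgroup V)) => g • (v : V)) =
      Nat.card (MulAction.toPermHom G V).range := by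
  symm
  apply Nat.card_congr
  refine Equiv.ofBijective
    (fun f => ⟨fun v => (f : Equiv.Perm V) v, by
      obtain ⟨g, hg⟩ := f.2
      refine ⟨g, ?_⟩
      funext v
      rw [← hg]
      rfl⟩) ⟨?_, ?_⟩
  · intro f f' h
    apply Subtype.ext
    ext v
    have h1 := congrArg (fun t : (Set.range fun (g : G) (v : (⊤ : AddSubgroup V)) =>
      g • (v : V)) => (t : (⊤ : AddSubgroup V) → V) ⟨v, AddSubgroup.mem_top v⟩) h
    exact h1
  · rintro ⟨_, g, rfl⟩
    exact ⟨⟨MulAction.toPermHom G V g, g, rfl⟩, rfl⟩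

/-- `l` odd: if all isometries of a nondegenerate alternating form on `V`, of order `l ^ (2 g)`
with `3 ≤ g`, come from `G`, then the criterion of Minkowski and Schur is violated on all
nonzero `G`-stable subgroups. -/
theorem symp_crit (hl2 : l ≠ 2) (e : V →+ V →+ ZMod l) (hV : ∀ v : V, l • v = 0)
    (halt : ∀ v, e v v = 0) (hnd : ∀ v, (∀ w, e v w = 0) → v = 0)
    (hiso : ∀ f : V ≃+ V, (∀ v w, e (f v) (f w) = e v w) → ∃ g : G, ∀ v, g • v = f v)
    (g : ℕ) (hg : 3 ≤ g) (hcard : Nat.card V = l ^ (2 * g))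
    (N : AddSubgroup V) (hN : ∀ g : G, ∀ v ∈ N, g • v ∈ N) (hne : N ≠ ⊥) (r : ℕ)
    (hr : Nat.card N = l ^ r) :
    r + padicValNat l r.factorial <
      padicValNat l (Nat.card (Set.range fun (g : G) (v : N) => g • (v : V))) := by
  have : Finite V := Nat.finite_of_card_ne_zero (by
    rw [hcard]
    exact pow_ne_zero _ hl.out.ne_zero)
  obtain rfl := ZSymp.irreducible e hV halt hnd hiso N hN hne
  have h1 := symp e hV halt hnd hiso g hcard.ge
  rw [← card_image] at h1
  have h2 : r = 2 * g := by
    rw [AddSubgroup.card_top, hcard] at hr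
    exact (Nat.pow_right_injective hl.out.two_le hr).symm
  have h3 : Nat.card (Set.range fun (g : G) (v : (⊤ : AddSubgroup V)) => g • (v : V)) ≠ 0 := by
    rw [card_image]
    exact Nat.card_pos.ne'
  rw [padicValNat_dvd_iff_le h3] at h1
  rw [h2]
  exact (num_symp l hl2 g hg).trans_le h1

/-- `l = 2`: if all isometries of a nonsingular quadratic form on `V`, of order `2 ^ (2 g)`
with `5 ≤ g`, come from `G`, then the criterion of Minkowski and Schur is violated on all
nonzero `G`-stable subgroups. -/
theorem orth_crit (q : V → ZMod 2) (e : V →+ V →+ ZMod 2)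
    (hV : ∀ v : V, 2 • v = 0)
    (hq : ∀ v w, q (v + w) = q v + q w + e v w) (hnd : ∀ v, (∀ w, e v w = 0) → v = 0)
    (hiso : ∀ f : V ≃+ V, (∀ v, q (f v) = q v) → ∃ g : G, ∀ v, g • v = f v)
    (g : ℕ) (hg : 5 ≤ g) (hcard : Nat.card V = 2 ^ (2 * g))
    (N : AddSubgroup V) (hN : ∀ g : G, ∀ v ∈ N, g • v ∈ N) (hne : N ≠ ⊥) (r : ℕ)
    (hr : Nat.card N = 2 ^ r) :
    r + padicValNat 2 r.factorial <
      padicValNat 2 (Nat.card (Set.range fun (g : G) (v : N) => g • (v : V))) := by
  have : Finite V := Nat.finite_of_card_ne_zero (by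
    rw [hcard]
    exact pow_ne_zero _ two_ne_zero)
  have hf : Fact (Nat.Prime 2) := ⟨Nat.prime_two⟩
  obtain rfl := orth_irreducible q e hV hq hnd hiso (by
    rw [hcard]
    exact Nat.pow_le_pow_right (by norm_num) (by omega)) N hN hne
  have h1 := orth q e hV hq hnd hiso g hcard.ge
  rw [← card_image] at h1
  have h2 : r = 2 * g := by
    rw [AddSubgroup.card_top, hcard] at hr
    exact (Nat.pow_right_injective le_rfl hr).symm
  have h3 : Nat.card (Set.range fun (g : G) (v : (⊤ : AddSubgroup V)) => g • (v : V)) ≠ 0 := by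
    rw [card_image]
    exact Nat.card_pos.ne'
  rw [padicValNat_dvd_iff_le h3] at h1
  rw [h2]
  exact (num_orth g hg).trans_le h1

end Crit

end ZOrd
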