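import Pool.Agent.Lib.MP_89bcae_ag.Z.DefsC
import Pool.Agent.Lib.MP_89bcae_ag.Z.Ord

/-!
# MP_89bcae_ag, front Z: symplectic or orthogonal images satisfy the criterion
-/

namespace Pool.Agent.Lib.MP_89bcae_ag.Zs

section Abs

variable {Γ W : Type*} [Group Γ] [AddCommGroup W] [DistribMulAction Γ W]

/-- The elements which preserve `U`. -/
def stab (U : AddSubgroup W) : Subgroup Γ where
  carrier := {γ | ∀ u : W, γ • u ∈ U ↔ u ∈ U}
  mul_mem' := by
    intro a b ha hb u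
    rw [mul_smul, ha, hb]
  one_mem' := fun u => by rw [one_smul]
  inv_mem' := by
    intro a ha u
    rw [← ha, smul_inv_smul]

/-- The action on a stable subgroup. -/
@[reducible] def actU (U : AddSubgroup W) (S : Subgroup Γ) (hS : ∀ γ ∈ S, ∀ u ∈ U, γ • u ∈ U) :
    DistribMulAction S U where
  smul γ u := ⟨(γ : Γ) • (u : W), hS γ γ.2 u u.2⟩
  one_smul u := Subtype.ext (one_smul Γ (u : W))
  mul_smul a b u := Subtype.ext (mul_smul (a : Γ) (b : Γ) (u : W))
  smul_zero a := Subtype.ext (smul_zero (a : Γ))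
  smul_add a u v := Subtype.ext (smul_add (a : Γ) (u : W) (v : W))

theorem abs (l : ℕ) (U : AddSubgroup W) (good : (U ≃+ U) → Prop)
    (hgood : ∀ (S : Subgroup Γ) (_ : DistribMulAction S U),
      (∀ f : U ≃+ U, good f → ∃ g : S, ∀ v, g • v = f v) → ∀ N : AddSubgroup U,
      (∀ g : S, ∀ v ∈ N, g • v ∈ N) → N ≠ ⊥ → N = ⊤ ∧ ∀ r, Nat.card N = l ^ r →
      r + padicValNat l r.factorial <
        padicValNat l (Nat.card (Set.range fun (g : S) (v : N) => g • (v : U))))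
    (hiso : ∀ f : U ≃+ U, good f → ∃ g : Γ, ∀ v : U, g • (v : W) = f v)
    (N : AddSubgroup W) (hNU : N ≤ U) (hne : N ≠ ⊥) (hN : ∀ g : Γ, ∀ v ∈ N, g • v ∈ N)
    (r : ℕ) (hr : Nat.card N = l ^ r) :
    r + padicValNat l r.factorial <
      padicValNat l (Nat.card (Set.range fun (g : Γ) (v : N) => g • (v : W))) := by
  have hN1 : N.addSubgroupOf U ≠ ⊥ := by
    intro h
    apply hne
    rw [AddSubgroup.addSubgroupOf_eq_bot] at h
    rw [eq_bot_iff]
    intro x hx
    have h1 := h.le_bot ⟨hx, hNU hx⟩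
    exact h1
  have hUN : U ≤ N := by
    let act := actU U (stab U : Subgroup Γ) (fun γ hγ u hu => (hγ u).2 hu)
    have h := (hgood (stab U) act ?_ (N.addSubgroupOf U) ?_ hN1).1
    · rwa [AddSubgroup.addSubgroupOf_eq_top] at h
    · intro f hf
      obtain ⟨γ, hγ⟩ := hiso f hf
      refine ⟨⟨γ, fun u => ⟨fun hu => ?_, fun hu => ?_⟩⟩, fun v => Subtype.ext (hγ v)⟩
      · have h1 := hγ (f.symm ⟨γ • u, hu⟩)
        rw [AddEquiv.apply_symm_apply] at h1
        have h2 := smul_left_cancel γ h1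
        rw [← h2]
        exact (f.symm ⟨γ • u, hu⟩).2
      · have h1 := hγ ⟨u, hu⟩
        change γ • u = _ at h1
        rw [h1]
        exact (f ⟨u, hu⟩).2
    · intro g v hv
      rw [AddSubgroup.mem_addSubgroupOf] at hv ⊢
      exact hN g v hv
  have hNU' : N = U := le_antisymm hNU hUN
  subst hNU'
  let act := actU N (⊤ : Subgroup Γ) (fun γ _ u hu => hN γ u hu)
  have h := (hgood ⊤ act ?_ ⊤ ?_ (by
    rw [AddSubgroup.addSubgroupOf_self] at hN1
    exact hN1)).2 r (by rw [AddSubgroup.card_top, hr])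
  · refine h.trans_eq ?_
    congr 1
    refine Nat.card_congr (Equiv.ofBijective (fun f => ⟨fun v => ((f : (⊤ : AddSubgroup N) → N)
      ⟨v, AddSubgroup.mem_top v⟩ : W), ?_⟩) ⟨?_, ?_⟩)
    · obtain ⟨g, hg⟩ := f.2
      refine ⟨g, ?_⟩
      funext v
      rw [← hg]
      rfl
    · intro f f' hff
      apply Subtype.ext
      funext v
      apply Subtype.ext
      have h1 := congrArg (fun t : Set.range (fun (g : Γ) (v : N) => g • (v : W)) =>
        (t : N → W) (v : N)) hff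
      exact h1
    · rintro ⟨_, g, rfl⟩
      exact ⟨⟨fun v => (⟨g, Subgroup.mem_top g⟩ : (⊤ : Subgroup Γ)) • (v : N),
        ⟨g, Subgroup.mem_top g⟩, rfl⟩, rfl⟩
  · intro f hf
    obtain ⟨γ, hγ⟩ := hiso f hf
    exact ⟨⟨γ, Subgroup.mem_top γ⟩, fun v => Subtype.ext (hγ v)⟩
  · intro g v _
    exact AddSubgroup.mem_top _

theorem range_congr {Γ α β α' β' : Type*} (f : Γ → α → β) (f' : Γ → α' → β') (i : β ≃ β')
    (p : α' → α) (hp : Function.Surjective p) (h : ∀ g a, i (f g (p a)) = f' g a) :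
    Nat.card (Set.range f) = Nat.card (Set.range f') := by
  refine Nat.card_congr (Equiv.ofBijective
    (fun a => ⟨fun u => i ((a : α → β) (p u)), ?_⟩) ⟨?_, ?_⟩)
  · obtain ⟨g, hg⟩ := a.2
    refine ⟨g, ?_⟩
    funext u
    rw [← hg]
    exact (h g u).symm
  · intro a a' haa
    apply Subtype.ext
    funext w
    obtain ⟨u, rfl⟩ := hp w
    have h1 := congrArg (fun t : Set.range f' => (t : α' → β') u) haa
    exact i.injective h1
  · rintro ⟨_, g, rfl⟩
    refine ⟨⟨f g, g, rfl⟩, ?_⟩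
    apply Subtype.ext
    funext u
    exact h g u

theorem absSymp {l : ℕ} [hl : Fact l.Prime] (hl2 : l ≠ 2) (U : AddSubgroup W)
    (hU : ∀ u : U, l • u = 0) (e : U →+ U →+ ZMod l) (halt : ∀ v, e v v = 0)
    (hnd : ∀ v, (∀ w, e v w = 0) → v = 0)
    (hiso : ∀ f : U ≃+ U, (∀ v w, e (f v) (f w) = e v w) → ∃ g : Γ, ∀ v : U, g • (v : W) = f v)
    (g : ℕ) (hg : 3 ≤ g) (hcard : Nat.card U = l ^ (2 * g))
    (N : AddSubgroup W) (hNU : N ≤ U) (hne : N ≠ ⊥) (hN : ∀ g : Γ, ∀ v ∈ N, g • v ∈ N)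
    (r : ℕ) (hr : Nat.card N = l ^ r) :
    r + padicValNat l r.factorial <
      padicValNat l (Nat.card (Set.range fun (g : Γ) (v : N) => g • (v : W))) := by
  refine abs l U (fun f => ∀ v w, e (f v) (f w) = e v w) ?_ hiso N hNU hne hN r hr
  intro S act hS M hM hMne
  refine ⟨ZSymp.irreducible (G := S) e hU halt hnd hS M hM hMne, fun r hr => ?_⟩
  exact ZOrd.symp_crit (G := S) hl2 e hU halt hnd hS g hg hcard M hM hMne r hr

theorem absOrth (U : AddSubgroup W)
    (hU : ∀ u : U, 2 • u = 0) (q : U → ZMod 2) (e : U →+ U →+ ZMod 2)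
    (hq : ∀ v w, q (v + w) = q v + q w + e v w)
    (hnd : ∀ v, (∀ w, e v w = 0) → v = 0)
    (hiso : ∀ f : U ≃+ U, (∀ v, q (f v) = q v) → ∃ g : Γ, ∀ v : U, g • (v : W) = f v)
    (g : ℕ) (hg : 5 ≤ g) (hcard : Nat.card U = 2 ^ (2 * g))
    (N : AddSubgroup W) (hNU : N ≤ U) (hne : N ≠ ⊥) (hN : ∀ g : Γ, ∀ v ∈ N, g • v ∈ N)
    (r : ℕ) (hr : Nat.card N = 2 ^ r) :
    r + padicValNat 2 r.factorial <
      padicValNat 2 (Nat.card (Set.range fun (g : Γ) (v : N) => g • (v : W))) := by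
  have : Finite U := Nat.finite_of_card_ne_zero (by
    rw [hcard]
    exact pow_ne_zero _ two_ne_zero)
  refine abs 2 U (fun f => ∀ v, q (f v) = q v) ?_ hiso N hNU hne hN r hr
  intro S act hS M hM hMne
  refine ⟨ZOrd.orth_irreducible (G := S) q e hU hq hnd hS (by
    rw [hcard]
    exact Nat.pow_le_pow_right (by norm_num) (by omega)) M hM hMne, fun r hr => ?_⟩
  exact ZOrd.orth_crit (G := S) q e hU hq hnd hS g hg hcard M hM hMne r hr

end Abs

section Field

variable {ℓ : ℕ} {k F E : Type} [Field k] [Field F] [Algebra k F] [Field E] [Algebra F E]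
  {t x : E}

theorem powers_le_comapC (γ : E ≃+* E) :
    powers ℓ E ≤ (powers ℓ E).comap (Units.map (γ : E →* E)) := by
  rintro _ ⟨u, rfl⟩
  exact ⟨Units.map (γ : E →* E) u, by simp [map_pow]⟩

/-- The action of an automorphism on the quotient by the `ℓ`-th powers. -/
def qact (γ : E ≃+* E) : (Eˣ ⧸ powers ℓ E) →* (Eˣ ⧸ powers ℓ E) :=
  QuotientGroup.map (powers ℓ E) (powers ℓ E) (Units.map (γ : E →* E)) (powers_le_comapC γ)

theorem qact_mk (γ : E ≃+* E) (u : Eˣ) :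
    qact (ℓ := ℓ) γ (u : Eˣ ⧸ powers ℓ E) =
      ((Units.map (γ : E →* E) u : Eˣ) : Eˣ ⧸ powers ℓ E) := rfl

/-- The Galois group acts on the quotient by the `ℓ`-th powers. -/
@[reducible] def actW (ℓ : ℕ) (k F : Type) {E : Type} [Field k] [Field F] [Algebra k F] [Field E]
    [Algebra F E] (t x : E) :
    DistribMulAction (galois ℓ k F t x) (Additive (Eˣ ⧸ powers ℓ E)) where
  smul γ w := Additive.ofMul (qact (γ : E ≃+* E) w.toMul)
  one_smul w := by
    apply Additive.toMul.injective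
    obtain ⟨u, hu⟩ := QuotientGroup.mk_surjective w.toMul
    change qact (1 : E ≃+* E) w.toMul = w.toMul
    rw [← hu]
    rw [qact_mk]
    congr 1
  mul_smul a b w := by
    apply Additive.toMul.injective
    obtain ⟨u, hu⟩ := QuotientGroup.mk_surjective w.toMul
    change qact ((a : E ≃+* E) * (b : E ≃+* E)) w.toMul =
      qact (a : E ≃+* E) (qact (b : E ≃+* E) w.toMul)
    rw [← hu, qact_mk, qact_mk, qact_mk]
    congr 1
  smul_zero a := by
    apply Additive.toMul.injective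
    change qact (a : E ≃+* E) 1 = 1
    rw [map_one]
  smul_add a v w := by
    apply Additive.toMul.injective
    change qact (a : E ≃+* E) (v.toMul * w.toMul) = _
    rw [map_mul]
    rfl

theorem smul_def (γ : galois ℓ k F t x) (w : Additive (Eˣ ⧸ powers ℓ E)) :
    (actW ℓ k F t x).smul γ w = Additive.ofMul (qact (γ : E ≃+* E) w.toMul) := rfl

/-- The group `J(B)[ℓ]`, written additively. -/
def tors (ℓ : ℕ) (F E : Type) [Field F] [Field E] [Algebra F E] :
    AddSubgroup (Additive (Eˣ ⧸ powers ℓ E)) :=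
  Subgroup.toAddSubgroup (torsion ℓ F E)

/-- The group `J(B)[ℓ]`, written additively. -/
def torsEquiv (ℓ : ℕ) (F E : Type) [Field F] [Field E] [Algebra F E] :
    tors ℓ F E ≃+ Additive (torsion ℓ F E) where
  toFun u := Additive.ofMul ⟨(u : Additive (Eˣ ⧸ powers ℓ E)).toMul, u.2⟩
  invFun u := ⟨Additive.ofMul (u.toMul : Eˣ ⧸ powers ℓ E), u.toMul.2⟩
  left_inv _ := rfl
  right_inv _ := rfl
  map_add' _ _ := rfl

theorem tors_smul (ℓ : ℕ) (F E : Type) [Field F] [Field E] [Algebra F E] (u : tors ℓ F E) :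
    ℓ • u = 0 := by
  apply Subtype.ext
  apply Additive.toMul.injective
  change ((u : Additive (Eˣ ⧸ powers ℓ E)).toMul) ^ ℓ = 1
  obtain ⟨v, hv⟩ := QuotientGroup.mk_surjective ((u : Additive (Eˣ ⧸ powers ℓ E)).toMul)
  rw [← hv, ← QuotientGroup.mk_pow, QuotientGroup.eq_one_iff]
  exact ⟨v, rfl⟩

theorem card_tors : Nat.card (tors ℓ F E) = Nat.card (torsion ℓ F E) :=
  Nat.card_congr ((torsEquiv ℓ F E).toEquiv.trans Additive.toMul)

theorem transfer (h : ∀ N : AddSubgroup (Additive (Eˣ ⧸ powers ℓ E)), N ≤ tors ℓ F E → N ≠ ⊥ →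
      (∀ γ : galois ℓ k F t x, ∀ v ∈ N, (actW ℓ k F t x).smul γ v ∈ N) →
      ∀ r, Nat.card N = ℓ ^ r → r + padicValNat ℓ r.factorial <
      padicValNat ℓ (Nat.card (Set.range fun (γ : galois ℓ k F t x) (v : N) =>
        (actW ℓ k F t x).smul γ (v : Additive (Eˣ ⧸ powers ℓ E))))) : IsCritical ℓ k F t x := by
  intro N hPN hNU hN r hr
  have hsm : ∀ (γ : galois ℓ k F t x) (u : Eˣ),
      (actW ℓ k F t x).smul γ (Additive.ofMul (u : Eˣ ⧸ powers ℓ E)) =
        Additive.ofMul ((Units.map ((γ : E ≃+* E) : E →* E) u : Eˣ) : Eˣ ⧸ powers ℓ E) :=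
    fun γ u => rfl
  set N1 : AddSubgroup (Additive (Eˣ ⧸ powers ℓ E)) :=
    Subgroup.toAddSubgroup (N.map (QuotientGroup.mk' (powers ℓ E))) with hN1
  have hmem : ∀ u : Eˣ, u ∈ N → Additive.ofMul (u : Eˣ ⧸ powers ℓ E) ∈ N1 :=
    fun u hu => ⟨u, hu, rfl⟩
  have hmem' : ∀ w ∈ N1, ∃ u ∈ N, w = Additive.ofMul (u : Eˣ ⧸ powers ℓ E) := by
    rintro w ⟨u, hu, hw⟩
    exact ⟨u, hu, hw.symm⟩
  have hcard : Nat.card N1 = ℓ ^ r := by
    have h1 := Subgroup.relIndex_ker N (QuotientGroup.mk' (powers ℓ E))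
    rw [QuotientGroup.ker_mk', hr] at h1
    rw [h1]
    exact Nat.card_congr (Equiv.subtypeEquiv Additive.toMul (fun _ => Iff.rfl))
  have h := h N1 ?_ ?_ ?_ r hcard
  · refine h.trans_eq (congrArg (padicValNat ℓ) (range_congr _ _ Additive.toMul
      (fun u => ⟨Additive.ofMul ((u : Eˣ) : Eˣ ⧸ powers ℓ E), hmem u u.2⟩) ?_ ?_))
    · intro w
      obtain ⟨u, hu, hw⟩ := hmem' w w.2
      exact ⟨⟨u, hu⟩, Subtype.ext hw.symm⟩
    · intro γ u
      rw [hsm]
      rfl
  · intro w hw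
    obtain ⟨u, hu, rfl⟩ := hmem' w hw
    exact ⟨u, hNU hu, rfl⟩
  · intro hbot
    obtain ⟨u, hu, huP⟩ := Set.exists_of_ssubset hPN
    have h1 := hmem u hu
    rw [hbot, AddSubgroup.mem_bot] at h1
    apply huP
    exact (QuotientGroup.eq_one_iff u).1 h1
  · intro γ w hw
    obtain ⟨u, hu, rfl⟩ := hmem' w hw
    rw [hsm]
    exact hmem _ (hN γ γ.2 u hu)

/-- The automorphism of `J(B)[ℓ]` attached to an additive one. -/
def toAut (f : tors ℓ F E ≃+ tors ℓ F E) : torsion ℓ F E ≃* torsion ℓ F E :=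
  AddEquiv.toMultiplicative (((torsEquiv ℓ F E).symm.trans f).trans (torsEquiv ℓ F E))

theorem induced (f : tors ℓ F E ≃+ tors ℓ F E) (hf : IsInduced ℓ k F t x (toAut f)) :
    ∃ γ : galois ℓ k F t x, ∀ v : tors ℓ F E,
      (actW ℓ k F t x).smul γ (v : Additive (Eˣ ⧸ powers ℓ E)) = f v := by
  obtain ⟨γ, hγ, hγ'⟩ := hf
  refine ⟨⟨γ, hγ⟩, fun v => ?_⟩
  obtain ⟨u, hu, hv⟩ := v.2
  have h1 : (v : Additive (Eˣ ⧸ powers ℓ E)) = Additive.ofMul (u : Eˣ ⧸ powers ℓ E) := hv.symm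
  have h2 := hγ' u ⟨u, hu, rfl⟩
  apply Additive.toMul.injective
  rw [h1]
  refine h2.symm.trans ?_
  have h3 : (⟨Additive.ofMul (u : Eˣ ⧸ powers ℓ E), ⟨u, hu, rfl⟩⟩ : tors ℓ F E) = v :=
    Subtype.ext h1.symm
  rw [← h3]
  rfl

/-- The pairing written additively. -/
def pair {ℓ' : ℕ} (e : torsion ℓ F E →* torsion ℓ F E →* Multiplicative (ZMod ℓ')) :
    tors ℓ F E →+ tors ℓ F E →+ ZMod ℓ' :=
  AddMonoidHom.mk' (fun u => AddMonoidHom.mk' (fun v =>
      (e (torsEquiv ℓ F E u).toMul (torsEquiv ℓ F E v).toMul).toAdd) (fun v w => by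
    rw [map_add, toMul_add, map_mul, toAdd_mul])) (fun u v => by
    ext w
    change (e (torsEquiv ℓ F E (u + v)).toMul (torsEquiv ℓ F E w).toMul).toAdd =
      (e (torsEquiv ℓ F E u).toMul (torsEquiv ℓ F E w).toMul).toAdd +
        (e (torsEquiv ℓ F E v).toMul (torsEquiv ℓ F E w).toMul).toAdd
    rw [map_add, toMul_add, map_mul, MonoidHom.mul_apply, toAdd_mul])

theorem pair_apply {ℓ' : ℕ} (e : torsion ℓ F E →* torsion ℓ F E →* Multiplicative (ZMod ℓ'))
    (u v : tors ℓ F E) :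
    pair e u v = (e (torsEquiv ℓ F E u).toMul (torsEquiv ℓ F E v).toMul).toAdd := rfl

theorem pair_nd {ℓ' : ℕ} (e : torsion ℓ F E →* torsion ℓ F E →* Multiplicative (ZMod ℓ'))
    (hnd : ∀ u, (∀ v, e u v = 1) → u = 1) (v : tors ℓ F E) (hv : ∀ w, pair e v w = 0) :
    v = 0 := by
  have h1 : (torsEquiv ℓ F E v).toMul = 1 := by
    apply hnd
    intro w
    have h2 := hv ((torsEquiv ℓ F E).symm (Additive.ofMul w))
    rw [pair_apply, AddEquiv.apply_symm_apply] at h2
    exact h2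
  have h3 : torsEquiv ℓ F E v = 0 := h1
  exact (map_eq_zero_iff (torsEquiv ℓ F E) (torsEquiv ℓ F E).injective).1 h3

/-- If all the automorphisms of a nondegenerate alternating pairing on `J(B)[ℓ]` come from
the Galois group, `ℓ` odd, `g ≥ 3`, then the criterion holds. -/
theorem IsSymplectic.isCritical [hl : Fact ℓ.Prime] (h : IsSymplectic ℓ k F t x) :
    IsCritical ℓ k F t x := by
  obtain ⟨hl2, g, hg, hcard, e, halt, hnd, hiso⟩ := h
  have h1 := @absSymp (galois ℓ k F t x) (Additive (Eˣ ⧸ powers ℓ E)) _ _ (actW ℓ k F t x) ℓ hl hl2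
    (tors ℓ F E)
  have h2 := h1 (tors_smul ℓ F E)
  have h3 := h2 (pair e)
  have h4 := h3 (by
    intro v
    rw [pair_apply, halt]
    rfl)
  have h5 := h4 (pair_nd e hnd)
  have h6 := h5 (by
    intro f hf
    refine induced f (hiso _ ?_)
    intro u v
    exact hf ((torsEquiv ℓ F E).symm (Additive.ofMul u)) ((torsEquiv ℓ F E).symm (Additive.ofMul v)))
  have h7 := h6 g hg (by rw [card_tors, hcard])
  apply transfer
  intro N hNU hne hN r hr
  have h8 := h7 N hNU hne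
  have h9 := h8 hN
  have h10 := h9 r hr
  exact h10

/-- If all the automorphisms of a nondegenerate quadratic form on `J(B)[2]` come from
the Galois group, `g ≥ 5`, then the criterion holds. -/
theorem IsOrthogonal.isCritical (h : IsOrthogonal ℓ k F t x) :
    IsCritical ℓ k F t x := by
  obtain ⟨rfl, g, hg, hcard, q, e, hq, hnd, hiso⟩ := h
  have h1 := @absOrth (galois 2 k F t x) (Additive (Eˣ ⧸ powers 2 E)) _ _ (actW 2 k F t x)
    (tors 2 F E)
  have h2 := h1 (tors_smul 2 F E)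
  have h3 := h2 (fun u => (q (torsEquiv 2 F E u).toMul).toAdd)
  have h4 := h3 (pair e)
  have h5 := h4 (by
    intro u v
    rw [pair_apply]
    change (q (torsEquiv 2 F E (u + v)).toMul).toAdd = _
    rw [map_add, toMul_add, hq, toAdd_mul, toAdd_mul])
  have h6 := h5 (pair_nd e hnd)
  have h7 := h6 (by
    intro f hf
    refine induced f (hiso _ ?_)
    intro u
    exact hf ((torsEquiv 2 F E).symm (Additive.ofMul u)))
  have h8 := h7 g hg (by rw [card_tors, hcard])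
  apply transfer
  intro N hNU hne hN r hr
  have h9 := h8 N hNU hne
  have h10 := h9 hN
  have h11 := h10 r hr
  exact h11

end Field

end Pool.Agent.Lib.MP_89bcae_ag.Zs
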