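import Pool.Agent.Lib.MP_89bcae_ag.Z.Defs

/-!
# Large images of the Galois group
-/

namespace Pool.Agent.Lib.MP_89bcae_ag.Zs

/-- The group `J(B)[ℓ]` (see `unramified`), as a subgroup of the quotient of `Eˣ` by the `ℓ`-th powers. -/
def torsion (ℓ : ℕ) (F E : Type) [Field F] [Field E] [Algebra F E] : Subgroup (Eˣ ⧸ powers ℓ E) :=
  (unramified ℓ F E).map (QuotientGroup.mk' (powers ℓ E))

/-- The automorphism `φ` of `J(B)[ℓ]` is induced by an element of the Galois group (see `galois`). -/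
def IsInduced (ℓ : ℕ) (k F : Type) {E : Type} [Field k] [Field F] [Algebra k F] [Field E] [Algebra F E]
    (t x : E) (φ : torsion ℓ F E ≃* torsion ℓ F E) : Prop :=
  ∃ γ ∈ galois ℓ k F t x, ∀ (u : Eˣ) (hu : (u : Eˣ ⧸ powers ℓ E) ∈ torsion ℓ F E),
    (φ ⟨u, hu⟩ : Eˣ ⧸ powers ℓ E) = ((Units.map (γ : E →* E) u : Eˣ) : Eˣ ⧸ powers ℓ E)

/-- The prime `ℓ` is odd, the group `J(B)[ℓ]` has `ℓ ^ (2 g)` elements with `g ≥ 3`, and there is a
nondegenerate alternating pairing on `J(B)[ℓ]`, with values in the group of order `ℓ`, such that all the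
automorphisms of `J(B)[ℓ]` which preserve the pairing are induced by elements of the Galois group. -/
def IsSymplectic (ℓ : ℕ) (k F : Type) {E : Type} [Field k] [Field F] [Algebra k F] [Field E] [Algebra F E]
    (t x : E) : Prop :=
  ℓ ≠ 2 ∧ ∃ g : ℕ, 3 ≤ g ∧ Nat.card (torsion ℓ F E) = ℓ ^ (2 * g) ∧
    ∃ e : torsion ℓ F E →* torsion ℓ F E →* Multiplicative (ZMod ℓ),
      (∀ u, e u u = 1) ∧ (∀ u, (∀ v, e u v = 1) → u = 1) ∧
      ∀ φ : torsion ℓ F E ≃* torsion ℓ F E, (∀ u v, e (φ u) (φ v) = e u v) →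
        IsInduced ℓ k F t x φ

/-- The prime `ℓ` is `2`, the group `J(B)[2]` has `2 ^ (2 g)` elements with `g ≥ 5`, and there is a function `q` on
`J(B)[2]` with values in the group of order `2`, such that `q(u v) / (q(u) q(v))` is a nondegenerate pairing (in other words, `q` is a
nondegenerate quadratic form) and that all the automorphisms of `J(B)[2]` which preserve `q` are
induced by elements of the Galois group. -/
def IsOrthogonal (ℓ : ℕ) (k F : Type) {E : Type} [Field k] [Field F] [Algebra k F] [Field E] [Algebra F E]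
    (t x : E) : Prop :=
  ℓ = 2 ∧ ∃ g : ℕ, 5 ≤ g ∧ Nat.card (torsion ℓ F E) = ℓ ^ (2 * g) ∧
    ∃ (q : torsion ℓ F E → Multiplicative (ZMod ℓ))
      (e : torsion ℓ F E →* torsion ℓ F E →* Multiplicative (ZMod ℓ)),
      (∀ u v, q (u * v) = q u * q v * e u v) ∧ (∀ u, (∀ v, e u v = 1) → u = 1) ∧
      ∀ φ : torsion ℓ F E ≃* torsion ℓ F E, (∀ u, q (φ u) = q u) → IsInduced ℓ k F t x φ

end Pool.Agent.Lib.MP_89bcae_ag.Zs
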