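import Pool.Agent.Lib.MP_89bcae_ag.Z.DefsC

/-!
# Large images of the Galois group

The group `J(B)[ℓ]` is the quotient of `unramified ℓ F E` by `powers ℓ E`. The functions on it, the pairings and the
automorphisms are given by functions of elements of `Eˣ`.
-/

namespace Pool.Agent.Lib.MP_89bcae_ag.Zs

/-- The function `e` induces a nondegenerate pairing on `J(B)[ℓ]` with values in `ℤ/ℓ`. -/
structure IsPairing (ℓ : ℕ) (F : Type) {E : Type} [Field F] [Field E] [Algebra F E]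
    (e : Eˣ → Eˣ → ZMod ℓ) : Prop where
  mul_left : ∀ u ∈ unramified ℓ F E, ∀ v ∈ unramified ℓ F E, ∀ w ∈ unramified ℓ F E,
    e (u * v) w = e u w + e v w
  mul_right : ∀ u ∈ unramified ℓ F E, ∀ v ∈ unramified ℓ F E, ∀ w ∈ unramified ℓ F E,
    e u (v * w) = e u v + e u w
  left : ∀ u ∈ unramified ℓ F E, (∀ v ∈ unramified ℓ F E, e u v = 0) ↔ u ∈ powers ℓ E
  right : ∀ v ∈ unramified ℓ F E, (∀ u ∈ unramified ℓ F E, e u v = 0) ↔ v ∈ powers ℓ E

/-- The function `φ` induces an injective endomorphism of the finite group `J(B)[ℓ]`, in other words an automorphism. -/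
structure IsAutomorphism (ℓ : ℕ) (F : Type) {E : Type} [Field F] [Field E] [Algebra F E]
    (φ : Eˣ → Eˣ) : Prop where
  mem : ∀ u ∈ unramified ℓ F E, φ u ∈ unramified ℓ F E
  mul : ∀ u ∈ unramified ℓ F E, ∀ v ∈ unramified ℓ F E, φ (u * v) / (φ u * φ v) ∈ powers ℓ E
  powers : ∀ u ∈ unramified ℓ F E, φ u ∈ powers ℓ E ↔ u ∈ powers ℓ E

/-- The automorphism of `J(B)[ℓ]` induced by `φ` is the one of an element `γ` of the Galois group (see `galois`). -/
def IsInducedBy (ℓ : ℕ) (k F : Type) {E : Type} [Field k] [Field F] [Algebra k F] [Field E] [Algebra F E]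
    (t x : E) (φ : Eˣ → Eˣ) : Prop :=
  ∃ γ ∈ galois ℓ k F t x, ∀ u ∈ unramified ℓ F E, Units.map (γ : E →* E) u / φ u ∈ powers ℓ E

/-- The prime `ℓ` is odd, the group `J(B)[ℓ]` has `ℓ ^ (2 g)` elements with `g ≥ 3`, and there is a
nondegenerate alternating pairing on `J(B)[ℓ]`, with values in the group of order `ℓ`, such that all the
automorphisms of `J(B)[ℓ]` which preserve the pairing are induced by elements of the Galois group. -/
def HasSymplectic (ℓ : ℕ) (k F : Type) {E : Type} [Field k] [Field F] [Algebra k F] [Field E] [Algebra F E]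
    (t x : E) : Prop :=
  ℓ ≠ 2 ∧ ∃ g : ℕ, 3 ≤ g ∧ (powers ℓ E).relIndex (unramified ℓ F E) = ℓ ^ (2 * g) ∧
    ∃ e : Eˣ → Eˣ → ZMod ℓ, IsPairing ℓ F e ∧ (∀ u ∈ unramified ℓ F E, e u u = 0) ∧
      ∀ φ : Eˣ → Eˣ, IsAutomorphism ℓ F φ →
        (∀ u ∈ unramified ℓ F E, ∀ v ∈ unramified ℓ F E, e (φ u) (φ v) = e u v) → IsInducedBy ℓ k F t x φ

/-- The prime `ℓ` is `2`, the group `J(B)[2]` has `2 ^ (2 g)` elements with `g ≥ 5`, and there is a function `q` on
`J(B)[2]` with values in the group of order `2`, such that `q(u v) - q(u) - q(v)` is a nondegenerate pairing (in other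
words, `q` is a nondegenerate quadratic form) and that all the automorphisms of `J(B)[2]` which preserve `q` are
induced by elements of the Galois group. -/
def HasOrthogonal (ℓ : ℕ) (k F : Type) {E : Type} [Field k] [Field F] [Algebra k F] [Field E] [Algebra F E]
    (t x : E) : Prop :=
  ℓ = 2 ∧ ∃ g : ℕ, 5 ≤ g ∧ (powers ℓ E).relIndex (unramified ℓ F E) = ℓ ^ (2 * g) ∧
    ∃ q : Eˣ → ZMod ℓ, (∀ u ∈ powers ℓ E, q u = 0) ∧
      IsPairing ℓ F (fun u v => q (u * v) - q u - q v) ∧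
      ∀ φ : Eˣ → Eˣ, IsAutomorphism ℓ F φ → (∀ u ∈ unramified ℓ F E, q (φ u) = q u) →
        IsInducedBy ℓ k F t x φ

end Pool.Agent.Lib.MP_89bcae_ag.Zs
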