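import Pool.Agent.Lib.MP_89bcae_ag.Z.DefsJ

/-!
# Large images of the Galois group: comparison of the definitions
-/

namespace Pool.Agent.Lib.MP_89bcae_ag.Zs

open scoped Classical

variable {ℓ : ℕ} {k F E : Type} [Field k] [Field F] [Algebra k F] [Field E] [Algebra F E] {t x : E}

theorem jac_powers_le : powers ℓ E ≤ unramified ℓ F E := by
  rintro u ⟨w, rfl⟩ O _
  refine ⟨w, ?_⟩
  rw [powMonoidHom_apply, Units.val_pow_eq_pow_val, map_pow]

theorem jac_div_mem (u v : Eˣ) : u / v ∈ powers ℓ E ↔ (u : Eˣ ⧸ powers ℓ E) = v := by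
  rw [← div_eq_one, ← QuotientGroup.mk_div, QuotientGroup.eq_one_iff]

theorem jac_mem {u : Eˣ} : (u : Eˣ ⧸ powers ℓ E) ∈ torsion ℓ F E ↔ u ∈ unramified ℓ F E := by
  constructor
  · rintro ⟨u', hu', h⟩
    have h1 : (u : Eˣ ⧸ powers ℓ E) = u' := h.symm
    have h2 := (unramified ℓ F E).mul_mem (jac_powers_le ((jac_div_mem u u').2 h1)) hu'
    rwa [div_mul_cancel] at h2
  · exact fun h => ⟨u, h, rfl⟩

/-- a representative -/
noncomputable def jacLift (c : torsion ℓ F E) : Eˣ := Classical.choose (Subgroup.mem_map.1 c.2)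

theorem jacLift_mem (c : torsion ℓ F E) : jacLift c ∈ unramified ℓ F E :=
  (Classical.choose_spec (Subgroup.mem_map.1 c.2)).1

theorem jacLift_coe (c : torsion ℓ F E) : (jacLift c : Eˣ ⧸ powers ℓ E) = c :=
  (Classical.choose_spec (Subgroup.mem_map.1 c.2)).2

section pairing

variable {e : Eˣ → Eˣ → ZMod ℓ} (he : IsPairing ℓ F e)

include he

theorem jac_left {u u' v : Eˣ} (hu : u ∈ unramified ℓ F E) (hu' : u' ∈ unramified ℓ F E)
    (hv : v ∈ unramified ℓ F E) (h : (u : Eˣ ⧸ powers ℓ E) = u') : e u v = e u' v := by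
  have h1 := (jac_div_mem u u').2 h
  have h2 := he.mul_left _ (jac_powers_le h1) u' hu' v hv
  rw [div_mul_cancel, (he.left _ (jac_powers_le h1)).2 h1 v hv, zero_add] at h2
  exact h2

theorem jac_right {u v v' : Eˣ} (hu : u ∈ unramified ℓ F E) (hv : v ∈ unramified ℓ F E)
    (hv' : v' ∈ unramified ℓ F E) (h : (v : Eˣ ⧸ powers ℓ E) = v') : e u v = e u v' := by
  have h1 := (jac_div_mem v v').2 h
  have h2 := he.mul_right u hu _ (jac_powers_le h1) v' hv'
  rw [div_mul_cancel, (he.right _ (jac_powers_le h1)).2 h1 u hu, zero_add] at h2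
  exact h2

theorem jac_congr {u u' v v' : Eˣ} (hu : u ∈ unramified ℓ F E) (hu' : u' ∈ unramified ℓ F E)
    (hv : v ∈ unramified ℓ F E) (hv' : v' ∈ unramified ℓ F E) (h : (u : Eˣ ⧸ powers ℓ E) = u')
    (h' : (v : Eˣ ⧸ powers ℓ E) = v') : e u v = e u' v' :=
  (jac_left he hu hu' hv h).trans (jac_right he hu' hv hv' h')

omit he in
/-- the pairing on `torsion` -/
noncomputable def jacPair (he : IsPairing ℓ F e) :
    torsion ℓ F E →* torsion ℓ F E →* Multiplicative (ZMod ℓ) :=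
  MonoidHom.mk' (fun c => MonoidHom.mk' (fun d => Multiplicative.ofAdd (e (jacLift c) (jacLift d))) (by
    intro d d'
    rw [← ofAdd_add, ← he.mul_right _ (jacLift_mem c) _ (jacLift_mem d) _ (jacLift_mem d')]
    congr 1
    refine jac_right he (jacLift_mem c) (jacLift_mem _) ((unramified ℓ F E).mul_mem (jacLift_mem d) (jacLift_mem d')) ?_
    rw [jacLift_coe, QuotientGroup.mk_mul, jacLift_coe, jacLift_coe]; rfl)) (by
    intro c c'
    ext d
    show Multiplicative.ofAdd (e (jacLift (c * c')) (jacLift d)) =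
      Multiplicative.ofAdd (e (jacLift c) (jacLift d)) * Multiplicative.ofAdd (e (jacLift c') (jacLift d))
    rw [← ofAdd_add, ← he.mul_left _ (jacLift_mem c) _ (jacLift_mem c') _ (jacLift_mem d)]
    congr 1
    refine jac_left he (jacLift_mem _) ((unramified ℓ F E).mul_mem (jacLift_mem c) (jacLift_mem c')) (jacLift_mem d) ?_
    rw [jacLift_coe, QuotientGroup.mk_mul, jacLift_coe, jacLift_coe]; rfl)

omit he in
theorem jacPair_apply (he : IsPairing ℓ F e) (c d : torsion ℓ F E) :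
    jacPair he c d = Multiplicative.ofAdd (e (jacLift c) (jacLift d)) := rfl

omit he in
theorem jacPair_nd (he : IsPairing ℓ F e) (c : torsion ℓ F E) (h : ∀ d, jacPair he c d = 1) : c = 1 := by
  have h1 : ∀ v ∈ unramified ℓ F E, e (jacLift c) v = 0 := by
    intro v hv
    have h2 := h ⟨v, jac_mem.2 hv⟩
    rw [jacPair_apply] at h2
    have h3 : e (jacLift c) (jacLift ⟨(v : Eˣ ⧸ powers ℓ E), jac_mem.2 hv⟩) = 0 := Multiplicative.ofAdd.injective h2
    rw [← h3]
    exact jac_right he (jacLift_mem c) hv (jacLift_mem _)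
      (jacLift_coe (⟨(v : Eˣ ⧸ powers ℓ E), jac_mem.2 hv⟩ : torsion ℓ F E)).symm
  have h2 := (he.left _ (jacLift_mem c)).1 h1
  apply Subtype.ext
  rw [← jacLift_coe c]
  exact (QuotientGroup.eq_one_iff _).2 h2

end pairing

/-- the function of elements of `Eˣ` for an automorphism -/
noncomputable def jacFun (φ : torsion ℓ F E ≃* torsion ℓ F E) (u : Eˣ) : Eˣ :=
  if h : (u : Eˣ ⧸ powers ℓ E) ∈ torsion ℓ F E then jacLift (φ ⟨u, h⟩) else 1

theorem jacFun_mem (φ : torsion ℓ F E ≃* torsion ℓ F E) {u : Eˣ} (hu : u ∈ unramified ℓ F E) :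
    jacFun φ u ∈ unramified ℓ F E := by
  rw [jacFun, dif_pos (jac_mem.2 hu)]
  exact jacLift_mem _

theorem jacFun_coe (φ : torsion ℓ F E ≃* torsion ℓ F E) {u : Eˣ} (hu : u ∈ unramified ℓ F E) :
    (jacFun φ u : Eˣ ⧸ powers ℓ E) = φ ⟨u, jac_mem.2 hu⟩ := by
  rw [jacFun, dif_pos (jac_mem.2 hu)]
  exact jacLift_coe _

theorem jacFun_isAutomorphism (φ : torsion ℓ F E ≃* torsion ℓ F E) :
    IsAutomorphism ℓ F (jacFun φ) := by
  refine ⟨fun u hu => jacFun_mem φ hu, fun u hu v hv => ?_, fun u hu => ?_⟩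
  · have h1 := jacFun_coe φ ((unramified ℓ F E).mul_mem hu hv)
    have h2 : (⟨((u * v : Eˣ) : Eˣ ⧸ powers ℓ E), jac_mem.2 ((unramified ℓ F E).mul_mem hu hv)⟩ :
        torsion ℓ F E) = ⟨u, jac_mem.2 hu⟩ * ⟨v, jac_mem.2 hv⟩ := rfl
    have h3 : ((jacFun φ u * jacFun φ v : Eˣ) : Eˣ ⧸ powers ℓ E) =
        (jacFun φ u : Eˣ ⧸ powers ℓ E) * (jacFun φ v : Eˣ ⧸ powers ℓ E) := rfl
    rw [jac_div_mem, h1, h2, map_mul, h3, jacFun_coe φ hu, jacFun_coe φ hv]
    rfl
  · rw [← QuotientGroup.eq_one_iff, jacFun_coe φ hu, ← QuotientGroup.eq_one_iff (N := powers ℓ E) u]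
    constructor
    · intro h
      have h1 : φ ⟨u, jac_mem.2 hu⟩ = 1 := Subtype.ext h
      have h2 := (map_eq_one_iff φ φ.injective).1 h1
      exact congrArg Subtype.val h2
    · intro h
      have h1 : (⟨u, jac_mem.2 hu⟩ : torsion ℓ F E) = 1 := Subtype.ext h
      rw [h1, map_one]; rfl

theorem jacFun_induced {φ : torsion ℓ F E ≃* torsion ℓ F E} (h : IsInducedBy ℓ k F t x (jacFun φ)) :
    IsInduced ℓ k F t x φ := by
  obtain ⟨γ, hγ, h⟩ := h
  refine ⟨γ, hγ, fun u hu => ?_⟩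
  have hu' := jac_mem.1 hu
  rw [← jacFun_coe φ hu']
  exact ((jac_div_mem _ _).1 (h u hu')).symm

theorem jac_card : (powers ℓ E).relIndex (unramified ℓ F E) = Nat.card (torsion ℓ F E) := by
  rw [torsion, ← Subgroup.relIndex_ker, QuotientGroup.ker_mk']

theorem HasSymplectic.isSymplectic (h : HasSymplectic ℓ k F t x) : IsSymplectic ℓ k F t x := by
  obtain ⟨h2, g, hg, hc, e, he, h3, h5⟩ := h
  refine ⟨h2, g, hg, by rw [← hc, jac_card], jacPair he, fun c => ?_, jacPair_nd he, fun φ hφ => ?_⟩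
  · rw [jacPair_apply, h3 _ (jacLift_mem c)]; rfl
  · refine jacFun_induced (h5 _ (jacFun_isAutomorphism φ) fun u hu v hv => ?_)
    have h6 : e (jacLift (φ ⟨u, jac_mem.2 hu⟩)) (jacLift (φ ⟨v, jac_mem.2 hv⟩)) =
        e (jacLift ⟨u, jac_mem.2 hu⟩) (jacLift ⟨v, jac_mem.2 hv⟩) :=
      Multiplicative.ofAdd.injective (hφ ⟨u, jac_mem.2 hu⟩ ⟨v, jac_mem.2 hv⟩)
    have h7 : e (jacFun φ u) (jacFun φ v) = e (jacLift (φ ⟨u, jac_mem.2 hu⟩)) (jacLift (φ ⟨v, jac_mem.2 hv⟩)) :=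
      jac_congr he (jacFun_mem φ hu) (jacLift_mem _) (jacFun_mem φ hv) (jacLift_mem _)
        (by rw [jacFun_coe φ hu, jacLift_coe]) (by rw [jacFun_coe φ hv, jacLift_coe])
    have h8 : e (jacLift ⟨u, jac_mem.2 hu⟩) (jacLift ⟨v, jac_mem.2 hv⟩) = e u v :=
      jac_congr he (jacLift_mem _) hu (jacLift_mem _) hv (jacLift_coe _) (jacLift_coe _)
    rw [h7, h6, h8]

theorem HasOrthogonal.isOrthogonal (h : HasOrthogonal ℓ k F t x) : IsOrthogonal ℓ k F t x := by
  obtain ⟨h2, g, hg, hc, q, hq, he, h5⟩ := h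
  -- `q` depends only on the class
  have hqc : ∀ {u u' : Eˣ}, u ∈ unramified ℓ F E → u' ∈ unramified ℓ F E → (u : Eˣ ⧸ powers ℓ E) = u' →
      q u = q u' := by
    intro u u' hu hu' h
    have h1 := (jac_div_mem u u').2 h
    have h3 := (he.left _ (jac_powers_le h1)).2 h1 u' hu'
    simp only [div_mul_cancel, hq _ h1, sub_zero] at h3
    exact sub_eq_zero.1 h3
  refine ⟨h2, g, hg, by rw [← hc, jac_card], fun c => Multiplicative.ofAdd (q (jacLift c)), jacPair he, fun c d => ?_,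
    jacPair_nd he, fun φ hφ => ?_⟩
  · show Multiplicative.ofAdd (q (jacLift (c * d))) = Multiplicative.ofAdd (q (jacLift c)) *
      Multiplicative.ofAdd (q (jacLift d)) * jacPair he c d
    rw [jacPair_apply, ← ofAdd_add, ← ofAdd_add]
    have h3 : q (jacLift (c * d)) = q (jacLift c * jacLift d) :=
      hqc (jacLift_mem _) ((unramified ℓ F E).mul_mem (jacLift_mem c) (jacLift_mem d)) (by
        rw [jacLift_coe, QuotientGroup.mk_mul, jacLift_coe, jacLift_coe]; rfl)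
    rw [h3]
    congr 1
    ring
  · refine jacFun_induced (h5 _ (jacFun_isAutomorphism φ) fun u hu => ?_)
    have h6 : q (jacLift (φ ⟨u, jac_mem.2 hu⟩)) = q (jacLift ⟨u, jac_mem.2 hu⟩) :=
      Multiplicative.ofAdd.injective (hφ ⟨u, jac_mem.2 hu⟩)
    have h7 : q (jacFun φ u) = q (jacLift (φ ⟨u, jac_mem.2 hu⟩)) :=
      hqc (jacFun_mem φ hu) (jacLift_mem _) (by rw [jacFun_coe φ hu, jacLift_coe])
    rw [h7, h6]
    exact hqc (jacLift_mem _) hu (jacLift_coe _)

end Pool.Agent.Lib.MP_89bcae_ag.Zs
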