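import Mathlib
import Pool.Agent.Lib.MP_89bcae_ag.Z.L4

/-!
# The elements attached to the locally trivial cocycles are unramified: all places
-/

attribute [local instance 100000] Pool.Agent.Lib.MP_89bcae_ag.Brt.tffFields
attribute [local instance 100000] Pool.Agent.Lib.MP_89bcae_ag.Wt.ifrNF Pool.Agent.Lib.MP_89bcae_ag.Wt.iddNF

open Polynomial IsDedekindDomain

open scoped Classical

namespace Pool.Agent.Lib.MP_89bcae_ag.Zs

open Pool.Agent.Lib.MP_89bcae_ag.Wt Pool.Agent.Lib.MP_89bcae_ag.Wt.Lns Pool.Agent.Lib.MP_89bcae_ag.Bra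
  Pool.Agent.Lib.MP_89bcae_ag.Brt Pool.Agent.Lib.MP_89bcae_ag.Zc

section

variable {k F L Ω E : Type} [Field k] [Field F] [Algebra k F] [IsAlgClosure k F] [Field L] [Algebra F[X] L]
  [IsFractionRing F[X] L] [Field Ω] [Algebra L Ω] [IsAlgClosure L Ω] [Field E] [Algebra L E] [Algebra E Ω]
  [IsScalarTower L E Ω] {ℓ e : ℕ} {f : k[X][X]}

/-- The values of the elements of `E`, at all places. -/
theorem l5_place (hℓ : ℓ.Prime) (hk : (ℓ : k) ≠ 0) (hB : IsBranchCurve ℓ e F f)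
    [hG : IsGood ℓ ((f.map (base k F L L)).map (algebraMap L Ω))] {ζ : L}
    (hζ : IsPrimitiveRoot ζ ℓ) {z : Ω → Ω} {c : (Ω ≃ₐ[L] Ω) → JacOver ℓ (f.map (base k F L L)) Ω}
    (hz : KumD ζ z c) {K M : Type} [Field K] [Field M] [Algebra K M] [IsAlgClosure K M]
    (i : L →+* K) (j : Ω →+* M) (hij : ∀ z, j (algebraMap L Ω z) = algebraMap K M (i z)) {v : AbsoluteValue M ℝ}
    (hv : IsPlace F i v) (hc : LTj (Lv := K) ℓ (f.map (base k F L L)) j c) {x u : E}
    (hx : ((f.map (base k F L L)).map (algebraMap L Ω)).eval (algebraMap E Ω x) = 0)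
    (hE : ∀ e : E, algebraMap E Ω e ∈ IntermediateField.adjoin L {algebraMap E Ω x}) (hu0 : u ≠ 0)
    (hu : z (algebraMap E Ω x) ^ ℓ = algebraMap E Ω u) :
    ∃ w : E, w ≠ 0 ∧ v (j (algebraMap E Ω u)) = v (j (algebraMap E Ω w)) ^ ℓ := by
  have hFa : IsAlgClosed F := IsAlgClosure.isAlgClosed k
  have hF0 : (ℓ : F) ≠ 0 := by
    rw [← map_natCast (algebraMap k F)]
    exact (_root_.map_ne_zero _).mpr hk
  obtain ⟨hsep, -⟩ := good_of (Ω := Ω) (L := L) hℓ hk hB
  have hmon : (Zs.ext F f).Monic := hB.monic.map _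
  have hdegn : (Zs.ext F f).natDegree = f.natDegree := hB.monic.natDegree_map _
  have hfm : (f.map (base k F L L)).Monic := hB.monic.map _
  have hdegL : (f.map (base k F L L)).natDegree = f.natDegree := hB.monic.natDegree_map _
  rcases le_or_gt (v (algebraMap K M (i (algebraMap F[X] L X)))) 1 with h | h
  · obtain ⟨s, hs⟩ := locF_fin hv h
    refine l4_chart (F := F) hℓ hF0 hfm (by rw [hdegL]; exact hB.coprime) hsep hζ hz (algebraMap F[X] L) (fun _ => rfl)
      hmon one_ne_zero ?_ (hB.smooth s) i j hij hs ⟨0, ?_⟩ hc hx hE hu0 hu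
    · rw [one_pow, C_1, one_mul, one_mul, comp_X, map_base_eq]
    · rw [map_one, map_one, map_one, mul_zero, zpow_zero]
  · obtain ⟨e', he'⟩ := hB.dvd
    have ht : algebraMap F[X] L X ≠ 0 := by
      rw [Ne, IsFractionRing.to_map_eq_zero_iff]
      exact X_ne_zero
    have hdeg : ∀ i, ((Zs.ext F f).coeff i).natDegree ≤ e * ((Zs.ext F f).natDegree - i) := by
      intro i
      rw [hdegn, Zs.ext, coeff_map]
      exact (natDegree_map_le).trans (hB.degree i)
    have hmon' := atInfinity_monic (e := e) hmon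
    refine l4_chart (F := F) hℓ hF0 hfm (by rw [hdegL]; exact hB.coprime) hsep hζ hz (invT F L) invT_C hmon'
      (a := (algebraMap F[X] L X) ^ e) (pow_ne_zero _ ht) ?_ (s := 0) hB.infinity i j hij ?_ ⟨-(e' : ℤ), ?_⟩ hc hx
      hE hu0 hu
    · have h1 := atInfinity_scale (L := L) he' hdeg ht
      rw [map_base_eq, ← h1]
      congr 2
      rw [← pow_mul, ← pow_mul, ← map_base_eq, hdegL, hdegn, he']
      ring
    · intro _ _ h1 h2
      exact locF_inf hv h (fun a => by rw [h1, invT_C]) (by rw [h1, invT_X]) h2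
    · rw [C_0, sub_zero, invT_X, map_inv₀, map_inv₀, map_inv₀, map_pow, map_pow, map_pow, he', inv_zpow', pow_mul,
        ← zpow_natCast, ← zpow_natCast, ← zpow_mul]
      congr 1
      ring

/-- The elements attached to the locally trivial cocycles are unramified. -/
theorem l5_unramified (hℓ : ℓ.Prime) (hk : (ℓ : k) ≠ 0) (hB : IsBranchCurve ℓ e F f)
    [hG : IsGood ℓ ((f.map (base k F L L)).map (algebraMap L Ω))] {ζ : L}
    (hζ : IsPrimitiveRoot ζ ℓ) {z : Ω → Ω} {c : (Ω ≃ₐ[L] Ω) → JacOver ℓ (f.map (base k F L L)) Ω}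
    (hz : KumD ζ z c) (hc : LTa F ℓ (f.map (base k F L L)) c) [FiniteDimensional L E] [Algebra F E]
    (hFE : ∀ c : F, algebraMap F E c = algebraMap L E (algebraMap F[X] L (C c))) {x : E} {u : Eˣ}
    (hx : ((f.map (base k F L L)).map (algebraMap L Ω)).eval (algebraMap E Ω x) = 0)
    (hE : ∀ e : E, algebraMap E Ω e ∈ IntermediateField.adjoin L {algebraMap E Ω x})
    (hu : z (algebraMap E Ω x) ^ ℓ = algebraMap E Ω u) : u ∈ unramified ℓ F E := by
  have hFa : IsAlgClosed F := IsAlgClosure.isAlgClosed k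
  intro O hO
  by_cases hOt : O = ⊤
  · refine ⟨1, ?_⟩
    subst hOt
    have h1 : ∀ a : Eˣ, (⊤ : ValuationSubring E).valuation (a : E) ≤ 1 := fun a =>
      (ValuationSubring.valuation_le_one_iff _ _).2 (ValuationSubring.mem_top _)
    have h2 := h1 u
    have h3 := h1 u⁻¹
    rw [Units.val_inv_eq_inv_val, map_inv₀] at h3
    have h4 : (⊤ : ValuationSubring E).valuation (u : E) ≠ 0 := (Valuation.ne_zero_iff _).2 u.ne_zero
    rw [Units.val_one, map_one, one_pow]
    refine le_antisymm h2 ?_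
    exact (inv_le_one₀ (zero_lt_iff.2 h4)).1 h3
  · obtain ⟨K, M, _, _, _, _, i, j, v, hij, hv, hOv⟩ := exists_place (F := F) (L := L) (Ω := Ω) O
      (fun c => by rw [← hFE]; exact hO c) hOt
    obtain ⟨w, hw0, hw⟩ := l5_place hℓ hk hB hζ hz i j hij hv (hc K M i j hij v hv) hx hE u.ne_zero hu
    refine ⟨Units.mk0 w hw0, ?_⟩
    have hv0 : v (j (algebraMap E Ω w)) ≠ 0 :=
      (v.ne_zero_iff).2 ((_root_.map_ne_zero j).2 ((_root_.map_ne_zero _).2 hw0))
    have h1 : v (j (algebraMap E Ω ((u : E) / w ^ ℓ))) = 1 := by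
      rw [map_div₀, map_div₀, map_div₀, map_pow, map_pow, map_pow, hw, div_self (pow_ne_zero _ hv0)]
    have h2 : ((u : E) / w ^ ℓ) ∈ O := (hOv _).2 h1.le
    have h3 : ((u : E) / w ^ ℓ)⁻¹ ∈ O := (hOv _).2 (by rw [map_inv₀, map_inv₀, map_inv₀, h1, inv_one])
    have h4 := (ValuationSubring.valuation_le_one_iff _ _).2 h2
    have h5 := (ValuationSubring.valuation_le_one_iff _ _).2 h3
    have hne : (u : E) / w ^ ℓ ≠ 0 := div_ne_zero u.ne_zero (pow_ne_zero _ hw0)
    have h6 : O.valuation ((u : E) / w ^ ℓ) ≠ 0 := (Valuation.ne_zero_iff _).2 hne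
    rw [map_inv₀] at h5
    have h7 : O.valuation ((u : E) / w ^ ℓ) = 1 :=
      le_antisymm h4 ((inv_le_one₀ (zero_lt_iff.2 h6)).1 h5)
    have h8 : O.valuation (w ^ ℓ) ≠ 0 := (Valuation.ne_zero_iff _).2 (pow_ne_zero _ hw0)
    rw [map_div₀, div_eq_one_iff_eq h8, map_pow] at h7
    exact h7

end

end Pool.Agent.Lib.MP_89bcae_ag.Zs
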