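import Mathlib

/-!
# MP_89bcae_ag, front Z: finite symplectic spaces

`V` is an additive group killed by the prime `l` with an alternating nondegenerate form
`e : V →+ V →+ ZMod l`, all of whose isometries are induced by a group `G` acting additively.

* `ZSymp.irreducible`: a nonzero `G`-stable subgroup of `V` is everything;
* `ZSymp.large`: if `l ^ 14 ≤ #V`, some subgroup `A` of `G` has a commutative image of exponent
  `l` in `AddAut V`, of order `a` with `(#V) ^ l ≤ a ^ (l - 1)` (the unipotent radical of the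
  stabiliser of a Lagrangian subspace).
-/

namespace ZSymp

open Module

/-! ## Linear algebra over a field -/

section LinAlg

variable {K V : Type*} [Field K] [AddCommGroup V] [Module K V]

theorem skew (B : LinearMap.BilinForm K V) (halt : ∀ v, B v v = 0) (x y : V) :
    B x y = - B y x := by
  have h := halt (x + y)
  simp only [map_add, LinearMap.add_apply, halt, zero_add, add_zero] at h
  exact eq_neg_of_add_eq_zero_right h

/-- A maximal isotropic subspace is its own orthogonal. -/
theorem exists_lagrangian [FiniteDimensional K V] (B : LinearMap.BilinForm K V)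
    (halt : ∀ v, B v v = 0) :
    ∃ W : Submodule K V, (∀ x ∈ W, ∀ y ∈ W, B x y = 0) ∧
      ∀ x, (∀ y ∈ W, B y x = 0) → x ∈ W := by
  classical
  set S : Set (Submodule K V) := {W | ∀ x ∈ W, ∀ y ∈ W, B x y = 0} with hS
  have hne : S.Nonempty := ⟨⊥, by
    intro x hx y hy
    rw [Submodule.mem_bot] at hx
    simp [hx]⟩
  obtain ⟨W, hW, hmax⟩ := (wellFounded_gt (α := Submodule K V)).has_min S hne
  refine ⟨W, hW, ?_⟩
  intro x hx
  by_contra hxW
  have hlt : W < W ⊔ Submodule.span K {x} := by
    refine lt_of_le_of_ne le_sup_left ?_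
    intro h
    apply hxW
    rw [h]
    exact (le_sup_right : Submodule.span K {x} ≤ W ⊔ Submodule.span K {x})
      (Submodule.mem_span_singleton_self x)
  refine hmax (W ⊔ Submodule.span K {x}) ?_ hlt
  intro a ha b hb
  obtain ⟨a1, ha1, a2, ha2, rfl⟩ := Submodule.mem_sup.1 ha
  obtain ⟨b1, hb1, b2, hb2, rfl⟩ := Submodule.mem_sup.1 hb
  obtain ⟨s, rfl⟩ := Submodule.mem_span_singleton.1 ha2
  obtain ⟨t, rfl⟩ := Submodule.mem_span_singleton.1 hb2
  have h1 : B a1 b1 = 0 := hW a1 ha1 b1 hb1
  have h2 : B a1 x = 0 := hx a1 ha1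
  have h3 : B x b1 = 0 := by rw [skew B halt, hx b1 hb1, neg_zero]
  simp [h1, h2, h3, halt x]

/-- Twice the dimension of a self orthogonal subspace is the dimension of the space. -/
theorem finrank_lagrangian [FiniteDimensional K V] (B : LinearMap.BilinForm K V)
    (hnd : ∀ v, (∀ w, B v w = 0) → v = 0)
    (W : Submodule K V) (hW : ∀ x ∈ W, ∀ y ∈ W, B x y = 0)
    (hW' : ∀ x, (∀ y ∈ W, B y x = 0) → x ∈ W) :
    finrank K V = 2 * finrank K W := by
  have hker : LinearMap.ker B = ⊥ := by
    rw [eq_bot_iff]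
    intro v hv
    rw [LinearMap.mem_ker] at hv
    rw [Submodule.mem_bot]
    apply hnd
    intro w
    rw [hv]
    rfl
  have hort : B.orthogonal W = W := by
    apply le_antisymm
    · intro x hx
      apply hW'
      intro y hy
      exact (LinearMap.BilinForm.mem_orthogonal_iff.1 hx) y hy
    · intro x hx
      rw [LinearMap.BilinForm.mem_orthogonal_iff]
      intro y hy
      exact hW y hy x hx
  have h := LinearMap.BilinForm.finrank_add_finrank_orthogonal' (B := B) W
  rw [hort, hker, inf_bot_eq, finrank_bot, add_zero] at h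
  omega

/-- Vectors dual to the basis of a subspace. -/
theorem exists_dual [FiniteDimensional K V] (B : LinearMap.BilinForm K V)
    (halt : ∀ v, B v v = 0) (hnd : ∀ v, (∀ w, B v w = 0) → v = 0)
    (W : Submodule K V) {n : ℕ} (b : Basis (Fin n) K W) :
    ∃ x : Fin n → V, ∀ k i, B (x k) (b i : V) = if k = i then 1 else 0 := by
  classical
  have hB : B.Nondegenerate := by
    constructor
    · intro v hv
      exact hnd v hv
    · intro v hv
      apply hnd
      intro w
      rw [skew B halt, hv w, neg_zero]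
  have h : ∀ k : Fin n, ∃ f : V →ₗ[K] K, ∀ i, f (b i : V) = if k = i then 1 else 0 := by
    intro k
    obtain ⟨f, hf⟩ := LinearMap.exists_extend (b.coord k)
    refine ⟨f, fun i => ?_⟩
    have h2 := LinearMap.congr_fun hf (b i)
    rw [LinearMap.comp_apply, Submodule.subtype_apply] at h2
    rw [h2, Basis.coord_apply, Basis.repr_self, Finsupp.single_apply]
    by_cases hki : k = i
    · simp [hki]
    · simp [hki, Ne.symm hki]
  choose f hf using h
  refine ⟨fun k => (B.toDual hB).symm (f k), fun k i => ?_⟩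
  rw [LinearMap.BilinForm.apply_toDual_symm_apply]
  exact hf k i

/-- The map `x ↦ ∑ c_{ij} e(x, w_i) w_j`. -/
noncomputable def sMap (B : LinearMap.BilinForm K V) {n : ℕ} (w : Fin n → V)
    (c : Sym2 (Fin n) → K) (x : V) : V :=
  ∑ i, ∑ j, (c s(i, j) * B x (w i)) • w j

variable (B : LinearMap.BilinForm K V) {n : ℕ} (w : Fin n → V)

theorem sMap_add (c : Sym2 (Fin n) → K) (x y : V) :
    sMap B w c (x + y) = sMap B w c x + sMap B w c y := by
  simp only [sMap, map_add, LinearMap.add_apply, mul_add, add_smul, Finset.sum_add_distrib]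

theorem sMap_add_left (c d : Sym2 (Fin n) → K) (x : V) :
    sMap B w (c + d) x = sMap B w c x + sMap B w d x := by
  simp only [sMap, Pi.add_apply, add_mul, add_smul, Finset.sum_add_distrib]

theorem sMap_zero_left (x : V) : sMap B w 0 x = 0 := by
  simp [sMap]

theorem sMap_neg_left (c : Sym2 (Fin n) → K) (x : V) :
    sMap B w (-c) x = - sMap B w c x := by
  have h := sMap_add_left B w (-c) c x
  rw [neg_add_cancel, sMap_zero_left] at h
  exact (eq_neg_of_add_eq_zero_left h.symm)

theorem sMap_right (hw : ∀ i j, B (w i) (w j) = 0) (c : Sym2 (Fin n) → K) (x : V) (j : Fin n) :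
    B (sMap B w c x) (w j) = 0 := by
  simp only [sMap, map_sum, LinearMap.sum_apply, map_smul, LinearMap.smul_apply, hw, smul_zero,
    Finset.sum_const_zero]

theorem sMap_comp (hw : ∀ i j, B (w i) (w j) = 0) (c d : Sym2 (Fin n) → K) (x : V) :
    sMap B w c (sMap B w d x) = 0 := by
  unfold sMap
  rw [show (∑ i, ∑ j, (d s(i, j) * B x (w i)) • w j) = sMap B w d x from rfl]
  simp only [sMap_right B w hw, mul_zero, zero_smul, Finset.sum_const_zero]

theorem sMap_left_right (hw : ∀ i j, B (w i) (w j) = 0) (c d : Sym2 (Fin n) → K) (x y : V) :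
    B (sMap B w c x) (sMap B w d y) = 0 := by
  conv_lhs => rw [sMap.eq_1 B w d y]
  simp only [map_sum, map_smul, sMap_right B w hw, smul_zero, Finset.sum_const_zero]

theorem sMap_symm (halt : ∀ v, B v v = 0) (c : Sym2 (Fin n) → K) (x y : V) :
    B (sMap B w c x) y + B x (sMap B w c y) = 0 := by
  simp only [sMap, map_sum, LinearMap.sum_apply, map_smul, LinearMap.smul_apply, smul_eq_mul]
  rw [Finset.sum_comm (f := fun i j => c s(i, j) * (B y) (w i) * (B x) (w j))]
  rw [← Finset.sum_add_distrib]
  apply Finset.sum_eq_zero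
  intro i _
  rw [← Finset.sum_add_distrib]
  apply Finset.sum_eq_zero
  intro j _
  rw [Sym2.eq_swap, skew B halt (w j) y]
  ring

theorem sMap_injective (x : Fin n → V) (hx : ∀ k i, B (x k) (w i) = if k = i then 1 else 0)
    (hw : LinearIndependent K w) (c : Sym2 (Fin n) → K) (h : ∀ v, sMap B w c v = 0) : c = 0 := by
  classical
  funext q
  induction q using Sym2.ind with
  | _ k j =>
    have h1 := h (x k)
    unfold sMap at h1
    rw [Finset.sum_comm] at h1
    have h2 : ∀ j, (∑ i, (c s(i, j) * B (x k) (w i)) • w j) = c s(k, j) • w j := by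
      intro j
      rw [Finset.sum_eq_single k]
      · rw [hx k k, if_pos rfl, mul_one]
      · intro i _ hik
        rw [hx k i, if_neg (Ne.symm hik), mul_zero, zero_smul]
      · intro hk
        exact absurd (Finset.mem_univ k) hk
    rw [Finset.sum_congr rfl (fun j _ => h2 j)] at h1
    exact (Fintype.linearIndependent_iff.1 hw) (fun j => c s(k, j)) h1 j

/-- The isometry `1 + s_c`. -/
noncomputable def phi (hw : ∀ i j, B (w i) (w j) = 0) (c : Sym2 (Fin n) → K) : V ≃+ V where
  toFun x := x + sMap B w c x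
  invFun x := x + sMap B w (-c) x
  left_inv x := by
    change (x + sMap B w c x) + sMap B w (-c) (x + sMap B w c x) = x
    rw [sMap_add, sMap_comp B w hw, sMap_neg_left, add_zero, add_neg_cancel_right]
  right_inv x := by
    change (x + sMap B w (-c) x) + sMap B w c (x + sMap B w (-c) x) = x
    rw [sMap_add, sMap_comp B w hw, sMap_neg_left, add_zero, neg_add_cancel_right]
  map_add' x y := by
    rw [sMap_add]
    abel

theorem phi_apply (hw : ∀ i j, B (w i) (w j) = 0) (c : Sym2 (Fin n) → K) (x : V) :
    phi B w hw c x = x + sMap B w c x := rfl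

theorem phi_isom (halt : ∀ v, B v v = 0) (hw : ∀ i j, B (w i) (w j) = 0)
    (c : Sym2 (Fin n) → K) (x y : V) :
    B (phi B w hw c x) (phi B w hw c y) = B x y := by
  rw [phi_apply, phi_apply]
  simp only [map_add, LinearMap.add_apply]
  rw [sMap_left_right B w hw, add_zero]
  have h := sMap_symm B w halt c x y
  linear_combination h

theorem phi_add (hw : ∀ i j, B (w i) (w j) = 0) (c d : Sym2 (Fin n) → K) (x : V) :
    phi B w hw (c + d) x = phi B w hw c (phi B w hw d x) := by
  simp only [phi_apply, sMap_add, sMap_comp B w hw, sMap_add_left, add_zero]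
  abel

/-- `c ↦ 1 + s_c` as a homomorphism. -/
noncomputable def phiHom (hw : ∀ i j, B (w i) (w j) = 0) :
    Multiplicative (Sym2 (Fin n) → K) →* Equiv.Perm V where
  toFun c := (phi B w hw (Multiplicative.toAdd c)).toEquiv
  map_one' := by
    ext x
    change phi B w hw 0 x = x
    rw [phi_apply, sMap_zero_left, add_zero]
  map_mul' c d := by
    ext x
    exact phi_add B w hw (Multiplicative.toAdd c) (Multiplicative.toAdd d) x

theorem phiHom_injective (x : Fin n → V) (hx : ∀ k i, B (x k) (w i) = if k = i then 1 else 0)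
    (hw : ∀ i j, B (w i) (w j) = 0) (hli : LinearIndependent K w) :
    Function.Injective (phiHom B w hw) := by
  rw [injective_iff_map_eq_one]
  intro c hc
  have h : Multiplicative.toAdd c = 0 := by
    apply sMap_injective B w x hx hli
    intro v
    have h1 : phiHom B w hw c v = v := by rw [hc]; rfl
    have h2 : phiHom B w hw c v = v + sMap B w (Multiplicative.toAdd c) v := rfl
    rw [h1] at h2
    exact left_eq_add.1 h2
  exact Multiplicative.toAdd.injective h

/-- The transvection `x ↦ x + e(x, v) v`. -/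
def transv (halt : ∀ v, B v v = 0) (v : V) : V ≃+ V where
  toFun x := x + B x v • v
  invFun x := x - B x v • v
  left_inv x := by
    simp only [map_add, LinearMap.add_apply, map_smul, LinearMap.smul_apply, halt, smul_zero,
      add_zero]
    abel
  right_inv x := by
    simp only [map_sub, LinearMap.sub_apply, map_smul, LinearMap.smul_apply, halt, smul_zero,
      sub_zero]
    abel
  map_add' x y := by
    simp only [map_add, LinearMap.add_apply, add_smul]
    abel

theorem transv_apply (halt : ∀ v, B v v = 0) (v x : V) :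
    transv B halt v x = x + B x v • v := rfl

theorem transv_isom (halt : ∀ v, B v v = 0) (v x y : V) :
    B (transv B halt v x) (transv B halt v y) = B x y := by
  simp only [transv_apply, map_add, LinearMap.add_apply, map_smul, LinearMap.smul_apply, halt,
    smul_eq_mul, mul_zero, add_zero]
  rw [skew B halt v y]
  ring

end LinAlg

/-! ## Groups acting on a finite symplectic space -/

section Group

variable {l : ℕ} [hl : Fact l.Prime] {G V : Type*} [Group G] [AddCommGroup V]
  [DistribMulAction G V]

/-- The bilinear form over `ZMod l` of a biadditive form. -/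
noncomputable def bil [Module (ZMod l) V] (e : V →+ V →+ ZMod l) : LinearMap.BilinForm (ZMod l) V :=
  LinearMap.mk₂ (ZMod l) (fun x y => e x y)
    (fun x y z => by rw [map_add, AddMonoidHom.add_apply])
    (fun c x y => by
      have h := ZMod.map_smul (AddMonoidHom.flip e y) c x
      exact h)
    (fun x y z => map_add _ _ _)
    (fun c x y => ZMod.map_smul (e x) c y)

theorem bil_apply [Module (ZMod l) V] (e : V →+ V →+ ZMod l) (x y : V) :
    bil e x y = e x y := rfl

theorem irreducible_aux [Module (ZMod l) V] (B : LinearMap.BilinForm (ZMod l) V)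
    (halt : ∀ v, B v v = 0) (hnd : ∀ v, (∀ w, B v w = 0) → v = 0)
    (hiso : ∀ f : V ≃+ V, (∀ v w, B (f v) (f w) = B v w) → ∃ g : G, ∀ v, g • v = f v)
    (N : AddSubgroup V) (hN : ∀ g : G, ∀ v ∈ N, g • v ∈ N) (hne : N ≠ ⊥) : N = ⊤ := by
  classical
  have hsm : ∀ (c : ZMod l) (v : V), v ∈ N → c • v ∈ N := by
    intro c v hv
    have h : c • v = (c.val : ℕ) • v := by
      conv_lhs => rw [← ZMod.natCast_zmod_val c]
      exact Nat.cast_smul_eq_nsmul (ZMod l) c.val v
    rw [h]
    exact N.nsmul_mem hv _
  obtain ⟨n, hnN, hn0⟩ : ∃ n, n ∈ N ∧ n ≠ 0 := by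
    by_contra hcon
    push Not at hcon
    apply hne
    rw [eq_bot_iff]
    intro v hv
    rw [AddSubgroup.mem_bot]
    exact hcon v hv
  have key : ∀ v, B n v ≠ 0 → v ∈ N := by
    intro v hv
    obtain ⟨g, hg⟩ := hiso (transv B halt v) (fun x y => transv_isom B halt v x y)
    have h1 : g • n ∈ N := hN g n hnN
    rw [hg n, transv_apply] at h1
    have h2 : B n v • v ∈ N := by
      have := N.sub_mem h1 hnN
      rwa [add_sub_cancel_left] at this
    have h3 := hsm (B n v)⁻¹ _ h2
    rw [smul_smul, inv_mul_cancel₀ hv, one_smul] at h3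
    exact h3
  obtain ⟨w, hw⟩ : ∃ w, B n w ≠ 0 := by
    by_contra hcon
    push Not at hcon
    exact hn0 (hnd n hcon)
  rw [eq_top_iff]
  intro v _
  by_cases hv : B n v = 0
  · have h1 : v + w ∈ N := by
      apply key
      rw [map_add, hv, zero_add]
      exact hw
    have h2 := N.sub_mem h1 (key w hw)
    rwa [add_sub_cancel_right] at h2
  · exact key v hv

/-- (a) If all isometries of a nondegenerate alternating form come from `G`, a nonzero
`G`-stable subgroup is everything. -/
theorem irreducible (e : V →+ V →+ ZMod l) (hV : ∀ v : V, l • v = 0)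
    (halt : ∀ v, e v v = 0) (hnd : ∀ v, (∀ w, e v w = 0) → v = 0)
    (hiso : ∀ f : V ≃+ V, (∀ v w, e (f v) (f w) = e v w) → ∃ g : G, ∀ v, g • v = f v)
    (N : AddSubgroup V) (hN : ∀ g : G, ∀ v ∈ N, g • v ∈ N) (hne : N ≠ ⊥) : N = ⊤ := by
  let m : Module (ZMod l) V := AddCommGroup.zmodModule hV
  exact @irreducible_aux l hl G V _ _ _ m (@bil l hl V _ m e) halt hnd hiso N hN hne

omit hl in
theorem num_aux (m g : ℕ) (hm : 1 ≤ m) (hg : 7 ≤ g) : 4 * g * (m + 1) ≤ (g + 1) * g * m := by
  obtain ⟨k, rfl⟩ : ∃ k, g = k + 7 := ⟨g - 7, by omega⟩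
  obtain ⟨j, rfl⟩ : ∃ j, m = j + 1 := ⟨m - 1, by omega⟩
  nlinarith [Nat.zero_le (k * j), Nat.zero_le k, Nat.zero_le j, Nat.zero_le (k * k * j),
    Nat.zero_le (k * k)]

theorem large_aux [Finite V] [Module (ZMod l) V] (B : LinearMap.BilinForm (ZMod l) V)
    (halt : ∀ v, B v v = 0) (hnd : ∀ v, (∀ w, B v w = 0) → v = 0)
    (hiso : ∀ f : V ≃+ V, (∀ v w, B (f v) (f w) = B v w) → ∃ g : G, ∀ v, g • v = f v)
    (hcard : l ^ 14 ≤ Nat.card V) :
    ∃ A : Subgroup G, (∀ a ∈ A, ∀ b ∈ A, ∀ v : V, a • b • v = b • a • v) ∧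
      (∀ a ∈ A, ∀ v : V, a ^ l • v = v) ∧
      Nat.card V ^ l ≤ Nat.card (A.map (MulAction.toPermHom G V)) ^ (l - 1) := by
  classical
  have hl2 : 2 ≤ l := hl.out.two_le
  obtain ⟨W, hW, hW'⟩ := exists_lagrangian B halt
  have hfr := finrank_lagrangian B hnd W hW hW'
  set g : ℕ := finrank (ZMod l) W with hg
  set b : Basis (Fin g) (ZMod l) W := Module.finBasis (ZMod l) W with hb
  set w : Fin g → V := fun i => (b i : V) with hwdef
  have hw : ∀ i j, B (w i) (w j) = 0 := fun i j => hW _ (b i).2 _ (b j).2
  obtain ⟨x, hx⟩ := exists_dual B halt hnd W b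
  have hli : LinearIndependent (ZMod l) w :=
    b.linearIndependent.map' W.subtype (Submodule.ker_subtype W)
  have hinj := phiHom_injective B w x hx hw hli
  set U : Subgroup (Equiv.Perm V) := (phiHom B w hw).range with hU
  have hUle : U ≤ (MulAction.toPermHom G V).range := by
    rintro _ ⟨c, rfl⟩
    obtain ⟨a, ha⟩ := hiso (phi B w hw (Multiplicative.toAdd c))
      (fun x y => phi_isom B w halt hw (Multiplicative.toAdd c) x y)
    exact ⟨a, by ext v; exact ha v⟩
  refine ⟨U.comap (MulAction.toPermHom G V), ?_, ?_, ?_⟩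
  · rintro a ⟨c, hc⟩ a' ⟨d, hd⟩ v
    have h1 : ∀ y : V, a • y = phiHom B w hw c y := fun y => by rw [hc]; rfl
    have h2 : ∀ y : V, a' • y = phiHom B w hw d y := fun y => by rw [hd]; rfl
    rw [h1, h2, h2, h1]
    have h3 : phiHom B w hw c * phiHom B w hw d = phiHom B w hw d * phiHom B w hw c := by
      rw [← map_mul, ← map_mul, mul_comm]
    exact DFunLike.congr_fun h3 v
  · rintro a ⟨c, hc⟩ v
    have h1 : MulAction.toPermHom G V (a ^ l) = 1 := by
      rw [map_pow, ← hc, ← map_pow]
      have h2 : c ^ l = 1 := by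
        apply Multiplicative.toAdd.injective
        change l • Multiplicative.toAdd c = 0
        funext q
        rw [Pi.smul_apply, nsmul_eq_mul, CharP.cast_eq_zero, zero_mul]
        rfl
      rw [h2, map_one]
    have h3 := DFunLike.congr_fun h1 v
    exact h3
  · rw [Subgroup.map_comap_eq_self hUle]
    have hcardU : Nat.card U = l ^ ((g + 1).choose 2) := by
      rw [Nat.card_congr (MonoidHom.ofInjective hinj).toEquiv.symm]
      change Nat.card (Sym2 (Fin g) → ZMod l) = _
      rw [Nat.card_fun, Nat.card_zmod, Nat.card_eq_fintype_card, Sym2.card, Fintype.card_fin]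
    have hcardV : Nat.card V = l ^ (2 * g) := by
      rw [← hfr, Module.natCard_eq_pow_finrank (K := ZMod l), Nat.card_zmod]
    rw [hcardU, hcardV]
    rw [hcardV] at hcard
    have hg7 : 14 ≤ 2 * g := (Nat.pow_le_pow_iff_right (by omega)).1 hcard
    rw [← pow_mul, ← pow_mul]
    apply Nat.pow_le_pow_right (by omega)
    obtain ⟨m, rfl⟩ : ∃ m, l = m + 1 := ⟨l - 1, by omega⟩
    have hch : (g + 1).choose 2 * 2 = (g + 1) * g := by
      rw [Nat.choose_two_right]
      rw [Nat.add_sub_cancel]
      exact Nat.div_mul_cancel (by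
        rw [mul_comm]
        exact (Nat.even_mul_succ_self g).two_dvd)
    rw [Nat.add_sub_cancel]
    have hm : 1 ≤ m := by omega
    have hgg : 7 ≤ g := by omega
    have h1 : 4 * g * (m + 1) ≤ (g + 1) * g * m := num_aux m g hm hgg
    nlinarith [h1, hch]

/-- (b) If all isometries of a nondegenerate alternating form come from `G` and
`l ^ 14 ≤ #V`, some subgroup of `G` acts through a large commutative group of exponent `l`. -/
theorem large [Finite V] (e : V →+ V →+ ZMod l) (hV : ∀ v : V, l • v = 0)
    (halt : ∀ v, e v v = 0) (hnd : ∀ v, (∀ w, e v w = 0) → v = 0)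
    (hiso : ∀ f : V ≃+ V, (∀ v w, e (f v) (f w) = e v w) → ∃ g : G, ∀ v, g • v = f v)
    (hcard : l ^ 14 ≤ Nat.card V) :
    ∃ A : Subgroup G, (∀ a ∈ A, ∀ b ∈ A, ∀ v : V, a • b • v = b • a • v) ∧
      (∀ a ∈ A, ∀ v : V, a ^ l • v = v) ∧
      Nat.card V ^ l ≤ Nat.card (A.map (MulAction.toPermHom G V)) ^ (l - 1) := by
  let m : Module (ZMod l) V := AddCommGroup.zmodModule hV
  exact @large_aux l hl G V _ _ _ _ m (@bil l hl V _ m e) halt hnd hiso hcard

end Group

end ZSymp
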